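import Pool.Agent.H6.Fo.Defs

/-!
JOB FO-1. The exit angle.

`q φ` is strictly decreasing on `[0, π]`: its derivative is `-(h + h'')(φ + α) sin α`; `q φ 0 = h φ`, `q φ π = -h (φ + π)`.
So the set in the definition of `ang x` is `[0, α₀]` with `q x.1 α₀ = x.2` if `-h(φ+π) ≤ p ≤ h φ`, it is all of `[0, π]` if `p ≤ -h(φ+π)` and
empty or `{0}` if `p ≥ h φ` (`sSup ∅ = 0`).
Continuity: `ang x ∈ [0, π]` is the unique solution of `q x.1 α = max (-h(x.1+π)) (min (h x.1) x.2)`, `q` is jointly continuous: a map into a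
compact set with closed graph is continuous (or: for `0 ≤ a < ang x` the inequality `x.2 < q x.1 a` persists near `x`, for `ang x < b ≤ π`
the inequality `q x.1 b < x.2` persists near `x`; use these to bound `ang y` from below and above).
-/

set_option autoImplicit false

namespace Pool.Agent.H6.Fo

open Real Set Filter Topology

namespace Supp

variable (K : Supp)

theorem ang_hd (x : ℝ) : HasDerivAt K.h (deriv K.h x) x :=
  (K.an x).differentiableAt.hasDerivAt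

theorem ang_hdd (x : ℝ) : HasDerivAt (deriv K.h) (deriv (deriv K.h) x) x :=
  (K.an x).deriv.differentiableAt.hasDerivAt

theorem ang_hc : Continuous K.h :=
  continuous_iff_continuousAt.2 fun x => (K.an x).continuousAt

theorem ang_hdc : Continuous (deriv K.h) :=
  continuous_iff_continuousAt.2 fun x => (K.an x).deriv.continuousAt

theorem q_zero (φ : ℝ) : K.q φ 0 = K.h φ := by
  simp [q]

theorem q_pi (φ : ℝ) : K.q φ π = -K.h (φ + π) := by
  simp [q]

theorem q_hasDerivAt (φ α : ℝ) :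
    HasDerivAt (K.q φ) (-(K.h (φ + α) + deriv (deriv K.h) (φ + α)) * sin α) α := by
  have h0 : HasDerivAt (fun α : ℝ => φ + α) 1 α := by
    simpa using (hasDerivAt_id α).const_add φ
  have h1 : HasDerivAt (fun α : ℝ => K.h (φ + α)) (deriv K.h (φ + α) * 1) α :=
    (K.ang_hd (φ + α)).comp α h0
  have h2 : HasDerivAt (fun α : ℝ => deriv K.h (φ + α)) (deriv (deriv K.h) (φ + α) * 1) α :=
    (K.ang_hdd (φ + α)).comp α h0
  have h3 := (h1.mul (hasDerivAt_cos α)).sub (h2.mul (hasDerivAt_sin α))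
  refine h3.congr_deriv ?_
  ring

theorem ang_qc (φ : ℝ) : Continuous (K.q φ) :=
  continuous_iff_continuousAt.2 fun α => (K.q_hasDerivAt φ α).continuousAt

theorem q_strictAnti (φ : ℝ) : StrictAntiOn (K.q φ) (Icc 0 π) := by
  apply strictAntiOn_of_deriv_neg (convex_Icc 0 π) (K.ang_qc φ).continuousOn
  intro α hα
  rw [interior_Icc] at hα
  rw [(K.q_hasDerivAt φ α).deriv]
  have h1 := sin_pos_of_pos_of_lt_pi hα.1 hα.2
  have h2 := K.pos (φ + α)
  have h3 := mul_pos h2 h1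
  linarith

theorem ang_bdd (x : ℝ × ℝ) : BddAbove {α : ℝ | α ∈ Icc 0 π ∧ x.2 ≤ K.q x.1 α} :=
  ⟨π, fun _ h => h.1.2⟩

theorem ang_mem (x : ℝ × ℝ) : K.ang x ∈ Icc 0 π := by
  constructor
  · exact Real.sSup_nonneg fun a h => h.1.1
  · exact Real.sSup_le (fun a h => h.1.2) pi_pos.le

theorem ang_of_q {φ α : ℝ} (hα : α ∈ Icc 0 π) : K.ang (φ, K.q φ α) = α := by
  have h : {β : ℝ | β ∈ Icc 0 π ∧ K.q φ α ≤ K.q φ β} = Icc 0 α := by
    ext β
    constructor
    · rintro ⟨h1, h2⟩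
      exact ⟨h1.1, ((K.q_strictAnti φ).le_iff_ge hα h1).1 h2⟩
    · rintro ⟨h1, h2⟩
      have h3 : β ∈ Icc 0 π := ⟨h1, h2.trans hα.2⟩
      exact ⟨h3, ((K.q_strictAnti φ).le_iff_ge hα h3).2 h2⟩
  unfold ang
  show sSup {β : ℝ | β ∈ Icc 0 π ∧ K.q φ α ≤ K.q φ β} = α
  rw [h]
  exact csSup_Icc hα.1

theorem ang_upper {x : ℝ × ℝ} (h : K.h x.1 ≤ x.2) : K.ang x = 0 := by
  refine le_antisymm (Real.sSup_nonpos ?_) (K.ang_mem x).1
  rintro a ⟨h1, h2⟩
  by_contra h3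
  push Not at h3
  have h4 := K.q_strictAnti x.1 ⟨le_rfl, pi_pos.le⟩ h1 h3
  rw [q_zero] at h4
  linarith

theorem ang_lower {x : ℝ × ℝ} (h : x.2 ≤ -K.h (x.1 + π)) : K.ang x = π := by
  refine le_antisymm (K.ang_mem x).2 (le_csSup (K.ang_bdd x) ⟨⟨pi_pos.le, le_rfl⟩, ?_⟩)
  rw [q_pi]
  exact h

theorem q_ang {x : ℝ × ℝ} (h1 : -K.h (x.1 + π) ≤ x.2) (h2 : x.2 ≤ K.h x.1) :
    K.q x.1 (K.ang x) = x.2 := by
  have h3 : x.2 ∈ Icc (K.q x.1 π) (K.q x.1 0) := by
    rw [q_pi, q_zero]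
    exact ⟨h1, h2⟩
  obtain ⟨α, hα, he⟩ := intermediate_value_Icc' pi_pos.le (K.ang_qc x.1).continuousOn h3
  have h4 : x = (x.1, K.q x.1 α) := by rw [he]
  have h5 : K.ang x = α := by
    rw [h4]
    exact K.ang_of_q hα
  rw [h5, he]

theorem mem_dom_iff {x : ℝ × ℝ} : x ∈ K.dom ↔ K.ang x ∈ Ioo 0 π := by
  constructor
  · rintro ⟨h1, h2⟩
    have h3 := K.q_ang h1.le h2.le
    refine ⟨lt_of_le_of_ne (K.ang_mem x).1 ?_, lt_of_le_of_ne (K.ang_mem x).2 ?_⟩
    · intro h4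
      rw [← h4, q_zero] at h3
      linarith
    · intro h4
      rw [h4, q_pi] at h3
      linarith
  · rintro ⟨h1, h2⟩
    constructor
    · by_contra h3
      push Not at h3
      rw [K.ang_lower h3] at h2
      exact lt_irrefl _ h2
    · by_contra h3
      push Not at h3
      rw [K.ang_upper h3] at h1
      exact lt_irrefl _ h1

theorem ang_q_of_lt {x : ℝ × ℝ} {a : ℝ} (ha : a ∈ Ico 0 π) (h : a < K.ang x) :
    x.2 < K.q x.1 a := by
  rcases le_or_gt x.2 (-K.h (x.1 + π)) with h1 | h1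
  · have h2 := K.q_strictAnti x.1 ⟨ha.1, ha.2.le⟩ ⟨pi_pos.le, le_rfl⟩ ha.2
    rw [q_pi] at h2
    linarith
  · rcases le_or_gt (K.h x.1) x.2 with h2 | h2
    · rw [K.ang_upper h2] at h
      exact absurd ha.1 (not_le.2 h)
    · have h3 := K.q_ang h1.le h2.le
      have h4 := K.q_strictAnti x.1 ⟨ha.1, ha.2.le⟩ (K.ang_mem x) h
      linarith

theorem ang_lt_of_q {x : ℝ × ℝ} {a : ℝ} (ha : a ∈ Ico 0 π) (h : x.2 < K.q x.1 a) :
    a < K.ang x := by
  rcases le_or_gt x.2 (-K.h (x.1 + π)) with h1 | h1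
  · rw [K.ang_lower h1]
    exact ha.2
  · rcases le_or_gt (K.h x.1) x.2 with h2 | h2
    · have h3 := (K.q_strictAnti x.1).antitoneOn ⟨le_rfl, pi_pos.le⟩ ⟨ha.1, ha.2.le⟩ ha.1
      rw [q_zero] at h3
      linarith
    · have h3 := K.q_ang h1.le h2.le
      rw [← h3] at h
      exact ((K.q_strictAnti x.1).lt_iff_gt (K.ang_mem x) ⟨ha.1, ha.2.le⟩).1 h

theorem ang_q_of_gt {x : ℝ × ℝ} {b : ℝ} (hb : b ∈ Ioc 0 π) (h : K.ang x < b) :
    K.q x.1 b < x.2 := by
  rcases le_or_gt x.2 (-K.h (x.1 + π)) with h1 | h1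
  · rw [K.ang_lower h1] at h
    exact absurd hb.2 (not_le.2 h)
  · rcases le_or_gt (K.h x.1) x.2 with h2 | h2
    · have h3 := K.q_strictAnti x.1 ⟨le_rfl, pi_pos.le⟩ ⟨hb.1.le, hb.2⟩ hb.1
      rw [q_zero] at h3
      linarith
    · have h3 := K.q_ang h1.le h2.le
      have h4 := K.q_strictAnti x.1 (K.ang_mem x) ⟨hb.1.le, hb.2⟩ h
      linarith

theorem ang_gt_of_q {x : ℝ × ℝ} {b : ℝ} (hb : b ∈ Ioc 0 π) (h : K.q x.1 b < x.2) :
    K.ang x < b := by
  rcases le_or_gt x.2 (-K.h (x.1 + π)) with h1 | h1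
  · have h3 := (K.q_strictAnti x.1).antitoneOn ⟨hb.1.le, hb.2⟩ ⟨pi_pos.le, le_rfl⟩ hb.2
    rw [q_pi] at h3
    linarith
  · rcases le_or_gt (K.h x.1) x.2 with h2 | h2
    · rw [K.ang_upper h2]
      exact hb.1
    · have h3 := K.q_ang h1.le h2.le
      rw [← h3] at h
      exact ((K.q_strictAnti x.1).lt_iff_gt ⟨hb.1.le, hb.2⟩ (K.ang_mem x)).1 h

theorem ang_q_cont (a : ℝ) : Continuous fun y : ℝ × ℝ => K.q y.1 a := by
  unfold q
  exact ((K.ang_hc.comp (continuous_fst.add continuous_const)).mul continuous_const).sub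
    ((K.ang_hdc.comp (continuous_fst.add continuous_const)).mul continuous_const)

theorem ang_continuous : Continuous K.ang := by
  rw [continuous_iff_continuousAt]
  intro x
  refine tendsto_order.2 ⟨fun a ha => ?_, fun b hb => ?_⟩
  · rcases lt_or_ge a 0 with h | h
    · exact Eventually.of_forall fun y => h.trans_le (K.ang_mem y).1
    · have h1 : a ∈ Ico 0 π := ⟨h, ha.trans_le (K.ang_mem x).2⟩
      have h2 := K.ang_q_of_lt h1 ha
      have h3 : ∀ᶠ y : ℝ × ℝ in 𝓝 x, y.2 < K.q y.1 a :=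
        (isOpen_lt continuous_snd (K.ang_q_cont a)).mem_nhds h2
      exact h3.mono fun y hy => K.ang_lt_of_q h1 hy
  · rcases lt_or_ge π b with h | h
    · exact Eventually.of_forall fun y => (K.ang_mem y).2.trans_lt h
    · have h1 : b ∈ Ioc 0 π := ⟨(K.ang_mem x).1.trans_lt hb, h⟩
      have h2 := K.ang_q_of_gt h1 hb
      have h3 : ∀ᶠ y : ℝ × ℝ in 𝓝 x, K.q y.1 b < y.2 :=
        (isOpen_lt (K.ang_q_cont b) continuous_snd).mem_nhds h2
      exact h3.mono fun y hy => K.ang_gt_of_q h1 hy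

theorem dom_isOpen : IsOpen K.dom := by
  have h1 : Continuous fun x : ℝ × ℝ => -K.h (x.1 + π) :=
    (K.ang_hc.comp (continuous_fst.add continuous_const)).neg
  have h2 : Continuous fun x : ℝ × ℝ => K.h x.1 := K.ang_hc.comp continuous_fst
  exact (isOpen_lt h1 continuous_snd).inter (isOpen_lt continuous_snd h2)

theorem dom_nonempty_slice (φ : ℝ) : -K.h (φ + π) < K.h φ := by
  have h := K.q_strictAnti φ ⟨le_rfl, pi_pos.le⟩ ⟨pi_pos.le, le_rfl⟩ pi_pos
  rwa [q_pi, q_zero] at h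

end Supp

end Pool.Agent.H6.Fo
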