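import Pool.Agent.H6.Fo.Ang

/-!
JOB FO-2. The reflection is a homeomorphism of the plane.

Let `r (φ, p) = (-φ, p)` and `K' = K.mir` (`h'(x) = h(-x)`, `deriv` of it at `x` is `-deriv K.h (-x)`). The inverse of `K.refl` is `r ∘ K'.refl ∘ r`.
Let `α = K.ang x`, `y = K.refl x`, claim: `K'.ang (r y) = α`.
If `-h(φ+π) ≤ p ≤ h φ` then `p = h(ψ) cos α - h'(ψ) sin α`, `ψ = φ + α`, `y = (ψ + α, h(ψ) cos α + h'(ψ) sin α)` and
`K'.q (-(ψ+α)) α = K'.h(-ψ) cos α - (deriv K'.h)(-ψ) sin α = h(ψ) cos α + h'(ψ) sin α = y.2`; use `ang_of_q`.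
If `p ≥ h φ`: `α = 0`, `y = x`, `ang_upper` for `K'`. If `p ≤ -h(φ+π)`: `α = π`, `y = (φ + 2π, p)`, `ang_lower` for `K'` (`K'.h(-φ-2π+π) = h(φ+π)`).
Then `r (K'.refl (r y)) = (y.1 - 2α, y.2 - 2 h'(y.1 - α) sin α) = x`. The other composition is the same statement for `K'` (`K.mir.mir` has the same `h`, prove it
with `K'` and use that the formulas only depend on `h`). Continuity: `ang_continuous`.
-/

set_option autoImplicit false

namespace Pool.Agent.H6.Fo

open Real Set Filter Topology

namespace Supp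

variable (K : Supp)

theorem homeo_mir_h (x : ℝ) : K.mir.h x = K.h (-x) := rfl

theorem homeo_mir_deriv (x : ℝ) : deriv K.mir.h x = -deriv K.h (-x) :=
  deriv_comp_neg K.h x

theorem homeo_mir_mir : K.mir.mir = K := by
  cases K with
  | mk h an pos =>
    simp only [mir, neg_neg]

theorem homeo_deriv_cont : Continuous (deriv K.h) :=
  continuous_iff_continuousAt.2 fun x => (K.an x).deriv.continuousAt

theorem ang_mir_refl (x : ℝ × ℝ) :
    K.mir.ang (-(K.refl x).1, (K.refl x).2) = K.ang x := by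
  rcases le_total (K.h x.1) x.2 with h1 | h1
  · have h2 := K.ang_upper h1
    have h3 : K.refl x = x := by
      unfold refl
      rw [h2]
      ext <;> simp
    rw [h3, h2]
    apply ang_upper
    rw [homeo_mir_h, neg_neg]
    exact h1
  · rcases le_total x.2 (-K.h (x.1 + π)) with h2 | h2
    · have h3 := K.ang_lower h2
      have h4 : K.refl x = (x.1 + 2 * π, x.2) := by
        unfold refl
        rw [h3]
        ext <;> simp
      rw [h4, h3]
      apply ang_lower
      rw [homeo_mir_h]
      have e : -(-(x.1 + 2 * π) + π) = x.1 + π := by ring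
      rw [e]
      exact h2
    · have h3 := K.q_ang h2 h1
      have h4 := K.ang_mem x
      have h5 : (K.refl x).2 = K.mir.q (-(K.refl x).1) (K.ang x) := by
        unfold q at h3
        unfold q
        rw [homeo_mir_h, homeo_mir_deriv]
        have e : -(-(K.refl x).1 + K.ang x) = x.1 + K.ang x := by
          unfold refl
          ring
        rw [e]
        have e2 : (K.refl x).2 = x.2 + 2 * deriv K.h (x.1 + K.ang x) * sin (K.ang x) := rfl
        rw [e2]
        linarith
      rw [h5]
      exact K.mir.ang_of_q h4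

/-- the inverse of the reflection -/
noncomputable def homeoInv (y : ℝ × ℝ) : ℝ × ℝ :=
  (-(K.mir.refl (-y.1, y.2)).1, (K.mir.refl (-y.1, y.2)).2)

theorem homeo_left (x : ℝ × ℝ) : K.homeoInv (K.refl x) = x := by
  have h := K.ang_mir_refl x
  unfold homeoInv
  have e : K.mir.refl (-(K.refl x).1, (K.refl x).2) =
      (-(K.refl x).1 + 2 * K.ang x, (K.refl x).2 +
        2 * deriv K.mir.h (-(K.refl x).1 + K.ang x) * sin (K.ang x)) := by
    rw [← h]
    rfl
  rw [e, homeo_mir_deriv]
  have e1 : (K.refl x).1 = x.1 + 2 * K.ang x := rfl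
  have e2 : (K.refl x).2 = x.2 + 2 * deriv K.h (x.1 + K.ang x) * sin (K.ang x) := rfl
  have e3 : -(-(K.refl x).1 + K.ang x) = x.1 + K.ang x := by rw [e1]; ring
  rw [e3]
  ext
  · change -(-(K.refl x).1 + 2 * K.ang x) = x.1
    rw [e1]; ring
  · change (K.refl x).2 + 2 * -deriv K.h (x.1 + K.ang x) * sin (K.ang x) = x.2
    rw [e2]; ring

theorem homeo_right (y : ℝ × ℝ) : K.refl (K.homeoInv y) = y := by
  have h := K.mir.homeo_left (-y.1, y.2)
  unfold homeoInv at h
  rw [homeo_mir_mir] at h
  have h2 : K.refl (K.homeoInv y) = (- -y.1, y.2) := by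
    have h1 := congrArg Prod.fst h
    have h3 := congrArg Prod.snd h
    ext
    · change (K.refl (K.homeoInv y)).1 = - -y.1
      have : -(K.refl (K.homeoInv y)).1 = -y.1 := h1
      linarith
    · exact h3
  rw [h2, neg_neg]

theorem homeo_refl_cont : Continuous K.refl := by
  have h1 := K.ang_continuous
  have h2 := K.homeo_deriv_cont
  unfold refl
  fun_prop

theorem refl_homeo : ∃ e : (ℝ × ℝ) ≃ₜ (ℝ × ℝ), ∀ x, e x = K.refl x := by
  have h1 := K.homeo_refl_cont
  have h2 : Continuous K.homeoInv := by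
    have h3 := K.mir.homeo_refl_cont
    have h4 : Continuous (fun y : ℝ × ℝ => K.mir.refl (-y.1, y.2)) :=
      h3.comp (by fun_prop)
    unfold homeoInv
    exact (continuous_fst.comp h4).neg.prodMk (continuous_snd.comp h4)
  exact ⟨⟨⟨K.refl, K.homeoInv, K.homeo_left, K.homeo_right⟩, h1, h2⟩, fun x => rfl⟩

end Supp

end Pool.Agent.H6.Fo
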