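import Pool.Agent.H6.Fo.Taylor
import Pool.Agent.H6.Fo.Homeo

/-!
JOB FO-6. Grazing at the lower boundary `p = -h(φ + π)`.

`u = p + h(φ + π)`, `u' = p + h(φ - π)`, `refl x = x + (2π, 0)` at the boundary point `x = (φ₀, -h(φ₀ + π))`. For `y = (φ, p)` near `x` with `u y > 0` (so `y ∈ dom`)
put `α = ang y ∈ (0, π)`, `β = π - α`, `ψ = φ + α`: `p = h(ψ) cos α - h'(ψ) sin α = -h(ψ) cos β - h'(ψ) sin β`, `φ + π = ψ + β`, `u y = E ψ (-β)`,
`refl y = (φ + 2α, p') = (ψ + π - β, -h(ψ) cos β + h'(ψ) sin β)`, `u' (refl y) = h(ψ - β) - h(ψ) cos β + h'(ψ) sin β = E ψ β`.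
As `y → x`: `β → 0` (`ang_continuous`, `ang_lower`), `ψ → φ₀ + π`. So `u' (refl y) / u y → 1` by `E_tendsto`, and
`((refl y - refl x) - (y - x)) / √(u y) = (-2 β, 2 h'(ψ) sin β) / √(E ψ (-β)) → 2 √(2 / (h + h'')(φ₀ + π)) (-1, h'(φ₀ + π))`, `rot (du) = (-1, h'(φ₀ + π))`.
If `u y ≤ 0` then `refl y = y + (2π, 0)`. `conn` as in GrazeU: `(φ, t) ↦ (φ, t - h(φ + π))`.
(Compare with job FO-5; the two files should be independent.)

Status: complete (helper26).
-/

set_option autoImplicit false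

namespace Pool.Agent.H6.Fo

open Real Set Filter Topology

namespace Supp

variable (K : Supp)

theorem grazeL_contDiff : ContDiff ℝ 2 K.h := by
  rw [contDiff_iff_contDiffAt]
  intro x
  exact (K.an x).contDiffAt

theorem grazeL_cont : Continuous K.h := K.grazeL_contDiff.continuous

theorem grazeL_deriv_cont : Continuous (deriv K.h) :=
  K.grazeL_contDiff.continuous_deriv (by norm_num)

theorem grazeL_hasDerivAt (x : ℝ) : HasDerivAt K.h (deriv K.h x) x :=
  (K.an x).differentiableAt.hasDerivAt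

theorem grazeL_hasFDerivAt (a : ℝ) (x : ℝ × ℝ) :
    HasFDerivAt (fun y : ℝ × ℝ => y.2 + K.h (y.1 + a))
      (ContinuousLinearMap.snd ℝ ℝ ℝ + (deriv K.h (x.1 + a)) • ContinuousLinearMap.fst ℝ ℝ ℝ) x := by
  have h1 : HasFDerivAt (fun y : ℝ × ℝ => y.1 + a) (ContinuousLinearMap.fst ℝ ℝ ℝ) x :=
    (hasFDerivAt_fst (𝕜 := ℝ) (p := x)).add_const a
  have h2 : HasFDerivAt (fun y : ℝ × ℝ => K.h (y.1 + a))
      ((deriv K.h (x.1 + a)) • ContinuousLinearMap.fst ℝ ℝ ℝ) x :=
    (K.grazeL_hasDerivAt (x.1 + a)).comp_hasFDerivAt x h1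
  exact (hasFDerivAt_snd (𝕜 := ℝ) (p := x)).add h2

theorem grazeL_contDiff_u (a : ℝ) : ContDiff ℝ 1 (fun y : ℝ × ℝ => y.2 + K.h (y.1 + a)) := by
  refine contDiff_snd.add ?_
  exact (K.grazeL_contDiff.of_le (by norm_num)).comp (contDiff_fst.add contDiff_const)

theorem grazeL_refl_lower {y : ℝ × ℝ} (h : y.2 ≤ -K.h (y.1 + π)) :
    K.refl y = (y.1 + 2 * π, y.2) := by
  unfold refl
  rw [K.ang_lower h, sin_pi, mul_zero, add_zero]

theorem grazeL_u {y : ℝ × ℝ} (hy : y ∈ K.dom) :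
    y.2 + K.h (y.1 + π) = K.E (y.1 + K.ang y) (-(π - K.ang y)) := by
  have h1 := K.q_ang hy.1.le hy.2.le
  unfold q at h1
  unfold E
  rw [cos_neg, sin_neg, cos_pi_sub, sin_pi_sub]
  have e : y.1 + K.ang y - -(π - K.ang y) = y.1 + π := by ring
  rw [e]
  linarith

theorem grazeL_u' {y : ℝ × ℝ} (hy : y ∈ K.dom) :
    (K.refl y).2 + K.h ((K.refl y).1 - π) = K.E (y.1 + K.ang y) (π - K.ang y) := by
  have h1 := K.q_ang hy.1.le hy.2.le
  unfold q at h1
  unfold E refl
  rw [cos_pi_sub, sin_pi_sub]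
  have e : y.1 + K.ang y - (π - K.ang y) = y.1 + 2 * K.ang y - π := by ring
  rw [e]
  simp only
  linarith

theorem graze_lower {x : ℝ × ℝ} (hx : x.2 = -K.h (x.1 + π)) : ∃ c : ℝ, 0 < c ∧
    Graze K.refl K.dom x (fun y => y.2 + K.h (y.1 + π)) (fun y => y.2 + K.h (y.1 - π)) c := by
  have hA := K.pos (x.1 + π)
  set A : ℝ := K.h (x.1 + π) + deriv (deriv K.h) (x.1 + π) with hAdef
  have hang : K.ang x = π := K.ang_lower hx.le
  have hrefl : K.refl x = (x.1 + 2 * π, x.2) := K.grazeL_refl_lower hx.le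
  have hcu : Continuous (fun y : ℝ × ℝ => y.2 + K.h (y.1 + π)) := (K.grazeL_contDiff_u π).continuous
  have hux : x.2 + K.h (x.1 + π) = 0 := by rw [hx]; ring
  -- locally `dom` is `u > 0`
  have hloc : ∀ᶠ y in 𝓝 x, (y ∈ K.dom ↔ 0 < y.2 + K.h (y.1 + π)) := by
    have h1 : ∀ᶠ y : ℝ × ℝ in 𝓝 x, y.2 < K.h y.1 := by
      have h2 : x.2 < K.h x.1 := by rw [hx]; exact K.dom_nonempty_slice x.1
      exact continuous_snd.continuousAt.eventually_lt
        ((K.grazeL_cont.comp continuous_fst).continuousAt) h2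
    filter_upwards [h1] with y hy
    unfold dom
    simp only [Set.mem_ofPred_eq]
    constructor
    · rintro ⟨h3, _⟩; linarith
    · intro h3; exact ⟨by linarith, hy⟩
  set L := 𝓝[{y : ℝ × ℝ | 0 < y.2 + K.h (y.1 + π)}] x with hL
  have hdomL : ∀ᶠ y in L, y ∈ K.dom := by
    rw [hL]
    have h1 := hloc.filter_mono (nhdsWithin_le_nhds (s := {y : ℝ × ℝ | 0 < y.2 + K.h (y.1 + π)}))
    filter_upwards [h1, self_mem_nhdsWithin] with y h2 h3
    exact h2.2 h3
  have hψ : Tendsto (fun y : ℝ × ℝ => y.1 + K.ang y) L (𝓝 (x.1 + π)) := by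
    have : Continuous (fun y : ℝ × ℝ => y.1 + K.ang y) := continuous_fst.add K.ang_continuous
    have h2 := this.continuousAt (x := x)
    rw [ContinuousAt, hang] at h2
    exact h2.mono_left nhdsWithin_le_nhds
  have hβ : Tendsto (fun y : ℝ × ℝ => π - K.ang y) L (𝓝 0) := by
    have : Continuous (fun y : ℝ × ℝ => π - K.ang y) := continuous_const.sub K.ang_continuous
    have h2 := this.continuousAt (x := x)
    rw [ContinuousAt, hang, sub_self] at h2
    exact h2.mono_left nhdsWithin_le_nhds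
  have hβpos : ∀ᶠ y in L, 0 < π - K.ang y := by
    filter_upwards [hdomL] with y hy
    have := (K.mem_dom_iff.1 hy).2
    linarith
  have t1 : Tendsto (fun y : ℝ × ℝ => K.E (y.1 + K.ang y) (π - K.ang y) / (π - K.ang y) ^ 2) L
      (𝓝 (A / 2)) := by
    refine (K.E_tendsto (x.1 + π)).comp
      (f := fun y : ℝ × ℝ => (y.1 + K.ang y, π - K.ang y)) ?_
    rw [tendsto_nhdsWithin_iff]
    refine ⟨hψ.prodMk_nhds hβ, ?_⟩
    filter_upwards [hβpos] with y hy
    exact hy.ne'
  have t2 : Tendsto (fun y : ℝ × ℝ => K.E (y.1 + K.ang y) (-(π - K.ang y)) / (π - K.ang y) ^ 2) L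
      (𝓝 (A / 2)) := by
    have h3 : Tendsto (fun y : ℝ × ℝ =>
        K.E (y.1 + K.ang y) (-(π - K.ang y)) / (-(π - K.ang y)) ^ 2) L (𝓝 (A / 2)) := by
      refine (K.E_tendsto (x.1 + π)).comp
        (f := fun y : ℝ × ℝ => (y.1 + K.ang y, -(π - K.ang y))) ?_
      rw [tendsto_nhdsWithin_iff]
      refine ⟨?_, ?_⟩
      · have h4 := hψ.prodMk_nhds hβ.neg
        rwa [neg_zero] at h4
      · filter_upwards [hβpos] with y hy
        exact neg_ne_zero.2 hy.ne'
    refine h3.congr fun y => ?_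
    rw [neg_sq]
  have hratio : Tendsto (fun y : ℝ × ℝ => ((K.refl y).2 + K.h ((K.refl y).1 - π)) /
      (y.2 + K.h (y.1 + π))) L (𝓝 1) := by
    have h3 := t1.div t2 (by positivity)
    rw [div_self (by positivity)] at h3
    refine h3.congr' ?_
    filter_upwards [hdomL, hβpos] with y hy hb
    rw [K.grazeL_u hy, K.grazeL_u' hy]
    simp only [Pi.div_apply]
    rw [div_div_div_cancel_right₀ (by positivity)]
  refine ⟨2 * √(2 / A), by positivity, ?_⟩
  have hfd := (K.grazeL_hasFDerivAt π x).fderiv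
  refine
    { contu := K.grazeL_contDiff_u π
      contu' := by
        have := K.grazeL_contDiff_u (-π)
        simpa only [← sub_eq_add_neg] using this
      zero := hux
      zero' := by
        rw [hrefl]
        simp only
        have e : x.1 + 2 * π - π = x.1 + π := by ring
        rw [e]; exact hux
      grad := by
        rw [hfd]
        intro h0
        have := congrArg (fun l : (ℝ × ℝ) →L[ℝ] ℝ => l (0, 1)) h0
        simp at this
      grad' := by
        have h3 := (K.grazeL_hasFDerivAt (-π) (K.refl x)).fderiv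
        simp only [← sub_eq_add_neg] at h3
        rw [h3, hfd, hrefl]
        simp only
        have e : x.1 + 2 * π - π = x.1 + π := by ring
        rw [e]
      loc := hloc
      loc' := ?_
      conn := ?_
      ratio := hratio
      disp := ?_ }
  · -- loc'
    have h3 : ∀ᶠ y in L, (1 / 2 : ℝ) < ((K.refl y).2 + K.h ((K.refl y).1 - π)) /
        (y.2 + K.h (y.1 + π)) := hratio.eventually (lt_mem_nhds (by norm_num))
    rw [hL, eventually_nhdsWithin_iff] at h3
    filter_upwards [h3] with y hy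
    by_cases hu : 0 < y.2 + K.h (y.1 + π)
    · have h4 := hy hu
      refine ⟨fun _ => ?_, fun _ => hu⟩
      rw [lt_div_iff₀ hu] at h4
      have : 0 < 1 / 2 * (y.2 + K.h (y.1 + π)) := by positivity
      exact this.trans h4
    · refine ⟨fun h => absurd h hu, fun h => ?_⟩
      exfalso
      apply hu
      have h5 : y.2 ≤ -K.h (y.1 + π) := by linarith
      rw [K.grazeL_refl_lower h5] at h
      simp only at h
      have e : y.1 + 2 * π - π = y.1 + π := by ring
      rwa [e] at h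
  · -- conn
    intro V hV
    set Φ : ℝ × ℝ → ℝ × ℝ := fun z => (z.1, z.2 - K.h (z.1 + π)) with hΦ
    have hΦc : Continuous Φ := by
      refine continuous_fst.prodMk (continuous_snd.sub ?_)
      exact K.grazeL_cont.comp (continuous_fst.add continuous_const)
    have hΦ0 : Φ (x.1, 0) = x := by
      rw [hΦ]
      simp only [zero_sub]
      rw [← hx]
    have hpre : Φ ⁻¹' V ∈ 𝓝 ((x.1, 0) : ℝ × ℝ) := by
      apply hΦc.continuousAt.preimage_mem_nhds
      rw [hΦ0]; exact hV
    obtain ⟨ε, hε, hball⟩ := Metric.mem_nhds_iff.1 hpre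
    set Ψ : ℝ × ℝ → ℝ × ℝ := fun y => (y.1, y.2 + K.h (y.1 + π)) with hΨ
    have hΨc : Continuous Ψ := continuous_fst.prodMk hcu
    have hΨx : Ψ x = (x.1, 0) := by
      rw [hΨ]; simp only; rw [hux]
    have hΦΨ : ∀ y, Φ (Ψ y) = y := by
      intro y; rw [hΦ, hΨ]; simp
    have hΨΦ : ∀ y, Ψ (Φ y) = y := by
      intro y; rw [hΦ, hΨ]; simp
    refine ⟨Ψ ⁻¹' Metric.ball ((x.1, 0) : ℝ × ℝ) ε, ?_, ?_, ?_⟩
    · apply hΨc.continuousAt.preimage_mem_nhds
      rw [hΨx]
      exact Metric.ball_mem_nhds _ hε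
    · intro y hy
      have h3 := hball hy
      rw [Set.mem_preimage, hΦΨ] at h3
      exact h3
    · have e : Ψ ⁻¹' Metric.ball ((x.1, 0) : ℝ × ℝ) ε ∩ {y | 0 < y.2 + K.h (y.1 + π)} =
          Φ '' (Metric.ball ((x.1, 0) : ℝ × ℝ) ε ∩ {z | 0 < z.2}) := by
        ext y
        constructor
        · rintro ⟨h3, h4⟩
          exact ⟨Ψ y, ⟨h3, h4⟩, hΦΨ y⟩
        · rintro ⟨z, ⟨h3, h4⟩, rfl⟩
          refine ⟨?_, ?_⟩
          · rw [Set.mem_preimage, hΨΦ]; exact h3
          · have h5 : (Ψ (Φ z)).2 = z.2 := by rw [hΨΦ]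
            have h6 : 0 < (Ψ (Φ z)).2 := by rw [h5]; exact h4
            exact h6
      rw [e]
      apply IsPreconnected.image _ _ hΦc.continuousOn
      apply Convex.isPreconnected
      apply (convex_ball _ _).inter
      intro a ha b hb s t hs ht hst
      simp only [Set.mem_ofPred_eq] at ha hb ⊢
      simp only [Prod.snd_add, Prod.smul_snd, smul_eq_mul]
      rcases eq_or_lt_of_le hs with h0 | h0
      · subst h0
        have : t = 1 := by linarith
        subst this
        simpa using hb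
      · have h1 : 0 < s * a.2 := mul_pos h0 ha
        have h2 : 0 ≤ t * b.2 := mul_nonneg ht hb.le
        linarith
  · -- disp
    have hrot : rot (fderiv ℝ (fun y : ℝ × ℝ => y.2 + K.h (y.1 + π)) x) =
        (-1, deriv K.h (x.1 + π)) := by
      rw [hfd]
      unfold rot
      simp
    rw [hrot]
    have s1 : Tendsto (fun y : ℝ × ℝ =>
        (√(K.E (y.1 + K.ang y) (-(π - K.ang y)) / (π - K.ang y) ^ 2))⁻¹) L
        (𝓝 (√(A / 2))⁻¹) := by
      apply Tendsto.inv₀
      · exact (continuous_sqrt.tendsto _).comp t2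
      · positivity
    have s2 : Tendsto (fun y : ℝ × ℝ => sin (π - K.ang y) / (π - K.ang y)) L (𝓝 1) := by
      have h3 : Tendsto (fun b : ℝ => sin b / b) (𝓝[≠] 0) (𝓝 1) := by
        have h4 := (hasDerivAt_sin 0).tendsto_slope
        rw [cos_zero] at h4
        refine h4.congr fun b => ?_
        rw [slope_def_field, sin_zero, sub_zero, sub_zero]
      refine h3.comp (f := fun y : ℝ × ℝ => π - K.ang y) ?_
      rw [tendsto_nhdsWithin_iff]
      refine ⟨hβ, ?_⟩
      filter_upwards [hβpos] with y hy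
      exact hy.ne'
    have s3 : Tendsto (fun y : ℝ × ℝ => deriv K.h (y.1 + K.ang y)) L
        (𝓝 (deriv K.h (x.1 + π))) := (K.grazeL_deriv_cont.tendsto _).comp hψ
    have s4 : Tendsto (fun y : ℝ × ℝ =>
        (√(K.E (y.1 + K.ang y) (-(π - K.ang y)) / (π - K.ang y) ^ 2))⁻¹ •
          ((-2 : ℝ), 2 * (deriv K.h (y.1 + K.ang y) * (sin (π - K.ang y) / (π - K.ang y))))) L
        (𝓝 ((√(A / 2))⁻¹ • ((-2 : ℝ), 2 * (deriv K.h (x.1 + π) * 1)))) := by
      exact s1.smul (tendsto_const_nhds.prodMk_nhds ((s3.mul s2).const_mul 2))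
    have e1 : (√(A / 2))⁻¹ • ((-2 : ℝ), 2 * (deriv K.h (x.1 + π) * 1)) =
        (2 * √(2 / A)) • ((-1 : ℝ), deriv K.h (x.1 + π)) := by
      have h5 : (√(A / 2))⁻¹ = √(2 / A) := by
        rw [← sqrt_inv, inv_div]
      rw [h5]
      ext
      · simp only [Prod.smul_fst, smul_eq_mul]; ring
      · simp only [Prod.smul_snd, smul_eq_mul]; ring
    rw [← e1]
    refine s4.congr' ?_
    filter_upwards [hdomL, hβpos] with y hy hb
    rw [K.grazeL_u hy]
    set b := π - K.ang y with hbdef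
    have h6 : √(K.E (y.1 + K.ang y) (-b) / b ^ 2) = √(K.E (y.1 + K.ang y) (-b)) / b := by
      rw [sqrt_div' _ (by positivity), sqrt_sq hb.le]
    rw [h6, inv_div]
    have h7 : sin (K.ang y) = sin b := by rw [hbdef, sin_pi_sub]
    have h8 : K.refl y - K.refl x - (y - x) = (-(2 * b), 2 * (deriv K.h (y.1 + K.ang y) * sin b)) := by
      rw [hrefl]
      unfold refl
      ext
      · simp only [Prod.fst_sub]; rw [hbdef]; ring
      · simp only [Prod.snd_sub]; rw [h7]; ring
    rw [h8]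
    ext
    · simp only [Prod.smul_fst, smul_eq_mul]
      ring
    · simp only [Prod.smul_snd, smul_eq_mul]
      field_simp

end Supp

end Pool.Agent.H6.Fo
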