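import Pool.Agent.H6.Fo.Ang

/-!
JOB FO-3. The reflection is analytic and area preserving on `K.dom`.

`Φ (φ, α) = (φ, q φ α)` is analytic, its derivative at `(φ, α)`, `0 < α < π`, is invertible (`∂q/∂α = -(h+h'')(φ+α) sin α < 0`). Analytic inverse function theorem
(`HasStrictFDerivAt.toOpenPartialHomeomorph` and `OpenPartialHomeomorph.analyticAt_symm'` in `Mathlib/Analysis/Analytic/Inverse.lean`, or any similar statement); the local inverse is
`x ↦ (x.1, ang x)` near a point of `dom` (`ang_continuous`, `q_ang`, `mem_dom_iff`: near `x` the point `(y.1, ang y)` is near `(x.1, ang x)` and `Φ (y.1, ang y) = y`).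
Then `refl` is analytic. Determinant: let `a = ∂α/∂φ`, `b = ∂α/∂p`, `s = sin α`, `c = cos α`, `h' = h'(ψ)`, `h'' = h''(ψ)`, `ψ = φ + α`. Differentiating `q(φ, α(φ,p)) = p`:
`q_φ + q_α a = 0`, `q_α b = 1` with `q_φ = h' c - h'' s`, so `a = - q_φ b`. The matrix of the derivative of `(φ + 2α, p + 2 h'(ψ) s)` is
`(1 + 2a, 2b; 2 h''(1 + a) s + 2 h' c a, 1 + 2 h'' b s + 2 h' c b)`, its determinant is `1 + 2 a + 2 b (h' c - h'' s) = 1`.
(`ContinuousLinearMap.det` of a map of `ℝ × ℝ`: `LinearMap.det_toLin` with `Basis.finTwoProd ℝ`, `Matrix.det_fin_two`; see also `Pool/Agent` for similar computations.)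
-/

set_option autoImplicit false

namespace Pool.Agent.H6.Fo

open Real Set Filter Topology

/-- determinant of a continuous linear map of the plane -/
theorem det_plane (A : (ℝ × ℝ) →L[ℝ] (ℝ × ℝ)) :
    A.det = (A (1, 0)).1 * (A (0, 1)).2 - (A (0, 1)).1 * (A (1, 0)).2 := by
  have h1 : A.det = LinearMap.det (A : (ℝ × ℝ) →ₗ[ℝ] (ℝ × ℝ)) := rfl
  rw [h1, ← LinearMap.det_toMatrix (Module.Basis.finTwoProd ℝ), Matrix.det_fin_two]
  simp [LinearMap.toMatrix_apply]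

namespace Supp

variable (K : Supp)

/-- the linear map `(u, v) ↦ (u, p u + r v)` -/
noncomputable def _root_.Pool.Agent.H6.Fo.smo_equiv (p r : ℝ) (hr : r ≠ 0) :
    (ℝ × ℝ) ≃L[ℝ] (ℝ × ℝ) :=
  ContinuousLinearEquiv.equivOfInverse
    ((ContinuousLinearMap.fst ℝ ℝ ℝ).prod
      (p • ContinuousLinearMap.fst ℝ ℝ ℝ + r • ContinuousLinearMap.snd ℝ ℝ ℝ))
    ((ContinuousLinearMap.fst ℝ ℝ ℝ).prod
      (r⁻¹ • (ContinuousLinearMap.snd ℝ ℝ ℝ - p • ContinuousLinearMap.fst ℝ ℝ ℝ)))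
    (by
      intro v
      ext
      · simp
      · simp
        field_simp)
    (by
      intro v
      ext
      · simp
      · simp
        field_simp
        ring)

theorem smo_hasFDerivAt (a : ℝ × ℝ) : HasFDerivAt (fun y : ℝ × ℝ => K.q y.1 y.2)
    ((deriv K.h (a.1 + a.2) * cos a.2 - deriv (deriv K.h) (a.1 + a.2) * sin a.2) •
      ContinuousLinearMap.fst ℝ ℝ ℝ +
      (-(K.h (a.1 + a.2) + deriv (deriv K.h) (a.1 + a.2)) * sin a.2) •
        ContinuousLinearMap.snd ℝ ℝ ℝ) a := by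
  have h0 : HasFDerivAt (fun y : ℝ × ℝ => y.1 + y.2)
      (ContinuousLinearMap.fst ℝ ℝ ℝ + ContinuousLinearMap.snd ℝ ℝ ℝ) a :=
    hasFDerivAt_fst.add hasFDerivAt_snd
  have h1 : HasFDerivAt (fun y : ℝ × ℝ => K.h (y.1 + y.2)) (deriv K.h (a.1 + a.2) •
      (ContinuousLinearMap.fst ℝ ℝ ℝ + ContinuousLinearMap.snd ℝ ℝ ℝ)) a :=
    (K.ang_hd (a.1 + a.2)).comp_hasFDerivAt a h0
  have h2 : HasFDerivAt (fun y : ℝ × ℝ => deriv K.h (y.1 + y.2))
      (deriv (deriv K.h) (a.1 + a.2) •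
        (ContinuousLinearMap.fst ℝ ℝ ℝ + ContinuousLinearMap.snd ℝ ℝ ℝ)) a :=
    HasDerivAt.comp_hasFDerivAt (h₂ := deriv K.h) a (K.ang_hdd (a.1 + a.2)) h0
  have h3 : HasFDerivAt (fun y : ℝ × ℝ => cos y.2) ((-sin a.2) • ContinuousLinearMap.snd ℝ ℝ ℝ) a :=
    hasFDerivAt_snd.cos
  have h4 : HasFDerivAt (fun y : ℝ × ℝ => sin y.2) (cos a.2 • ContinuousLinearMap.snd ℝ ℝ ℝ) a :=
    hasFDerivAt_snd.sin
  refine ((h1.mul h3).sub (h2.mul h4)).congr_fderiv ?_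
  ext
  · simp
    ring
  · simp
    ring

theorem smo_q_analyticAt (a : ℝ × ℝ) : AnalyticAt ℝ (fun y : ℝ × ℝ => K.q y.1 y.2) a := by
  have h0 : AnalyticAt ℝ (fun y : ℝ × ℝ => y.1 + y.2) a := analyticAt_fst.add analyticAt_snd
  have h1 : AnalyticAt ℝ (fun y : ℝ × ℝ => K.h (y.1 + y.2)) a :=
    AnalyticAt.fun_comp (g := K.h) (K.an _) h0
  have h2 : AnalyticAt ℝ (fun y : ℝ × ℝ => deriv K.h (y.1 + y.2)) a :=
    AnalyticAt.fun_comp (g := deriv K.h) (K.an _).deriv h0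
  have h3 : AnalyticAt ℝ (fun y : ℝ × ℝ => cos y.2) a :=
    AnalyticAt.fun_comp (g := cos) Real.analyticAt_cos analyticAt_snd
  have h4 : AnalyticAt ℝ (fun y : ℝ × ℝ => sin y.2) a :=
    AnalyticAt.fun_comp (g := sin) Real.analyticAt_sin analyticAt_snd
  exact (h1.mul h3).sub (h2.mul h4)

theorem ang_analyticAt {x : ℝ × ℝ} (hx : x ∈ K.dom) : AnalyticAt ℝ K.ang x := by
  have hα := K.mem_dom_iff.1 hx
  set a : ℝ × ℝ := (x.1, K.ang x) with ha
  have hr : -(K.h (a.1 + a.2) + deriv (deriv K.h) (a.1 + a.2)) * sin a.2 ≠ 0 := by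
    have h1 := K.pos (a.1 + a.2)
    have h2 := sin_pos_of_pos_of_lt_pi hα.1 hα.2
    exact mul_ne_zero (neg_ne_zero.2 h1.ne') h2.ne'
  set p := deriv K.h (a.1 + a.2) * cos a.2 - deriv (deriv K.h) (a.1 + a.2) * sin a.2 with hp
  set r := -(K.h (a.1 + a.2) + deriv (deriv K.h) (a.1 + a.2)) * sin a.2 with hrr
  let i : (ℝ × ℝ) ≃L[ℝ] (ℝ × ℝ) := smo_equiv p r hr
  have hd : HasFDerivAt (fun y : ℝ × ℝ => (y.1, K.q y.1 y.2)) (i : (ℝ × ℝ) →L[ℝ] (ℝ × ℝ)) a :=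
    hasFDerivAt_fst.prodMk (K.smo_hasFDerivAt a)
  have han : AnalyticAt ℝ (fun y : ℝ × ℝ => (y.1, K.q y.1 y.2)) a :=
    analyticAt_fst.prod (K.smo_q_analyticAt a)
  have hs : HasStrictFDerivAt (fun y : ℝ × ℝ => (y.1, K.q y.1 y.2))
      (i : (ℝ × ℝ) →L[ℝ] (ℝ × ℝ)) a := by
    have := han.hasStrictFDerivAt
    rwa [hd.fderiv] at this
  have hsy := (hs.toOpenPartialHomeomorph _).analyticAt_symm' (i := i)
    hs.mem_toOpenPartialHomeomorph_source han hd.fderiv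
  have hΦ : (x.1, K.q x.1 (K.ang x)) = x := by
    rw [K.q_ang hx.1.le hx.2.le]
  have e1 : (hs.toOpenPartialHomeomorph (fun y : ℝ × ℝ => (y.1, K.q y.1 y.2))) a = x := hΦ
  rw [e1] at hsy
  have h2 : AnalyticAt ℝ (fun y => ((hs.toOpenPartialHomeomorph
      (fun y : ℝ × ℝ => (y.1, K.q y.1 y.2))).symm y).2) x :=
    AnalyticAt.fun_comp (g := Prod.snd) analyticAt_snd hsy
  refine h2.congr ?_
  have ht : Tendsto (fun y : ℝ × ℝ => (y.1, K.ang y)) (𝓝 x) (𝓝 a) :=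
    ((continuous_fst.prodMk K.ang_continuous).continuousAt (x := x))
  have h3 := ht.eventually hs.eventually_left_inverse
  have h4 : ∀ᶠ y in 𝓝 x, y ∈ K.dom := K.dom_isOpen.mem_nhds hx
  filter_upwards [h3, h4] with y hy1 hy2
  have h5 : (y.1, K.q y.1 (K.ang y)) = y := by
    rw [K.q_ang hy2.1.le hy2.2.le]
  rw [h5, HasStrictFDerivAt.localInverse_def] at hy1
  rw [hy1]

theorem refl_analyticAt {x : ℝ × ℝ} (hx : x ∈ K.dom) : AnalyticAt ℝ K.refl x := by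
  have h1 := K.ang_analyticAt hx
  have h2 : AnalyticAt ℝ (fun y : ℝ × ℝ => y.1 + K.ang y) x := analyticAt_fst.add h1
  have h3 : AnalyticAt ℝ (fun y : ℝ × ℝ => deriv K.h (y.1 + K.ang y)) x :=
    AnalyticAt.fun_comp (g := deriv K.h) (K.an _).deriv h2
  have h4 : AnalyticAt ℝ (fun y : ℝ × ℝ => sin (K.ang y)) x :=
    AnalyticAt.fun_comp (g := sin) Real.analyticAt_sin h1
  exact (analyticAt_fst.add (analyticAt_const.mul h1)).prod
    (analyticAt_snd.add ((analyticAt_const.mul h3).mul h4))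

theorem refl_det {x : ℝ × ℝ} (hx : x ∈ K.dom) : (fderiv ℝ K.refl x).det = 1 := by
  have hα := K.mem_dom_iff.1 hx
  have hA : HasFDerivAt K.ang (fderiv ℝ K.ang x) x := (K.ang_analyticAt hx).differentiableAt.hasFDerivAt
  set A := fderiv ℝ K.ang x with hAdef
  have h2 : HasFDerivAt (fun y : ℝ × ℝ => y.1 + K.ang y) (ContinuousLinearMap.fst ℝ ℝ ℝ + A) x :=
    hasFDerivAt_fst.add hA
  have h3 : HasFDerivAt (fun y : ℝ × ℝ => deriv K.h (y.1 + K.ang y))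
      (deriv (deriv K.h) (x.1 + K.ang x) • (ContinuousLinearMap.fst ℝ ℝ ℝ + A)) x :=
    HasDerivAt.comp_hasFDerivAt (h₂ := deriv K.h) x (K.ang_hdd (x.1 + K.ang x)) h2
  have h4 : HasFDerivAt (fun y : ℝ × ℝ => sin (K.ang y)) (cos (K.ang x) • A) x := hA.sin
  have h5 : HasFDerivAt K.refl ((ContinuousLinearMap.fst ℝ ℝ ℝ + (2 : ℝ) • A).prod
      (ContinuousLinearMap.snd ℝ ℝ ℝ + ((2 * deriv K.h (x.1 + K.ang x)) • (cos (K.ang x) • A) +
        sin (K.ang x) • ((2 : ℝ) • (deriv (deriv K.h) (x.1 + K.ang x) •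
          (ContinuousLinearMap.fst ℝ ℝ ℝ + A)))))) x :=
    (hasFDerivAt_fst.add (hA.const_mul 2)).prodMk
      (hasFDerivAt_snd.add ((h3.const_mul 2).mul h4))
  have h6 : HasFDerivAt (fun y : ℝ × ℝ => K.q y.1 (K.ang y))
      (((deriv K.h (x.1 + K.ang x) * cos (K.ang x) - deriv (deriv K.h) (x.1 + K.ang x) *
        sin (K.ang x)) • ContinuousLinearMap.fst ℝ ℝ ℝ +
        (-(K.h (x.1 + K.ang x) + deriv (deriv K.h) (x.1 + K.ang x)) * sin (K.ang x)) •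
          ContinuousLinearMap.snd ℝ ℝ ℝ).comp ((ContinuousLinearMap.fst ℝ ℝ ℝ).prod A)) x :=
    HasFDerivAt.comp (g := fun y : ℝ × ℝ => K.q y.1 y.2) x (K.smo_hasFDerivAt (x.1, K.ang x))
      (hasFDerivAt_fst.prodMk hA)
  have h7 : (fun y : ℝ × ℝ => K.q y.1 (K.ang y)) =ᶠ[𝓝 x] Prod.snd := by
    have h8 : ∀ᶠ y in 𝓝 x, y ∈ K.dom := K.dom_isOpen.mem_nhds hx
    exact h8.mono fun y hy => K.q_ang hy.1.le hy.2.le
  have h8 := (h6.congr_of_eventuallyEq h7.symm).unique hasFDerivAt_snd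
  have h9 := congrArg (fun T : (ℝ × ℝ) →L[ℝ] ℝ => T (1, 0)) h8
  have h10 := congrArg (fun T : (ℝ × ℝ) →L[ℝ] ℝ => T (0, 1)) h8
  simp at h9 h10
  rw [det_plane, h5.fderiv]
  simp
  set a := A (1, 0)
  set b := A (0, 1)
  set c := cos (K.ang x)
  set t := sin (K.ang x)
  set h' := deriv K.h (x.1 + K.ang x)
  set h'' := deriv (deriv K.h) (x.1 + K.ang x)
  linear_combination (2 * b) * h9 - (2 * a) * h10

end Supp

end Pool.Agent.H6.Fo
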