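import Pool.Agent.H6.Fo.GrazeU
import Pool.Agent.H6.Fo.GrazeL
import Pool.Agent.H6.Fo.Smooth

set_option autoImplicit false

namespace Pool.Agent.H6.Fo

open Real Set Filter Topology

theorem arc_good (K : Supp) : GoodLetter K.refl K.dom where
  openS := K.dom_isOpen
  homeo := K.refl_homeo
  an := fun _ hx => K.refl_analyticAt hx
  det := fun _ hx => K.refl_det hx
  bd := by
    intro x hx hx'
    have hh : Continuous K.h := continuous_iff_continuousAt.mpr fun y => (K.an y).continuousAt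
    have hcl : IsClosed {x : ℝ × ℝ | -K.h (x.1 + π) ≤ x.2 ∧ x.2 ≤ K.h x.1} := by
      refine IsClosed.inter ?_ ?_
      · exact isClosed_le (by fun_prop) continuous_snd
      · exact isClosed_le continuous_snd (by fun_prop)
    have h1 : x ∈ {x : ℝ × ℝ | -K.h (x.1 + π) ≤ x.2 ∧ x.2 ≤ K.h x.1} :=
      closure_minimal (s := K.dom) (fun y hy => And.intro (le_of_lt hy.1) (le_of_lt hy.2)) hcl hx
    rcases eq_or_lt_of_le h1.2 with h2 | h2
    · obtain ⟨c, hc, hg⟩ := K.graze_upper h2
      exact ⟨_, _, c, hc, hg⟩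
    · rcases eq_or_lt_of_le h1.1 with h3 | h3
      · obtain ⟨c, hc, hg⟩ := K.graze_lower h3.symm
        exact ⟨_, _, c, hc, hg⟩
      · exact absurd (show x ∈ K.dom from ⟨h3, h2⟩) hx'

theorem arc_dom_ne (K : Supp) : K.dom ≠ univ := by
  intro h
  have : ((0 : ℝ), K.h 0) ∈ K.dom := by rw [h]; trivial
  exact lt_irrefl _ this.2

end Pool.Agent.H6.Fo
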