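import Pool.Agent.H6.Fo.Defs

/-!
JOB FO-7. Reflection in a line `{P | P.1 cos μ + P.2 sin μ = m}` and translations of the plane of lines are good letters (`S = univ`, so `bd` is empty; `F ∘ F = id` for the reflection).
The derivative of `flatF` at `x` is `(a, b) ↦ (-a, -2 m sin(x.1 - μ) a - b)`, determinant 1 (`LinearMap.det_toLin` with `Basis.finTwoProd`, or prove first the formula
`A.det = (A (1,0)).1 * (A (0,1)).2 - (A (0,1)).1 * (A (1,0)).2`).
-/

set_option autoImplicit false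

namespace Pool.Agent.H6.Fo

open Real Set Filter Topology

/-- reflection in the line with normal `(cos μ, sin μ)` at distance `m` -/
noncomputable def flatF (μ m : ℝ) (x : ℝ × ℝ) : ℝ × ℝ :=
  (2 * μ - x.1, 2 * m * cos (x.1 - μ) - x.2)

theorem flat_det (A : (ℝ × ℝ) →L[ℝ] (ℝ × ℝ)) :
    A.det = (A (1, 0)).1 * (A (0, 1)).2 - (A (0, 1)).1 * (A (1, 0)).2 := by
  have h1 : A.det = LinearMap.det (A : (ℝ × ℝ) →ₗ[ℝ] (ℝ × ℝ)) := rfl
  rw [h1, ← LinearMap.det_toMatrix (Module.Basis.finTwoProd ℝ), Matrix.det_fin_two]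
  simp [LinearMap.toMatrix_apply]

theorem flat_invol (μ m : ℝ) (x : ℝ × ℝ) : flatF μ m (flatF μ m x) = x := by
  unfold flatF
  have h1 : cos (2 * μ - x.1 - μ) = cos (x.1 - μ) := by
    rw [← cos_neg]
    congr 1
    ring
  ext
  · simp
  · simp only
    rw [h1]
    ring

theorem flat_cont (μ m : ℝ) : Continuous (flatF μ m) := by
  unfold flatF
  fun_prop

theorem flat_analytic (μ m : ℝ) (x : ℝ × ℝ) : AnalyticAt ℝ (flatF μ m) x := by
  have h1 : AnalyticAt ℝ (fun y : ℝ × ℝ => 2 * μ - y.1) x := analyticAt_const.sub analyticAt_fst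
  have h2 : AnalyticAt ℝ (fun y : ℝ × ℝ => y.1 - μ) x := analyticAt_fst.sub analyticAt_const
  have h3 : AnalyticAt ℝ (fun y : ℝ × ℝ => cos (y.1 - μ)) x :=
    AnalyticAt.fun_comp (g := cos) Real.analyticAt_cos h2
  have h4 : AnalyticAt ℝ (fun y : ℝ × ℝ => 2 * m * cos (y.1 - μ) - y.2) x :=
    (analyticAt_const.mul h3).sub analyticAt_snd
  exact h1.prod h4

theorem flat_deriv (μ m : ℝ) (x v : ℝ × ℝ) : fderiv ℝ (flatF μ m) x v =
    (-v.1, 2 * m * (-sin (x.1 - μ) * v.1) - v.2) := by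
  have h1 : HasFDerivAt (fun y : ℝ × ℝ => 2 * μ - y.1)
      (0 - ContinuousLinearMap.fst ℝ ℝ ℝ) x := (hasFDerivAt_const _ _).sub hasFDerivAt_fst
  have h2 : HasFDerivAt (fun y : ℝ × ℝ => y.1 - μ)
      (ContinuousLinearMap.fst ℝ ℝ ℝ - 0) x := hasFDerivAt_fst.sub (hasFDerivAt_const _ _)
  have h3 : HasFDerivAt (fun y : ℝ × ℝ => cos (y.1 - μ))
      ((-sin (x.1 - μ)) • (ContinuousLinearMap.fst ℝ ℝ ℝ - 0)) x := h2.cos
  have h4 : HasFDerivAt (fun y : ℝ × ℝ => 2 * m * cos (y.1 - μ) - y.2)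
      ((2 * m) • ((-sin (x.1 - μ)) • (ContinuousLinearMap.fst ℝ ℝ ℝ - 0))
        - ContinuousLinearMap.snd ℝ ℝ ℝ) x := (h3.const_mul (2 * m)).sub hasFDerivAt_snd
  have h5 := (h1.prodMk h4).fderiv
  have h6 : fderiv ℝ (flatF μ m) x = _ := h5
  rw [h6]
  simp

theorem flat_good (μ m : ℝ) : GoodLetter (flatF μ m) univ where
  openS := isOpen_univ
  homeo := ⟨⟨⟨flatF μ m, flatF μ m, flat_invol μ m, flat_invol μ m⟩, flat_cont μ m,
    flat_cont μ m⟩, fun _ => rfl⟩
  an := fun x _ => flat_analytic μ m x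
  det := by
    intro x _
    rw [flat_det, flat_deriv, flat_deriv]
    simp
  bd := fun x _ hx => absurd (mem_univ x) hx

theorem shift_good (a : ℝ × ℝ) : GoodLetter (fun x => x + a) univ where
  openS := isOpen_univ
  homeo := ⟨Homeomorph.addRight a, fun _ => rfl⟩
  an := fun _ _ => analyticAt_id.add analyticAt_const
  det := by
    intro x _
    have h1 : HasFDerivAt (fun y : ℝ × ℝ => y + a) (ContinuousLinearMap.id ℝ (ℝ × ℝ)) x :=
      (hasFDerivAt_id x).add_const a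
    rw [h1.fderiv, flat_det]
    simp
  bd := fun x _ hx => absurd (mem_univ x) hx

end Pool.Agent.H6.Fo
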