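import Pool.Agent.H6.Fo.Ang
import Pool.Agent.H6.Fo.Flat

/-!
JOB FO-12. Reflections of the billiard flow in terms of letters.

`V = (-sin φ, cos φ)`, `p = P.1 cos φ + P.2 sin φ` (the same value for `P + t V`).
`bounce_flat`: write `(a, b) = ρ (cos μ, sin μ)`, `ρ > 0` (polar coordinates), `m = c / ρ`; so `γ s` satisfies `(γ s).1 cos μ + (γ s).2 sin μ = m`; differentiate: the tangent is orthogonal to `(cos μ, sin μ)`,
so the reflected vector is `V' = V - 2 (V·N) N`, `N = (cos μ, sin μ)`, `V·N = sin(μ - φ)`, `V' = (-sin(2μ-φ), cos(2μ-φ))`. With `P' = m N + τ N⊥`: `p = m cos(μ-φ) - τ sin(μ-φ)`, `p' = m cos(μ-φ) + τ sin(μ-φ)`, so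
`p' = 2 m cos(φ-μ) - p`.
`bounce_arc`: `γ s = pt ψ` and `y·N ≤ h ψ` for `y ∈ Y` near `γ s`, `N = (cos ψ, sin ψ)`, with equality at `γ s` (`pt ψ · N = h ψ`). (1) `γ s' ∈ Y` for `s'` near `s` (`hY`), so `s' ↦ γ s' · N` has a local maximum at `s`: `γ'(s)·N = 0`.
(2) `P + τ V ∈ Y` for `τ < t` near `t`, so `V·N ≥ 0`, and `V·N ≠ 0` (`hV`: `γ'(s)` is not zero and orthogonal to `N`). `V·N = sin(ψ - φ) > 0`. Choose `k ∈ ℤ` with `α = ψ - φ - 2πk ∈ (0, π)`; `x = (φ + 2πk, p)`, `x.1 + α = ψ`,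
`p = P'·(cos φ, sin φ) = h(ψ) cos α - h'(ψ) sin α = q x.1 α`, so `ang x = α` (`ang_of_q`) and `x ∈ dom` (`mem_dom_iff`); `refl x = (ψ + α, p + 2 h'(ψ) sin α)`; the reflected vector is `V - 2 (V·N) N =
(-sin(ψ+α), cos(ψ+α))` and `P'·(cos(ψ+α), sin(ψ+α)) = h cos α + h' sin α`.
-/

set_option autoImplicit false

namespace Pool.Agent.H6.Fo

open Real Set Filter Topology

/-- the point of the curve with outer normal `(cos ψ, sin ψ)` -/
noncomputable def Supp.pt (K : Supp) (ψ : ℝ) : ℝ × ℝ :=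
  (K.h ψ * cos ψ - deriv K.h ψ * sin ψ, K.h ψ * sin ψ + deriv K.h ψ * cos ψ)

/-- the arc is on the curve `K` and `Y` is locally on its inner side -/
def FocArc (Y : Set (ℝ × ℝ)) (γ : ℝ → ℝ × ℝ) (K : Supp) : Prop :=
  ∀ s ∈ Ioo (0 : ℝ) 1, ∃ ψ : ℝ, γ s = K.pt ψ ∧
    ∃ ε : ℝ, 0 < ε ∧ ∀ y ∈ Y, dist y (γ s) < ε → y.1 * cos ψ + y.2 * sin ψ ≤ K.h ψ

/-- reflection of `V` in the tangent with direction `T` -/
noncomputable def reflV (T V : ℝ × ℝ) : ℝ × ℝ :=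
  V - (2 * (V.1 * (-T.2) + V.2 * T.1) / (T.1 ^ 2 + T.2 ^ 2)) • (-T.2, T.1)

/-- a vector orthogonal to the normal is a multiple of the tangent -/
theorem bounceF_tangent {T : ℝ × ℝ} {ψ : ℝ} (h : T.1 * cos ψ + T.2 * sin ψ = 0) (hT : T ≠ 0) :
    ∃ τ : ℝ, τ ≠ 0 ∧ T = (-(τ * sin ψ), τ * cos ψ) := by
  have h1 := sin_sq_add_cos_sq ψ
  refine ⟨-T.1 * sin ψ + T.2 * cos ψ, ?_, ?_⟩
  · intro h0
    apply hT
    have e1 : T.1 = 0 := by
      have : T.1 * (sin ψ ^ 2 + cos ψ ^ 2) = 0 := by linear_combination cos ψ * h - sin ψ * h0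
      rw [h1] at this
      linarith
    have e2 : T.2 = 0 := by
      have : T.2 * (sin ψ ^ 2 + cos ψ ^ 2) = 0 := by linear_combination sin ψ * h + cos ψ * h0
      rw [h1] at this
      linarith
    exact Prod.ext e1 e2
  · ext
    · show T.1 = -((-T.1 * sin ψ + T.2 * cos ψ) * sin ψ)
      linear_combination cos ψ * h - T.1 * h1
    · show T.2 = (-T.1 * sin ψ + T.2 * cos ψ) * cos ψ
      linear_combination sin ψ * h - T.2 * h1

theorem bounceF_refl {τ : ℝ} (hτ : τ ≠ 0) (ψ φ : ℝ) :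
    reflV (-(τ * sin ψ), τ * cos ψ) (-sin φ, cos φ) = (-sin (2 * ψ - φ), cos (2 * ψ - φ)) := by
  have h1 := sin_sq_add_cos_sq ψ
  have hc : (2 * (-sin φ * (-(τ * cos ψ)) + cos φ * (-(τ * sin ψ))) /
      ((-(τ * sin ψ)) ^ 2 + (τ * cos ψ) ^ 2)) = -(2 * (cos φ * sin ψ - sin φ * cos ψ)) / τ := by
    have h2 : (-(τ * sin ψ)) ^ 2 + (τ * cos ψ) ^ 2 = τ ^ 2 := by
      linear_combination τ ^ 2 * h1
    rw [h2]
    field_simp
    ring
  have e1 : sin (2 * ψ - φ) = sin ψ * (cos φ * cos ψ + sin φ * sin ψ) +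
      cos ψ * (cos φ * sin ψ - sin φ * cos ψ) := by
    rw [show 2 * ψ - φ = ψ + (ψ - φ) by ring, sin_add, cos_sub, sin_sub]
    ring
  have e2 : cos (2 * ψ - φ) = cos ψ * (cos φ * cos ψ + sin φ * sin ψ) -
      sin ψ * (cos φ * sin ψ - sin φ * cos ψ) := by
    rw [show 2 * ψ - φ = ψ + (ψ - φ) by ring, cos_add, cos_sub, sin_sub]
    ring
  have hmul : ∀ y : ℝ, -(2 * (cos φ * sin ψ - sin φ * cos ψ)) / τ * (-(τ * y)) =
      2 * (cos φ * sin ψ - sin φ * cos ψ) * y := by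
    intro y
    field_simp
  unfold reflV
  simp only
  rw [hc]
  ext
  · show -sin φ - -(2 * (cos φ * sin ψ - sin φ * cos ψ)) / τ * (-(τ * cos ψ)) = -sin (2 * ψ - φ)
    rw [hmul, e1]
    linear_combination (sin φ) * h1
  · show cos φ - -(2 * (cos φ * sin ψ - sin φ * cos ψ)) / τ * (-(τ * sin ψ)) = cos (2 * ψ - φ)
    rw [hmul, e2]
    linear_combination (-cos φ) * h1

theorem bounceF_deriv (γ : ℝ → ℝ × ℝ) (hd : Differentiable ℝ γ) (a b s : ℝ) :
    HasDerivAt (fun s' => a * (γ s').1 + b * (γ s').2)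
      (a * (deriv γ s).1 + b * (deriv γ s).2) s := by
  have h := (hd s).hasDerivAt
  have h1 : HasDerivAt (fun s' => (γ s').1) (deriv γ s).1 s := h.fst
  have h2 : HasDerivAt (fun s' => (γ s').2) (deriv γ s).2 s := h.snd
  exact (h1.const_mul a).add (h2.const_mul b)

theorem bounce_flat (γ : ℝ → ℝ × ℝ) (hd : Differentiable ℝ γ) {a b c : ℝ}
    (hab : (a, b) ≠ (0, 0)) (hline : ∀ s ∈ Icc (0 : ℝ) 1, a * (γ s).1 + b * (γ s).2 = c) :
    ∃ μ m : ℝ, ∀ s ∈ Ioo (0 : ℝ) 1, deriv γ s ≠ 0 → ∀ (P : ℝ × ℝ) (t φ : ℝ),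
      γ s = P + t • (-sin φ, cos φ) →
      reflV (deriv γ s) (-sin φ, cos φ) =
        (-sin (flatF μ m (φ, P.1 * cos φ + P.2 * sin φ)).1,
          cos (flatF μ m (φ, P.1 * cos φ + P.2 * sin φ)).1) ∧
      (γ s).1 * cos (flatF μ m (φ, P.1 * cos φ + P.2 * sin φ)).1 +
        (γ s).2 * sin (flatF μ m (φ, P.1 * cos φ + P.2 * sin φ)).1 =
        (flatF μ m (φ, P.1 * cos φ + P.2 * sin φ)).2 := by
  -- polar coordinates
  obtain ⟨ρ, μ, hρ, ha, hb⟩ : ∃ ρ μ : ℝ, 0 < ρ ∧ a = ρ * cos μ ∧ b = ρ * sin μ := by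
    refine ⟨‖(⟨a, b⟩ : ℂ)‖, Complex.arg ⟨a, b⟩, ?_, ?_, ?_⟩
    · rw [norm_pos_iff]
      intro h0
      apply hab
      have h1 := congrArg Complex.re h0
      have h2 := congrArg Complex.im h0
      simp only [Complex.zero_re, Complex.zero_im] at h1 h2
      rw [h1, h2]
    · exact (Complex.norm_mul_cos_arg (⟨a, b⟩ : ℂ)).symm
    · exact (Complex.norm_mul_sin_arg (⟨a, b⟩ : ℂ)).symm
  refine ⟨μ, c / ρ, ?_⟩
  intro s hs hreg P t φ hP
  have hm : c / ρ = (γ s).1 * cos μ + (γ s).2 * sin μ := by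
    rw [← hline s ⟨hs.1.le, hs.2.le⟩, ha, hb]
    field_simp
  have hder : a * (deriv γ s).1 + b * (deriv γ s).2 = 0 := by
    have h1 := bounceF_deriv γ hd a b s
    have h2 : (fun s' => a * (γ s').1 + b * (γ s').2) =ᶠ[𝓝 s] fun _ => c := by
      filter_upwards [Ioo_mem_nhds hs.1 hs.2] with s' hs'
      exact hline s' ⟨hs'.1.le, hs'.2.le⟩
    have h3 : HasDerivAt (fun s' => a * (γ s').1 + b * (γ s').2) 0 s :=
      (hasDerivAt_const s c).congr_of_eventuallyEq h2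
    exact h1.unique h3
  have horth : (deriv γ s).1 * cos μ + (deriv γ s).2 * sin μ = 0 := by
    rw [ha, hb] at hder
    have : ρ * ((deriv γ s).1 * cos μ + (deriv γ s).2 * sin μ) = 0 := by
      linear_combination hder
    rcases mul_eq_zero.1 this with h | h
    · exact absurd h hρ.ne'
    · exact h
  obtain ⟨τ, hτ, hT⟩ := bounceF_tangent horth hreg
  have hp : P.1 * cos φ + P.2 * sin φ = (γ s).1 * cos φ + (γ s).2 * sin φ := by
    rw [hP]
    simp only [Prod.fst_add, Prod.snd_add, Prod.smul_mk, smul_eq_mul]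
    ring
  refine ⟨?_, ?_⟩
  · rw [hT, bounceF_refl hτ]
    rfl
  · show (γ s).1 * cos (2 * μ - φ) + (γ s).2 * sin (2 * μ - φ) =
      2 * (c / ρ) * cos (φ - μ) - (P.1 * cos φ + P.2 * sin φ)
    have h1 := sin_sq_add_cos_sq μ
    rw [hp, hm, show 2 * μ - φ = μ + (μ - φ) by ring, cos_add, sin_add, cos_sub, sin_sub, cos_sub]
    linear_combination (-(γ s).1 * cos φ - (γ s).2 * sin φ) * h1

theorem bounce_arc (Y : Set (ℝ × ℝ)) (γ : ℝ → ℝ × ℝ) (hd : Differentiable ℝ γ)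
    (hY : ∀ s ∈ Icc (0 : ℝ) 1, γ s ∈ Y) (K : Supp) (hK : FocArc Y γ K)
    (s : ℝ) (hs : s ∈ Ioo (0 : ℝ) 1) (hreg : deriv γ s ≠ 0) (P : ℝ × ℝ) (t φ : ℝ) (ht : 0 < t)
    (hP : γ s = P + t • (-sin φ, cos φ))
    (hint : ∀ τ ∈ Ioo (0 : ℝ) t, P + τ • (-sin φ, cos φ) ∈ Y)
    (hV : (-sin φ) * (-(deriv γ s).2) + cos φ * (deriv γ s).1 ≠ 0) :
    ∃ k : ℤ, ∃ x : ℝ × ℝ, x = (φ + 2 * π * k, P.1 * cos φ + P.2 * sin φ) ∧ x ∈ K.dom ∧
      reflV (deriv γ s) (-sin φ, cos φ) = (-sin (K.refl x).1, cos (K.refl x).1) ∧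
      (γ s).1 * cos (K.refl x).1 + (γ s).2 * sin (K.refl x).1 = (K.refl x).2 := by
  obtain ⟨ψ, hψ, ε, hε, hloc⟩ := hK s hs
  have hN := sin_sq_add_cos_sq ψ
  have hg1 : (γ s).1 = K.h ψ * cos ψ - deriv K.h ψ * sin ψ := by rw [hψ]; rfl
  have hg2 : (γ s).2 = K.h ψ * sin ψ + deriv K.h ψ * cos ψ := by rw [hψ]; rfl
  have hval : (γ s).1 * cos ψ + (γ s).2 * sin ψ = K.h ψ := by
    rw [hg1, hg2]
    linear_combination K.h ψ * hN
  -- the tangent is orthogonal to the normal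
  have horth : (deriv γ s).1 * cos ψ + (deriv γ s).2 * sin ψ = 0 := by
    have h1 := bounceF_deriv γ hd (cos ψ) (sin ψ) s
    have hcont : Tendsto γ (𝓝 s) (𝓝 (γ s)) := (hd s).continuousAt
    have hmax : IsLocalMax (fun s' => cos ψ * (γ s').1 + sin ψ * (γ s').2) s := by
      filter_upwards [Ioo_mem_nhds hs.1 hs.2, hcont (Metric.ball_mem_nhds _ hε)] with s' hs' hb
      have h2 := hloc (γ s') (hY s' ⟨hs'.1.le, hs'.2.le⟩) hb
      rw [← hval] at h2
      show cos ψ * (γ s').1 + sin ψ * (γ s').2 ≤ cos ψ * (γ s).1 + sin ψ * (γ s).2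
      linarith
    have h3 := hmax.hasDerivAt_eq_zero h1
    linarith
  obtain ⟨τ, hτ, hT⟩ := bounceF_tangent horth hreg
  -- the direction points outward
  have hVN : sin (ψ - φ) ≠ 0 := by
    intro h0
    apply hV
    rw [hT]
    rw [sin_sub] at h0
    show -sin φ * -(τ * cos ψ) + cos φ * -(τ * sin ψ) = 0
    linear_combination (-τ) * h0
  have hVN' : 0 ≤ sin (ψ - φ) := by
    -- a point just before
    obtain ⟨τ', hτ1, hτ2⟩ : ∃ τ' : ℝ, τ' ∈ Ioo 0 t ∧ t - τ' < ε := by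
      refine ⟨t - min (t / 2) (ε / 2), ⟨?_, ?_⟩, ?_⟩
      · have := min_le_left (t / 2) (ε / 2); linarith
      · have : 0 < min (t / 2) (ε / 2) := lt_min (by linarith) (by linarith)
        linarith
      · have := min_le_right (t / 2) (ε / 2); linarith
    have h2 := hloc _ (hint τ' hτ1) (by
      rw [hP, dist_eq_norm]
      have e : P + τ' • (-sin φ, cos φ) - (P + t • (-sin φ, cos φ)) =
          (τ' - t) • ((-sin φ, cos φ) : ℝ × ℝ) := by
        rw [sub_smul]; abel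
      rw [e, norm_smul]
      have h3 : ‖((-sin φ, cos φ) : ℝ × ℝ)‖ ≤ 1 := by
        rw [Prod.norm_def]
        apply max_le
        · show |-sin φ| ≤ 1
          rw [abs_neg]; exact abs_sin_le_one φ
        · exact abs_cos_le_one φ
      have h4 : ‖τ' - t‖ = t - τ' := by
        rw [Real.norm_eq_abs, abs_sub_comm, abs_of_pos (by linarith [hτ1.2])]
      rw [h4]
      have h5 : 0 < t - τ' := by linarith [hτ1.2]
      nlinarith)
    rw [← hval, hP] at h2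
    simp only [Prod.fst_add, Prod.snd_add, Prod.smul_mk, smul_eq_mul] at h2
    rw [sin_sub]
    have h5 : 0 < t - τ' := by linarith [hτ1.2]
    by_contra hneg
    push Not at hneg
    nlinarith
  have hpos : 0 < sin (ψ - φ) := lt_of_le_of_ne hVN' (Ne.symm hVN)
  -- normalize the angle
  have h2pi : (0 : ℝ) < 2 * π := by positivity
  set k : ℤ := ⌊(ψ - φ) / (2 * π)⌋ with hk
  set α : ℝ := ψ - φ - 2 * π * k with hα
  have hα0 : 0 ≤ α := by
    have h1 := Int.floor_le ((ψ - φ) / (2 * π))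
    rw [le_div_iff₀ h2pi] at h1
    rw [hα]; linarith
  have hα2 : α < 2 * π := by
    have h1 := Int.lt_floor_add_one ((ψ - φ) / (2 * π))
    rw [div_lt_iff₀ h2pi] at h1
    rw [hα]; linarith
  have hsinα : sin α = sin (ψ - φ) := by
    rw [hα, show ψ - φ - 2 * π * k = ψ - φ - k * (2 * π) by ring]
    exact sin_sub_int_mul_two_pi _ _
  have hcosα : cos α = cos (ψ - φ) := by
    rw [hα, show ψ - φ - 2 * π * k = ψ - φ - k * (2 * π) by ring]
    exact cos_sub_int_mul_two_pi _ _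
  have hαpos : 0 < sin α := by rw [hsinα]; exact hpos
  have hαI : α ∈ Ioo 0 π := by
    refine ⟨lt_of_le_of_ne hα0 ?_, ?_⟩
    · intro h0
      rw [← h0, sin_zero] at hαpos
      exact lt_irrefl _ hαpos
    · by_contra h0
      push Not at h0
      have h1 : sin α = -sin (α - π) := by
        rw [sin_sub_pi]; ring
      have h2 : 0 ≤ sin (α - π) := sin_nonneg_of_nonneg_of_le_pi (by linarith) (by linarith)
      linarith
  have hφα : φ + 2 * π * k + α = ψ := by rw [hα]; ring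
  have hp : P.1 * cos φ + P.2 * sin φ = (γ s).1 * cos φ + (γ s).2 * sin φ := by
    rw [hP]
    simp only [Prod.fst_add, Prod.snd_add, Prod.smul_mk, smul_eq_mul]
    ring
  have hpq : P.1 * cos φ + P.2 * sin φ = K.q (φ + 2 * π * k) α := by
    rw [hp]
    unfold Supp.q
    rw [hφα, hsinα, hcosα, hg1, hg2, sin_sub, cos_sub]
    ring
  have hang : K.ang (φ + 2 * π * k, P.1 * cos φ + P.2 * sin φ) = α := by
    rw [hpq]
    exact K.ang_of_q ⟨hαI.1.le, hαI.2.le⟩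
  refine ⟨k, _, rfl, ?_, ?_, ?_⟩
  · rw [Supp.mem_dom_iff, hang]
    exact hαI
  · have h1 : (K.refl (φ + 2 * π * k, P.1 * cos φ + P.2 * sin φ)).1 =
        2 * ψ - φ - k * (2 * π) := by
      unfold Supp.refl
      simp only
      rw [hang, hα]; ring
    rw [h1, sin_sub_int_mul_two_pi, cos_sub_int_mul_two_pi, hT]
    exact bounceF_refl hτ ψ φ
  · have h1 : (K.refl (φ + 2 * π * k, P.1 * cos φ + P.2 * sin φ)).1 =
        ψ + (ψ - φ) - k * (2 * π) := by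
      unfold Supp.refl
      simp only
      rw [hang, hα]; ring
    have h2 : (K.refl (φ + 2 * π * k, P.1 * cos φ + P.2 * sin φ)).2 =
        P.1 * cos φ + P.2 * sin φ + 2 * deriv K.h ψ * sin (ψ - φ) := by
      unfold Supp.refl
      simp only
      rw [hang, hφα, hsinα]
    rw [h1, h2, sin_sub_int_mul_two_pi, cos_sub_int_mul_two_pi, hp, hg1, hg2, cos_add ψ (ψ - φ),
      sin_add ψ (ψ - φ), sin_sub, cos_sub]
    linear_combination
      (K.h ψ * (cos φ * cos ψ + sin φ * sin ψ) + deriv K.h ψ * (cos φ * sin ψ - sin φ * cos ψ)) * hN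

end Pool.Agent.H6.Fo
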