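import Pool.Agent.H6.Fo.Phase2

/-!
The core theorem: a word of good letters, not all of them with domain the whole plane, is not a translation on any open set.
-/

set_option autoImplicit false

namespace Pool.Agent.H6.Fo

open Real Set Filter Topology

variable {w : List ((ℝ × ℝ → ℝ × ℝ) × Set (ℝ × ℝ))}

theorem GoodLetter.cont {F : ℝ × ℝ → ℝ × ℝ} {S : Set (ℝ × ℝ)} (h : GoodLetter F S) :
    Continuous F := by
  obtain ⟨e, he⟩ := h.homeo
  have : F = e := funext fun x => (he x).symm
  rw [this]
  exact e.continuous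

theorem run_continuous : ∀ w : List ((ℝ × ℝ → ℝ × ℝ) × Set (ℝ × ℝ)),
    (∀ L ∈ w, GoodLetter L.1 L.2) → Continuous (run w)
  | [], _ => continuous_id
  | L :: w, hw => by
    have h1 := run_continuous w (fun M hM => hw M (List.mem_cons_of_mem _ hM))
    have h2 := (hw L List.mem_cons_self).cont
    exact h1.comp h2

theorem wdom_isOpen : ∀ w : List ((ℝ × ℝ → ℝ × ℝ) × Set (ℝ × ℝ)),
    (∀ L ∈ w, GoodLetter L.1 L.2) → IsOpen (wdom w)
  | [], _ => isOpen_univ
  | L :: w, hw => by
    have h1 := wdom_isOpen w (fun M hM => hw M (List.mem_cons_of_mem _ hM))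
    have hL := hw L List.mem_cons_self
    exact hL.openS.inter (h1.preimage hL.cont)

theorem run_analyticAt : ∀ w : List ((ℝ × ℝ → ℝ × ℝ) × Set (ℝ × ℝ)),
    (∀ L ∈ w, GoodLetter L.1 L.2) → ∀ x ∈ wdom w, AnalyticAt ℝ (run w) x
  | [], _, _, _ => analyticAt_id
  | L :: w, hw, x, hx => by
    have h1 := run_analyticAt w (fun M hM => hw M (List.mem_cons_of_mem _ hM)) (L.1 x) hx.2
    have h2 := (hw L List.mem_cons_self).an x hx.1
    exact h1.comp h2

theorem wdom_ne_univ : ∀ w : List ((ℝ × ℝ → ℝ × ℝ) × Set (ℝ × ℝ)),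
    (∀ L ∈ w, GoodLetter L.1 L.2) → (∃ L ∈ w, L.2 ≠ univ) → wdom w ≠ univ
  | [], _, h => by obtain ⟨L, hL, -⟩ := h; simp at hL
  | L :: w, hw, h => by
    intro hu
    obtain ⟨M, hM, hMu⟩ := h
    rcases List.mem_cons.mp hM with rfl | hM'
    · apply hMu
      rw [eq_univ_iff_forall]
      intro x
      have : x ∈ wdom (M :: w) := by rw [hu]; trivial
      exact this.1
    · refine wdom_ne_univ w (fun N hN => hw N (List.mem_cons_of_mem _ hN)) ⟨M, hM', hMu⟩ ?_
      rw [eq_univ_iff_forall]
      intro x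
      obtain ⟨e, he⟩ := (hw L List.mem_cons_self).homeo
      have : e.symm x ∈ wdom (L :: w) := by rw [hu]; trivial
      have h2 := this.2
      rw [← he, e.apply_symm_apply] at h2
      exact h2

open Classical in
theorem mem_wdom_of_pat : ∀ (w : List ((ℝ × ℝ → ℝ × ℝ) × Set (ℝ × ℝ))) (x : ℝ × ℝ),
    false ∉ pat w x → x ∈ wdom w
  | [], _, _ => trivial
  | L :: w, x, h => by
    rw [pat, List.mem_cons, not_or] at h
    refine ⟨?_, mem_wdom_of_pat w (L.1 x) h.2⟩
    by_contra h3
    exact h.1 (by simp [h3])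

/-- regular letters stay regular -/
theorem pat_mono : ∀ (w : List ((ℝ × ℝ → ℝ × ℝ) × Set (ℝ × ℝ))),
    (∀ L ∈ w, GoodLetter L.1 L.2) → ∀ x, ∀ᶠ y in 𝓝 x,
      List.Forall₂ (fun a b : Bool => a = true → b = true) (pat w x) (pat w y)
  | [], _, _ => by simp [pat]
  | L :: w, hw, x => by
    have hL := hw L List.mem_cons_self
    have h1 := pat_mono w (fun M hM => hw M (List.mem_cons_of_mem _ hM)) (L.1 x)
    have h2 := (hL.cont.tendsto x).eventually h1
    by_cases hx : x ∈ L.2
    · filter_upwards [h2, hL.openS.mem_nhds hx] with y hy1 hy2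
      simp only [pat]
      refine List.Forall₂.cons ?_ hy1
      intro _
      simp [hy2]
    · filter_upwards [h2] with y hy1
      simp only [pat]
      refine List.Forall₂.cons ?_ hy1
      intro h
      simp [hx] at h

theorem forall₂_count {a b : List Bool}
    (h : List.Forall₂ (fun a b : Bool => a = true → b = true) a b) :
    b.count false ≤ a.count false ∧ (a.count false ≤ b.count false → a = b) := by
  induction h with
  | nil => simp
  | @cons x y a b hxy _ ih =>
    obtain ⟨ih1, ih2⟩ := ih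
    cases x <;> cases y
    · simp only [List.count_cons_self]
      exact ⟨by omega, fun h => by rw [ih2 (by omega)]⟩
    · simp only [List.count_cons_self, List.count_cons_of_ne (show true ≠ false by decide)]
      exact ⟨by omega, fun h => by omega⟩
    · exact absurd (hxy rfl) (by decide)
    · simp only [List.count_cons_of_ne (show true ≠ false by decide)]
      exact ⟨ih1, fun h => by rw [ih2 h]⟩

theorem coreF (w : List ((ℝ × ℝ → ℝ × ℝ) × Set (ℝ × ℝ))) (hw : ∀ L ∈ w, GoodLetter L.1 L.2)
    (hne : ∃ L ∈ w, L.2 ≠ univ) (a : ℝ × ℝ) (x0 : ℝ × ℝ) (hx0 : x0 ∈ wdom w)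
    (h : ∀ᶠ y in 𝓝 x0, run w y = y + a) : False := by
  classical
  have hopen := wdom_isOpen w hw
  set U := connectedComponentIn (wdom w) x0 with hU
  have hUo : IsOpen U := hopen.connectedComponentIn
  have hUsub : U ⊆ wdom w := connectedComponentIn_subset _ _
  have hx0U : x0 ∈ U := mem_connectedComponentIn hx0
  have hUpre : IsPreconnected U := isPreconnected_connectedComponentIn
  -- identity theorem
  have hid : EqOn (run w) (fun y => y + a) U := by
    have ha : AnalyticOnNhd ℝ (run w) U := fun x hx => run_analyticAt w hw x (hUsub hx)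
    have hb : AnalyticOnNhd ℝ (fun y : ℝ × ℝ => y + a) U :=
      fun x _ => analyticAt_id.add analyticAt_const
    exact ha.eqOn_of_preconnected_of_eventuallyEq hb hUpre hx0U h
  -- the frontier is not empty
  have hfr : (frontier U).Nonempty := by
    rw [nonempty_frontier_iff]
    refine ⟨⟨x0, hx0U⟩, ?_⟩
    intro hu
    exact wdom_ne_univ w hw hne (univ_subset_iff.mp (hu ▸ hUsub))
  have hfalse : ∀ x ∈ frontier U, false ∈ pat w x := by
    intro x hx
    by_contra hn
    have hxw : x ∈ wdom w := mem_wdom_of_pat w x hn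
    have h1 : IsOpen (connectedComponentIn (wdom w) x) := hopen.connectedComponentIn
    have h2 : x ∈ connectedComponentIn (wdom w) x := mem_connectedComponentIn hxw
    have h3 : x ∈ closure U := frontier_subset_closure hx
    obtain ⟨y, hy1, hy2⟩ := mem_closure_iff.mp h3 _ h1 h2
    have h4 : connectedComponentIn (wdom w) x = U := by
      rw [hU, connectedComponentIn_eq hy1, ← connectedComponentIn_eq hy2]
    have h5 : x ∈ U := h4 ▸ h2
    rw [hUo.frontier_eq] at hx
    exact hx.2 h5
  -- a frontier point with the smallest number of singular letters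
  obtain ⟨x, hx, hmin⟩ : ∃ x ∈ frontier U, ∀ y ∈ frontier U,
      (pat w x).count false ≤ (pat w y).count false := by
    have := WellFounded.has_min (wellFounded_lt (α := ℕ))
      ((fun x => (pat w x).count false) '' frontier U) (hfr.image _)
    obtain ⟨n, ⟨x, hx, rfl⟩, hn⟩ := this
    exact ⟨x, hx, fun y hy => not_lt.mp (hn _ ⟨y, hy, rfl⟩)⟩
  have hpat : ∀ᶠ y in 𝓝 x, y ∈ frontier U → pat w y = pat w x := by
    filter_upwards [pat_mono w hw x] with y hy1 hy2
    exact ((forall₂_count hy1).2 (hmin y hy2)).symm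
  obtain ⟨u, hu, hu0, hu1, hloc⟩ := phase1 w hw U hUsub x hx hpat (hfalse x hx)
  -- the path
  obtain ⟨ν, hν⟩ : ∃ ν : ℝ × ℝ, fderiv ℝ u x ν = 1 := by
    obtain ⟨v, hv⟩ : ∃ v, fderiv ℝ u x v ≠ 0 := by
      by_contra hcon
      push Not at hcon
      exact hu1 (ContinuousLinearMap.ext fun v => by simpa using hcon v)
    exact ⟨(fderiv ℝ u x v)⁻¹ • v, by rw [map_smul, smul_eq_mul, inv_mul_cancel₀ hv]⟩
  let y : ℝ → ℝ × ℝ := fun t => x + t • ν
  have hyc : Tendsto y (𝓝[>] 0) (𝓝 x) := by
    have : Continuous y := by fun_prop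
    have h2 := this.tendsto 0
    simp only [y, zero_smul, add_zero] at h2
    exact h2.mono_left nhdsWithin_le_nhds
  have hyd : HasDerivAt (fun t => u (y t)) 1 0 := by
    have h1 : HasFDerivAt u (fderiv ℝ u x) (y 0) := by
      have : y 0 = x := by simp [y]
      rw [this]
      exact (hu.differentiableAt (by norm_num)).hasFDerivAt
    have h2 : HasDerivAt y ν 0 := by
      have := ((hasDerivAt_id (0 : ℝ)).smul_const ν).const_add x
      simpa [y] using this
    have h3 := h1.comp_hasDerivAt 0 h2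
    rw [hν] at h3
    exact h3
  have hyb : Tendsto (fun t => u (y t) / t) (𝓝[>] 0) (𝓝 1) := by
    have h1 := hyd.tendsto_slope_zero_right
    have h2 : u (y 0) = 0 := by simp [y, hu0]
    refine h1.congr fun t => ?_
    rw [zero_add, h2, sub_zero, smul_eq_mul]
    ring
  have hyl : Tendsto (fun t => (√t)⁻¹ • (y t - x)) (𝓝[>] 0) (𝓝 ((0 : ℝ) • rot (fderiv ℝ u x))) := by
    rw [zero_smul]
    have h1 : Tendsto (fun t : ℝ => √t • ν) (𝓝[>] 0) (𝓝 0) := by
      have : Continuous (fun t : ℝ => √t • ν) := by fun_prop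
      have h2 := this.tendsto 0
      simp only [Real.sqrt_zero, zero_smul] at h2
      exact h2.mono_left nhdsWithin_le_nhds
    refine h1.congr' ?_
    filter_upwards [self_mem_nhdsWithin] with t ht
    have ht' : (0 : ℝ) < t := ht
    simp only [y, add_sub_cancel_left]
    rw [smul_smul]
    congr 1
    have := Real.sqrt_pos.mpr ht'
    field_simp
    rw [Real.sq_sqrt ht'.le]
  obtain ⟨D, hD, hlim⟩ := phase2 w hw U hUsub x hx hpat u hu hu0 hu1 hloc y 1 0 one_pos le_rfl
    hyc hyb hyl (Or.inr (hfalse x hx))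
  -- but the word is a translation
  have hxa : run w x = x + a := by
    have hc1 := run_continuous w hw
    have hcl : IsClosed {z | run w z = z + a} := isClosed_eq hc1 (by fun_prop)
    have : closure U ⊆ {z | run w z = z + a} := closure_minimal hid hcl
    exact this (frontier_subset_closure hx)
  have hpos : ∀ᶠ t in 𝓝[>] (0 : ℝ), y t ∈ U := by
    have h1 := hyc.eventually hloc
    have h2 : ∀ᶠ t in 𝓝[>] (0 : ℝ), 0 < u (y t) / t := hyb.eventually (lt_mem_nhds one_pos)
    filter_upwards [h1, h2, self_mem_nhdsWithin] with t ht1 ht2 ht3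
    have ht3' : (0 : ℝ) < t := ht3
    rw [ht1]
    exact (div_pos_iff_of_pos_right ht3').mp ht2
  have hlim2 : Tendsto (fun t => (√t)⁻¹ • (run w (y t) - run w x)) (𝓝[>] 0)
      (𝓝 ((0 : ℝ) • rot (fderiv ℝ u x))) := by
    refine hyl.congr' ?_
    filter_upwards [hpos] with t ht
    rw [hid ht, hxa]
    simp
  have := tendsto_nhds_unique hlim hlim2
  rw [zero_smul] at this
  exact hD this

end Pool.Agent.H6.Fo
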