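import Mathlib

/-!
Ivrii's conjecture for focusing analytic arcs (MP_ac23f1_an): definitions.

Oriented lines: `x = (φ, p)` is the line `{P | P.1 cos φ + P.2 sin φ = p}` with direction `(-sin φ, cos φ)`.
A focusing arc is described by its support function `h` : the point with outer normal `(cos ψ, sin ψ)` is
`(h cos ψ - h' sin ψ, h sin ψ + h' cos ψ)`, the radius of curvature is `h + h''`.
The line that leaves the curve at the point `ψ` under the angle `α ∈ (0, π)` is `φ = ψ - α`,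
`p = h(ψ) cos α - h'(ψ) sin α`; it is reflected to `φ = ψ + α`, `p = h(ψ) cos α + h'(ψ) sin α`.
-/

set_option autoImplicit false

namespace Pool.Agent.H6.Fo

open Real Set Filter Topology

/-- support function of a complete locally strictly convex analytic curve -/
structure Supp where
  h : ℝ → ℝ
  an : ∀ x, AnalyticAt ℝ h x
  pos : ∀ x, 0 < h x + deriv (deriv h) x

namespace Supp

/-- `p`-coordinate of the line `(φ, p)` that leaves the curve under the angle `α`, at `ψ = φ + α` -/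
noncomputable def q (K : Supp) (φ α : ℝ) : ℝ :=
  K.h (φ + α) * cos α - deriv K.h (φ + α) * sin α

/-- the lines that hit the curve from inside -/
def dom (K : Supp) : Set (ℝ × ℝ) := {x | -K.h (x.1 + π) < x.2 ∧ x.2 < K.h x.1}

/-- exit angle `α`; `0` for `p ≥ h(φ)`, `π` for `p ≤ - h(φ + π)` -/
noncomputable def ang (K : Supp) (x : ℝ × ℝ) : ℝ :=
  sSup {α : ℝ | α ∈ Icc 0 π ∧ x.2 ≤ K.q x.1 α}

/-- the reflection, extended to a homeomorphism of the plane -/
noncomputable def refl (K : Supp) (x : ℝ × ℝ) : ℝ × ℝ :=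
  (x.1 + 2 * K.ang x, x.2 + 2 * deriv K.h (x.1 + K.ang x) * sin (K.ang x))

/-- mirror image -/
noncomputable def mir (K : Supp) : Supp where
  h := fun x => K.h (-x)
  an := fun x => (K.an (-x)).comp_of_eq (analyticAt_id.neg) rfl
  pos := by
    intro x
    have h1 : deriv (fun y : ℝ => K.h (-y)) = fun y => -deriv K.h (-y) := by
      funext y
      exact deriv_comp_neg K.h y
    rw [h1]
    have h2 : deriv (fun y : ℝ => -deriv K.h (-y)) x = deriv (deriv K.h) (-x) := by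
      rw [deriv.fun_neg, deriv_comp_neg (deriv K.h) x, neg_neg]
    rw [h2]
    exact K.pos (-x)

end Supp

/-- `J ∇u` for the differential `ℓ = du` -/
def rot (ℓ : (ℝ × ℝ) →L[ℝ] ℝ) : ℝ × ℝ := (-ℓ (0, 1), ℓ (1, 0))

/-- behaviour of the letter `F` with domain `S` at a boundary point `x` of `S`:
`u > 0` describes `S` near `x`, and `F` displaces by `c √u · J∇u`, `c > 0` -/
structure Graze (F : ℝ × ℝ → ℝ × ℝ) (S : Set (ℝ × ℝ)) (x : ℝ × ℝ) (u u' : ℝ × ℝ → ℝ) (c : ℝ) :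
    Prop where
  contu : ContDiff ℝ 1 u
  contu' : ContDiff ℝ 1 u'
  zero : u x = 0
  zero' : u' (F x) = 0
  grad : fderiv ℝ u x ≠ 0
  grad' : fderiv ℝ u' (F x) = fderiv ℝ u x
  loc : ∀ᶠ y in 𝓝 x, (y ∈ S ↔ 0 < u y)
  loc' : ∀ᶠ y in 𝓝 x, (0 < u y ↔ 0 < u' (F y))
  conn : ∀ V ∈ 𝓝 x, ∃ B ∈ 𝓝 x, B ⊆ V ∧ IsPreconnected (B ∩ {y | 0 < u y})
  ratio : Tendsto (fun y => u' (F y) / u y) (𝓝[{y | 0 < u y}] x) (𝓝 1)
  disp : Tendsto (fun y => (√(u y))⁻¹ • ((F y - F x) - (y - x))) (𝓝[{y | 0 < u y}] x)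
    (𝓝 (c • rot (fderiv ℝ u x)))

/-- a letter: a homeomorphism of the plane, analytic and area preserving on the open set `S`, with grazing behaviour
at the boundary points of `S` -/
structure GoodLetter (F : ℝ × ℝ → ℝ × ℝ) (S : Set (ℝ × ℝ)) : Prop where
  openS : IsOpen S
  homeo : ∃ e : (ℝ × ℝ) ≃ₜ (ℝ × ℝ), ∀ x, e x = F x
  an : ∀ x ∈ S, AnalyticAt ℝ F x
  det : ∀ x ∈ S, (fderiv ℝ F x).det = 1
  bd : ∀ x ∈ closure S, x ∉ S → ∃ (u u' : ℝ × ℝ → ℝ) (c : ℝ), 0 < c ∧ Graze F S x u u' c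

/-- a word: first letter first -/
def run : List ((ℝ × ℝ → ℝ × ℝ) × Set (ℝ × ℝ)) → ℝ × ℝ → ℝ × ℝ
  | [], x => x
  | L :: w, x => run w (L.1 x)

/-- the points at which all letters of the word can be applied -/
def wdom : List ((ℝ × ℝ → ℝ × ℝ) × Set (ℝ × ℝ)) → Set (ℝ × ℝ)
  | [] => univ
  | L :: w => {x | x ∈ L.2 ∧ L.1 x ∈ wdom w}

open Classical in
/-- which letters are regular at `x` -/
noncomputable def pat : List ((ℝ × ℝ → ℝ × ℝ) × Set (ℝ × ℝ)) → ℝ × ℝ → List Bool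
  | [], _ => []
  | L :: w, x => decide (x ∈ L.2) :: pat w (L.1 x)

end Pool.Agent.H6.Fo
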