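import Pool.Agent.H6.Fo.Taylor
import Pool.Agent.H6.Fo.Homeo

/-!
JOB FO-5. Grazing at the upper boundary `p = h(φ)`.

`u = u' = h(φ) - p`, `refl x = x` at the boundary point `x = (φ₀, h φ₀)`. For `y = (φ, p)` near `x` with `u y > 0` (so `y ∈ dom`: also `-h(φ+π) < p`, by continuity and `dom_nonempty_slice`)
put `α = ang y ∈ (0, π)`, `ψ = φ + α`: `p = h(ψ) cos α - h'(ψ) sin α`, `u y = E ψ α`, `refl y = (ψ + α, h(ψ) cos α + h'(ψ) sin α)`, `u (refl y) = E ψ (-α)`.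
As `y → x`: `α → 0` (`ang_continuous`, `ang_upper`), `ψ → φ₀`. So `u (refl y) / u y → 1` by `E_tendsto`, and
`(refl y - y) / √(u y) = (2 α / √(E ψ α)) (1, h'(ψ) sin α / α) → 2 √(2 / (h + h'')(φ₀)) (1, h'(φ₀))`, `rot (du) = (1, h'(φ₀))`. `c = 2 √(2/(h+h'')(φ₀))`.
If `u y ≤ 0` then `refl y = y`, so `loc'` is clear; for `u y > 0` use `E > 0` for small `α` (from `E_tendsto`), or `ang_mir_refl` with `mem_dom_iff`.
`conn`: given `V ∈ 𝓝 x` take `ε` with `{y | |y.1 - φ₀| < ε, |h(y.1) - y.2| < ε} ⊆ V`; this set intersected with `u > 0` is the image of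
`(φ₀-ε, φ₀+ε) × (0, ε)` (convex) under the continuous map `(φ, t) ↦ (φ, h(φ) - t)`.
-/

set_option autoImplicit false

namespace Pool.Agent.H6.Fo

open Real Set Filter Topology

namespace Supp

variable (K : Supp)

theorem grU_contDiff : ContDiff ℝ 1 (fun y : ℝ × ℝ => K.h y.1 - y.2) := by
  have h1 : ContDiff ℝ 1 K.h := contDiff_iff_contDiffAt.2 fun x => (K.an x).contDiffAt
  exact (h1.comp contDiff_fst).sub contDiff_snd

theorem grU_hasFDerivAt (y : ℝ × ℝ) : HasFDerivAt (fun y : ℝ × ℝ => K.h y.1 - y.2)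
    (deriv K.h y.1 • ContinuousLinearMap.fst ℝ ℝ ℝ - ContinuousLinearMap.snd ℝ ℝ ℝ) y := by
  have h1 : HasFDerivAt (fun y : ℝ × ℝ => K.h y.1)
      (deriv K.h y.1 • ContinuousLinearMap.fst ℝ ℝ ℝ) y :=
    (K.ang_hd y.1).comp_hasFDerivAt y hasFDerivAt_fst
  exact h1.sub hasFDerivAt_snd

theorem grU_cont : Continuous (fun y : ℝ × ℝ => K.h y.1 - y.2) := K.grU_contDiff.continuous

theorem grU_conn {x : ℝ × ℝ} (V : Set (ℝ × ℝ)) (hV : V ∈ 𝓝 x) :
    ∃ B ∈ 𝓝 x, B ⊆ V ∧ IsPreconnected (B ∩ {y | 0 < K.h y.1 - y.2}) := by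
  set g : ℝ × ℝ → ℝ × ℝ := fun y => (y.1, K.h y.1 - y.2) with hg
  have hgc : Continuous g := continuous_fst.prodMk K.grU_cont
  have hgg : ∀ y, g (g y) = y := by
    intro y
    ext
    · rfl
    · change K.h y.1 - (K.h y.1 - y.2) = y.2
      ring
  have hgx : g (g x) = x := hgg x
  have h1 : g ⁻¹' V ∈ 𝓝 (g x) := by
    apply hgc.continuousAt.preimage_mem_nhds
    rw [hgx]
    exact hV
  obtain ⟨ε, hε, hb⟩ := Metric.mem_nhds_iff.1 h1
  refine ⟨g ⁻¹' Metric.ball (g x) ε, hgc.continuousAt.preimage_mem_nhds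
    (Metric.ball_mem_nhds _ hε), ?_, ?_⟩
  · intro y hy
    have h2 : g (g y) ∈ V := hb hy
    rwa [hgg] at h2
  · have h3 : g ⁻¹' Metric.ball (g x) ε ∩ {y | 0 < K.h y.1 - y.2} =
        g '' (Metric.ball (g x) ε ∩ {z | 0 < z.2}) := by
      ext y
      constructor
      · rintro ⟨h4, h5⟩
        exact ⟨g y, ⟨h4, h5⟩, hgg y⟩
      · rintro ⟨z, ⟨h4, h5⟩, rfl⟩
        refine ⟨?_, ?_⟩
        · change g (g z) ∈ Metric.ball (g x) ε
          rw [hgg]
          exact h4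
        · have h6 : (g (g z)).2 = z.2 := by rw [hgg]
          change 0 < (g (g z)).2
          rw [h6]
          exact h5
    rw [h3]
    have h4 : Convex ℝ (Metric.ball (g x) ε ∩ {z : ℝ × ℝ | 0 < z.2}) := by
      refine (convex_ball _ _).inter ?_
      have h5 : Convex ℝ (Prod.snd ⁻¹' (Ioi (0 : ℝ)) : Set (ℝ × ℝ)) :=
        (convex_Ioi (0 : ℝ)).linear_preimage (LinearMap.snd ℝ ℝ ℝ)
      exact h5
    exact h4.isPreconnected.image g hgc.continuousOn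

theorem grU_refl {x : ℝ × ℝ} (hx : x.2 = K.h x.1) : K.ang x = 0 ∧ K.refl x = x := by
  have h2 := K.ang_upper hx.ge
  refine ⟨h2, ?_⟩
  unfold refl
  rw [h2]
  ext <;> simp

theorem grU_loc {x : ℝ × ℝ} (hx : x.2 = K.h x.1) :
    ∀ᶠ y in 𝓝 x, (y ∈ K.dom ↔ 0 < K.h y.1 - y.2) := by
  have h1 : ∀ᶠ y : ℝ × ℝ in 𝓝 x, -K.h (y.1 + π) < y.2 := by
    have h2 : Continuous fun x : ℝ × ℝ => -K.h (x.1 + π) :=
      (K.ang_hc.comp (continuous_fst.add continuous_const)).neg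
    refine (isOpen_lt h2 continuous_snd).mem_nhds ?_
    change -K.h (x.1 + π) < x.2
    rw [hx]
    exact K.dom_nonempty_slice x.1
  filter_upwards [h1] with y hy
  constructor
  · rintro ⟨_, h3⟩
    exact sub_pos.2 h3
  · intro h3
    exact ⟨hy, sub_pos.1 h3⟩

theorem grU_loc' {x : ℝ × ℝ} (hx : x.2 = K.h x.1) :
    ∀ᶠ y in 𝓝 x, (0 < K.h y.1 - y.2 ↔ 0 < K.h (K.refl y).1 - (K.refl y).2) := by
  have h0 := K.grU_loc hx
  have h1 : ∀ᶠ y : ℝ × ℝ in 𝓝 x, -K.h ((K.refl y).1 - π) < (K.refl y).2 := by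
    have hc := K.homeo_refl_cont
    have h2 : Continuous fun y : ℝ × ℝ => -K.h ((K.refl y).1 - π) :=
      (K.ang_hc.comp ((continuous_fst.comp hc).sub continuous_const)).neg
    refine (isOpen_lt h2 (continuous_snd.comp hc)).mem_nhds ?_
    change -K.h ((K.refl x).1 - π) < (K.refl x).2
    rw [(K.grU_refl hx).2, hx]
    have h3 := K.mir.dom_nonempty_slice (-x.1)
    rw [homeo_mir_h, homeo_mir_h, neg_neg] at h3
    have e : -(-x.1 + π) = x.1 - π := by ring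
    rwa [e] at h3
  filter_upwards [h0, h1] with y hy0 hy1
  rw [← hy0, K.mem_dom_iff, ← K.ang_mir_refl, ← K.mir.mem_dom_iff]
  constructor
  · rintro ⟨_, h3⟩
    have h4 : (K.refl y).2 < K.h (- -(K.refl y).1) := h3
    rw [neg_neg] at h4
    exact sub_pos.2 h4
  · intro h3
    constructor
    · change -K.h (-(-(K.refl y).1 + π)) < (K.refl y).2
      have e : -(-(K.refl y).1 + π) = (K.refl y).1 - π := by ring
      rw [e]
      exact hy1
    · change (K.refl y).2 < K.h (- -(K.refl y).1)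
      rw [neg_neg]
      exact sub_pos.1 h3

theorem grU_eqs {y : ℝ × ℝ} (hy : y ∈ K.dom) :
    K.h y.1 - y.2 = K.E (y.1 + K.ang y) (K.ang y) ∧
      K.h (K.refl y).1 - (K.refl y).2 = K.E (y.1 + K.ang y) (-K.ang y) := by
  have h1 := K.q_ang hy.1.le hy.2.le
  unfold q at h1
  unfold E refl
  rw [cos_neg, sin_neg]
  have e1 : y.1 + K.ang y - K.ang y = y.1 := by ring
  have e2 : y.1 + K.ang y - -K.ang y = y.1 + 2 * K.ang y := by ring
  rw [e1, e2]
  dsimp only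
  constructor <;> linarith

theorem graze_upper {x : ℝ × ℝ} (hx : x.2 = K.h x.1) : ∃ c : ℝ, 0 < c ∧
    Graze K.refl K.dom x (fun y => K.h y.1 - y.2) (fun y => K.h y.1 - y.2) c := by
  obtain ⟨hang, hrefl⟩ := K.grU_refl hx
  set κ : ℝ := (K.h x.1 + deriv (deriv K.h) x.1) / 2 with hκ
  have hκ0 : 0 < κ := by
    have := K.pos x.1
    rw [hκ]
    linarith
  have hloc := K.grU_loc hx
  set l : Filter (ℝ × ℝ) := 𝓝[{y | 0 < K.h y.1 - y.2}] x with hl
  have hin : ∀ᶠ y in l, y ∈ K.dom := by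
    have h1 : ∀ᶠ y in l, (y ∈ K.dom ↔ 0 < K.h y.1 - y.2) := nhdsWithin_le_nhds hloc
    have h2 : ∀ᶠ y in l, 0 < K.h y.1 - y.2 := self_mem_nhdsWithin
    filter_upwards [h1, h2] with y h3 h4
    exact h3.2 h4
  have hangT : Tendsto K.ang l (𝓝 0) := by
    rw [← hang]
    exact K.ang_continuous.continuousAt.tendsto.mono_left nhdsWithin_le_nhds
  have hfstT : Tendsto (fun y : ℝ × ℝ => y.1) l (𝓝 x.1) :=
    continuous_fst.continuousAt.tendsto.mono_left nhdsWithin_le_nhds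
  have hψT : Tendsto (fun y : ℝ × ℝ => y.1 + K.ang y) l (𝓝 x.1) := by
    simpa using hfstT.add hangT
  have hang0 : ∀ᶠ y in l, 0 < K.ang y := by
    filter_upwards [hin] with y hy
    exact ((K.mem_dom_iff).1 hy).1
  have hT1 : Tendsto (fun y : ℝ × ℝ => (y.1 + K.ang y, K.ang y)) l
      (𝓝[{z | z.2 ≠ 0}] (x.1, 0)) := by
    rw [tendsto_nhdsWithin_iff]
    exact ⟨hψT.prodMk_nhds hangT, hang0.mono fun y hy => hy.ne'⟩
  have hT2 : Tendsto (fun y : ℝ × ℝ => (y.1 + K.ang y, -K.ang y)) l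
      (𝓝[{z | z.2 ≠ 0}] (x.1, 0)) := by
    have h1 : Tendsto (fun y : ℝ × ℝ => -K.ang y) l (𝓝 0) := by
      simpa using hangT.neg
    rw [tendsto_nhdsWithin_iff]
    exact ⟨hψT.prodMk_nhds h1, hang0.mono fun y hy => neg_ne_zero.2 hy.ne'⟩
  have hE1 : Tendsto (fun y : ℝ × ℝ => K.E (y.1 + K.ang y) (K.ang y) / K.ang y ^ 2) l (𝓝 κ) := by
    have h1 := (K.E_tendsto x.1).comp hT1
    exact h1.congr fun y => rfl
  have hE2 : Tendsto (fun y : ℝ × ℝ => K.E (y.1 + K.ang y) (-K.ang y) / K.ang y ^ 2) l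
      (𝓝 κ) := by
    have h1 := (K.E_tendsto x.1).comp hT2
    refine h1.congr fun y => ?_
    change K.E (y.1 + K.ang y) (-K.ang y) / (-K.ang y) ^ 2 = _
    rw [neg_sq]
  have hfd : fderiv ℝ (fun y : ℝ × ℝ => K.h y.1 - y.2) x =
      deriv K.h x.1 • ContinuousLinearMap.fst ℝ ℝ ℝ - ContinuousLinearMap.snd ℝ ℝ ℝ :=
    (K.grU_hasFDerivAt x).fderiv
  have hrot : rot (fderiv ℝ (fun y : ℝ × ℝ => K.h y.1 - y.2) x) = (1, deriv K.h x.1) := by
    rw [hfd]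
    unfold rot
    ext <;> simp
  have hzero : K.h x.1 - x.2 = 0 := sub_eq_zero.2 hx.symm
  have hzero' : K.h (K.refl x).1 - (K.refl x).2 = 0 := by rw [hrefl]; exact hzero
  have hgrad' : fderiv ℝ (fun y : ℝ × ℝ => K.h y.1 - y.2) (K.refl x) =
      fderiv ℝ (fun y : ℝ × ℝ => K.h y.1 - y.2) x := by rw [hrefl]
  have hloc' := K.grU_loc' hx
  have hconn : ∀ V ∈ 𝓝 x, ∃ B ∈ 𝓝 x, B ⊆ V ∧ IsPreconnected (B ∩ {y | 0 < K.h y.1 - y.2}) :=
    fun V hV => K.grU_conn V hV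
  refine ⟨2 / √κ, by positivity, ?_⟩
  refine ⟨K.grU_contDiff, K.grU_contDiff, hzero, hzero', ?_, hgrad', hloc, hloc', hconn, ?_, ?_⟩
  · intro h0
    have h1 : fderiv ℝ (fun y : ℝ × ℝ => K.h y.1 - y.2) x (0, 1) = 0 := by rw [h0]; rfl
    rw [hfd] at h1
    simp at h1
  · have h1 := hE2.div hE1 hκ0.ne'
    rw [div_self hκ0.ne'] at h1
    refine h1.congr' ?_
    filter_upwards [hin, hang0] with y hy h0
    obtain ⟨e1, e2⟩ := K.grU_eqs hy
    change K.E (y.1 + K.ang y) (-K.ang y) / K.ang y ^ 2 /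
      (K.E (y.1 + K.ang y) (K.ang y) / K.ang y ^ 2) =
      (K.h (K.refl y).1 - (K.refl y).2) / (K.h y.1 - y.2)
    rw [e1, e2, div_div_div_cancel_right₀]
    positivity
  · rw [hrot]
    have hs : Tendsto (fun y : ℝ × ℝ => (√(K.E (y.1 + K.ang y) (K.ang y) / K.ang y ^ 2))⁻¹) l
        (𝓝 (√κ)⁻¹) :=
      (hE1.sqrt).inv₀ (by positivity)
    have hsin : Tendsto (fun y : ℝ × ℝ => sin (K.ang y) / K.ang y) l (𝓝 1) := by
      have h1 : Tendsto (fun t : ℝ => sin t / t) (𝓝[≠] 0) (𝓝 1) := by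
        have h2 := (hasDerivAt_sin 0).tendsto_slope
        rw [cos_zero] at h2
        refine h2.congr fun t => ?_
        rw [slope_def_field, sin_zero, sub_zero, sub_zero]
      have h3 : Tendsto K.ang l (𝓝[≠] 0) := by
        rw [tendsto_nhdsWithin_iff]
        exact ⟨hangT, hang0.mono fun y hy => hy.ne'⟩
      exact h1.comp h3
    have hd : Tendsto (fun y : ℝ × ℝ => deriv K.h (y.1 + K.ang y)) l (𝓝 (deriv K.h x.1)) :=
      (K.ang_hdc.continuousAt (x := x.1)).tendsto.comp hψT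
    have hcomb : Tendsto (fun y : ℝ × ℝ =>
        ((√(K.E (y.1 + K.ang y) (K.ang y) / K.ang y ^ 2))⁻¹ * 2,
          (√(K.E (y.1 + K.ang y) (K.ang y) / K.ang y ^ 2))⁻¹ * (2 * deriv K.h (y.1 + K.ang y) *
            (sin (K.ang y) / K.ang y)))) l
        (𝓝 ((√κ)⁻¹ * 2, (√κ)⁻¹ * (2 * deriv K.h x.1 * 1))) :=
      (hs.mul tendsto_const_nhds).prodMk_nhds (hs.mul ((hd.const_mul 2).mul hsin))
    have e3 : (2 / √κ) • ((1 : ℝ), deriv K.h x.1) =
        ((√κ)⁻¹ * 2, (√κ)⁻¹ * (2 * deriv K.h x.1 * 1)) := by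
      ext
      · change 2 / √κ * 1 = (√κ)⁻¹ * 2
        ring
      · change 2 / √κ * deriv K.h x.1 = (√κ)⁻¹ * (2 * deriv K.h x.1 * 1)
        ring
    rw [e3]
    refine hcomb.congr' ?_
    filter_upwards [hin, hang0] with y hy h0
    obtain ⟨e1, _⟩ := K.grU_eqs hy
    have hs2 : √(K.h y.1 - y.2) =
        √(K.E (y.1 + K.ang y) (K.ang y) / K.ang y ^ 2) * K.ang y := by
      rw [e1]
      conv_rhs => rw [← Real.sqrt_sq h0.le]
      rw [← Real.sqrt_mul' _ (sq_nonneg _), Real.sqrt_sq h0.le, div_mul_cancel₀]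
      positivity
    have hF : K.refl y - K.refl x - (y - x) =
        (2 * K.ang y, 2 * deriv K.h (y.1 + K.ang y) * sin (K.ang y)) := by
      rw [hrefl]
      ext
      · change y.1 + 2 * K.ang y - x.1 - (y.1 - x.1) = 2 * K.ang y
        ring
      · change y.2 + 2 * deriv K.h (y.1 + K.ang y) * sin (K.ang y) - x.2 - (y.2 - x.2) = _
        ring
    rw [hs2, hF]
    have hne : K.ang y ≠ 0 := h0.ne'
    ext
    · change (√(K.E (y.1 + K.ang y) (K.ang y) / K.ang y ^ 2))⁻¹ * 2 =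
        (√(K.E (y.1 + K.ang y) (K.ang y) / K.ang y ^ 2) * K.ang y)⁻¹ * (2 * K.ang y)
      rw [mul_inv]
      field_simp
    · change (√(K.E (y.1 + K.ang y) (K.ang y) / K.ang y ^ 2))⁻¹ *
          (2 * deriv K.h (y.1 + K.ang y) * (sin (K.ang y) / K.ang y)) =
        (√(K.E (y.1 + K.ang y) (K.ang y) / K.ang y ^ 2) * K.ang y)⁻¹ *
          (2 * deriv K.h (y.1 + K.ang y) * sin (K.ang y))
      rw [mul_inv]
      field_simp

end Supp

end Pool.Agent.H6.Fo
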