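import Pool.Agent.H6.Fo.Defs

/-!
JOB FO-8. Linear algebra and comparison of two defining functions.

`rot_comp`: 2×2 identity; write `A (1,0) = (a, c)`, `A (0,1) = (b, d)`, `det A = a d - b c = 1`, `ℓ (x, y) = p x + q y`.
`ratio_lemma`: (i) near `x`: `u y = 0 → v y = 0` (the gradient of `u` is not zero at `y`, so `y` is a limit of points with `u > 0`, hence `v > 0`, and a limit of points with
`u < 0`, hence `v ≤ 0`). (ii) Let `e` be any vector with `du(x) e > 0`. For `y` near `x` with `u y > 0` there is a small `t > 0` with `u (y - t e) = 0` (intermediate value theorem: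
`u` decreases along `-e` with speed about `du(x) e`), so `v (y - t e) = 0`, and by the mean value theorem
`u y = t du(ξ) e`, `v y = t dv(ξ') e` with `ξ, ξ' → x`; so `v y / u y → dv(x) e / du(x) e`. (iii) The limit does not depend on `e`, so `dv(x) = ρ du(x)`; `ρ ≥ 0` because `v / u > 0`, and `ρ ≠ 0`
because `dv(x) ≠ 0`. (The filter `𝓝[{0 < u}] x` is not trivial.)
-/

set_option autoImplicit false

namespace Pool.Agent.H6.Fo

open Real Set Filter Topology

theorem lin_det (A : (ℝ × ℝ) →L[ℝ] (ℝ × ℝ)) :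
    A.det = (A (1, 0)).1 * (A (0, 1)).2 - (A (0, 1)).1 * (A (1, 0)).2 := by
  change LinearMap.det (A : (ℝ × ℝ) →ₗ[ℝ] (ℝ × ℝ)) = _
  rw [← LinearMap.det_toMatrix (Module.Basis.finTwoProd ℝ), Matrix.det_fin_two]
  simp [LinearMap.toMatrix_apply]

theorem lin_apply (A : (ℝ × ℝ) →L[ℝ] (ℝ × ℝ)) (a b : ℝ) :
    A (a, b) = a • A (1, 0) + b • A (0, 1) := by
  rw [← map_smul, ← map_smul, ← map_add]
  simp

theorem lin_apply' (ℓ : (ℝ × ℝ) →L[ℝ] ℝ) (a b : ℝ) :
    ℓ (a, b) = a * ℓ (1, 0) + b * ℓ (0, 1) := by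
  rw [← smul_eq_mul, ← smul_eq_mul, ← map_smul, ← map_smul, ← map_add]
  simp

theorem rot_comp (A : (ℝ × ℝ) →L[ℝ] (ℝ × ℝ)) (hA : A.det = 1) (ℓ : (ℝ × ℝ) →L[ℝ] ℝ) :
    A (rot (ℓ.comp A)) = rot ℓ := by
  rw [lin_det] at hA
  unfold rot
  rw [lin_apply]
  obtain ⟨a, c, hac⟩ : ∃ a c, A (1, 0) = (a, c) := ⟨_, _, rfl⟩
  obtain ⟨b, d, hbd⟩ : ∃ b d, A (0, 1) = (b, d) := ⟨_, _, rfl⟩
  rw [hac, hbd] at hA
  simp only at hA
  simp only [ContinuousLinearMap.comp_apply, hac, hbd]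
  rw [lin_apply' ℓ a c, lin_apply' ℓ b d]
  ext
  · simp only [Prod.smul_mk, Prod.mk_add_mk, smul_eq_mul]
    linear_combination (-ℓ (0, 1)) * hA
  · simp only [Prod.smul_mk, Prod.mk_add_mk, smul_eq_mul]
    linear_combination (ℓ (1, 0)) * hA

theorem rot_ne_zero {ℓ : (ℝ × ℝ) →L[ℝ] ℝ} (h : ℓ ≠ 0) : rot ℓ ≠ 0 := by
  intro h1
  apply h
  unfold rot at h1
  rw [Prod.mk_eq_zero] at h1
  ext
  · simpa using h1.2
  · simpa using h1.1

theorem rot_smul (c : ℝ) (ℓ : (ℝ × ℝ) →L[ℝ] ℝ) : rot (c • ℓ) = c • rot ℓ := by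
  unfold rot
  simp

theorem comp_ne_zero (A : (ℝ × ℝ) →L[ℝ] (ℝ × ℝ)) (hA : A.det = 1) {ℓ : (ℝ × ℝ) →L[ℝ] ℝ}
    (h : ℓ ≠ 0) : ℓ.comp A ≠ 0 := by
  intro h1
  have h2 := rot_comp A hA ℓ
  rw [h1] at h2
  have h3 : rot (0 : (ℝ × ℝ) →L[ℝ] ℝ) = 0 := by simp [rot]
  rw [h3, map_zero] at h2
  exact rot_ne_zero h h2.symm

/-- strict differentiability with an explicit ball -/
theorem lin_strict {u : ℝ × ℝ → ℝ} {x : ℝ × ℝ} (hu : ContDiffAt ℝ 1 u x) {ε : ℝ} (hε : 0 < ε) :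
    ∃ δ > 0, ∀ y ∈ Metric.ball x δ, ∀ z ∈ Metric.ball x δ,
      |u y - u z - fderiv ℝ u x (y - z)| ≤ ε * ‖y - z‖ := by
  have h1 := (hu.hasStrictFDerivAt (by simp)).isLittleO.def hε
  rw [nhds_prod_eq] at h1
  obtain ⟨δ, hδ, h2⟩ := (Metric.nhds_basis_ball.prod_self.eventually_iff).1 h1
  exact ⟨δ, hδ, fun y hy z hz => h2 (x := (y, z)) ⟨hy, hz⟩⟩

/-- a zero of `u` near `x` is a zero of `v` -/
theorem lin_zero {u v : ℝ × ℝ → ℝ} {x : ℝ × ℝ} (hu : ContDiffAt ℝ 1 u x)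
    (hv : ContDiffAt ℝ 1 v x) (e : ℝ × ℝ) (he : 0 < fderiv ℝ u x e)
    (h : ∀ᶠ y in 𝓝 x, (0 < u y ↔ 0 < v y)) : ∀ᶠ y in 𝓝 x, (u y = 0 → v y = 0) := by
  have hen : 0 < ‖e‖ := by
    rw [norm_pos_iff]
    rintro rfl
    simp at he
  obtain ⟨δ, hδ, hs⟩ := lin_strict hu (ε := fderiv ℝ u x e / (2 * ‖e‖)) (by positivity)
  obtain ⟨δ', hδ', hs'⟩ := Metric.eventually_nhds_iff_ball.1 h
  have hc : ∀ᶠ y in 𝓝 x, ContDiffAt ℝ 1 v y := hv.eventually (by simp)
  filter_upwards [hc, Metric.ball_mem_nhds x hδ, Metric.ball_mem_nhds x hδ'] with y hy hy1 hy2 h0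
  -- the line through `y`
  have hline : Continuous fun s : ℝ => y + s • e := by fun_prop
  have hl0 : y + (0 : ℝ) • e = y := by simp
  have hvc : Tendsto (fun s : ℝ => v (y + s • e)) (𝓝 0) (𝓝 (v y)) := by
    have h1 : ContinuousAt v (y + (0 : ℝ) • e) := by rw [hl0]; exact hy.continuousAt
    have h2 := ContinuousAt.comp (f := fun s : ℝ => y + s • e) (x := 0) h1 hline.continuousAt
    have h3 : Tendsto (v ∘ fun s : ℝ => y + s • e) (𝓝 0) (𝓝 (v (y + (0 : ℝ) • e))) := h2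
    rwa [hl0] at h3
  have hb1 : ∀ᶠ s : ℝ in 𝓝 0, y + s • e ∈ Metric.ball x δ := by
    apply hline.continuousAt.eventually
    show ∀ᶠ z in 𝓝 (y + (0 : ℝ) • e), z ∈ Metric.ball x δ
    rw [hl0]
    exact Metric.isOpen_ball.mem_nhds hy1
  have hb2 : ∀ᶠ s : ℝ in 𝓝 0, y + s • e ∈ Metric.ball x δ' := by
    apply hline.continuousAt.eventually
    show ∀ᶠ z in 𝓝 (y + (0 : ℝ) • e), z ∈ Metric.ball x δ'
    rw [hl0]
    exact Metric.isOpen_ball.mem_nhds hy2
  have key : ∀ s : ℝ, y + s • e ∈ Metric.ball x δ →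
      |u (y + s • e) - s * fderiv ℝ u x e| ≤ |s| * (fderiv ℝ u x e / 2) := by
    intro s hs1
    have h1 := hs _ hs1 y hy1
    rw [h0, add_sub_cancel_left, map_smul, norm_smul, smul_eq_mul, sub_zero, Real.norm_eq_abs] at h1
    refine h1.trans (le_of_eq ?_)
    field_simp
  apply le_antisymm
  · have h1 : Tendsto (fun s : ℝ => v (y + s • e)) (𝓝[<] 0) (𝓝 (v y)) :=
      hvc.mono_left nhdsWithin_le_nhds
    refine le_of_tendsto h1 ?_
    filter_upwards [hb1.filter_mono nhdsWithin_le_nhds, hb2.filter_mono nhdsWithin_le_nhds,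
      self_mem_nhdsWithin] with s h3 h4 h5
    have h5' : s < 0 := h5
    have h6 := key s h3
    rw [abs_of_neg h5', abs_le] at h6
    have h7 : u (y + s • e) < 0 := by nlinarith [h6.2]
    by_contra h8
    push Not at h8
    have := (hs' _ h4).2 h8
    linarith
  · have h1 : Tendsto (fun s : ℝ => v (y + s • e)) (𝓝[>] 0) (𝓝 (v y)) :=
      hvc.mono_left nhdsWithin_le_nhds
    refine ge_of_tendsto h1 ?_
    filter_upwards [hb1.filter_mono nhdsWithin_le_nhds, hb2.filter_mono nhdsWithin_le_nhds,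
      self_mem_nhdsWithin] with s h3 h4 h5
    have h5' : 0 < s := h5
    have h6 := key s h3
    rw [abs_of_pos h5', abs_le] at h6
    have h7 : 0 < u (y + s • e) := by nlinarith [h6.1]
    exact ((hs' _ h4).1 h7).le

/-- the quotient has a limit -/
theorem lin_tendsto {u v : ℝ × ℝ → ℝ} {x : ℝ × ℝ} (hu : ContDiffAt ℝ 1 u x)
    (hv : ContDiffAt ℝ 1 v x) (hu0 : u x = 0) (e : ℝ × ℝ) (he : 0 < fderiv ℝ u x e)
    (h : ∀ᶠ y in 𝓝 x, (0 < u y ↔ 0 < v y)) :
    Tendsto (fun y => v y / u y) (𝓝[{y | 0 < u y}] x)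
      (𝓝 (fderiv ℝ v x e / fderiv ℝ u x e)) := by
  have hen : 0 < ‖e‖ := by
    rw [norm_pos_iff]
    rintro rfl
    simp at he
  set c := fderiv ℝ u x e with hc
  set m := fderiv ℝ v x e with hm
  rw [Metric.tendsto_nhds]
  intro η hη
  -- choice of `ε`
  set ε : ℝ := min (c / (2 * ‖e‖)) (η * c * c / (4 * ‖e‖ * (c + |m|))) with hε
  have hcm : 0 < c + |m| := by positivity
  have hε0 : 0 < ε := lt_min (by positivity) (by positivity)
  have hε1 : ε * ‖e‖ ≤ c / 2 := by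
    have h1 : ε ≤ c / (2 * ‖e‖) := min_le_left _ _
    calc ε * ‖e‖ ≤ c / (2 * ‖e‖) * ‖e‖ := by gcongr
      _ = c / 2 := by field_simp
  have hε2 : ε * ‖e‖ * (c + |m|) ≤ η * c * c / 4 := by
    have h1 : ε ≤ η * c * c / (4 * ‖e‖ * (c + |m|)) := min_le_right _ _
    calc ε * ‖e‖ * (c + |m|) ≤ η * c * c / (4 * ‖e‖ * (c + |m|)) * ‖e‖ * (c + |m|) := by gcongr
      _ = η * c * c / 4 := by field_simp
  obtain ⟨δ₁, hδ₁, hs1⟩ := lin_strict hu hε0
  obtain ⟨δ₂, hδ₂, hs2⟩ := lin_strict hv hε0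
  obtain ⟨δ₃, hδ₃, hs3⟩ := Metric.eventually_nhds_iff_ball.1 (lin_zero hu hv e he h)
  have hcu : ∀ᶠ y in 𝓝 x, ContDiffAt ℝ 1 u y := hu.eventually (by simp)
  obtain ⟨δ₄, hδ₄, hs4⟩ := Metric.eventually_nhds_iff_ball.1 hcu
  set δ := min (min δ₁ δ₂) (min δ₃ δ₄) with hδdef
  have hδ : 0 < δ := lt_min (lt_min hδ₁ hδ₂) (lt_min hδ₃ hδ₄)
  have hb1 : Metric.ball x δ ⊆ Metric.ball x δ₁ :=
    Metric.ball_subset_ball ((min_le_left _ _).trans (min_le_left _ _))
  have hb2 : Metric.ball x δ ⊆ Metric.ball x δ₂ :=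
    Metric.ball_subset_ball ((min_le_left _ _).trans (min_le_right _ _))
  have hb3 : Metric.ball x δ ⊆ Metric.ball x δ₃ :=
    Metric.ball_subset_ball ((min_le_right _ _).trans (min_le_left _ _))
  have hb4 : Metric.ball x δ ⊆ Metric.ball x δ₄ :=
    Metric.ball_subset_ball ((min_le_right _ _).trans (min_le_right _ _))
  have hev : ∀ᶠ y in 𝓝 x, ‖y - x‖ + (4 * u y / c) * ‖e‖ < δ := by
    have hcont : ContinuousAt (fun y => ‖y - x‖ + (4 * u y / c) * ‖e‖) x := by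
      have := hu.continuousAt
      fun_prop
    apply hcont.eventually_lt continuousAt_const
    simp [hu0, hδ]
  filter_upwards [hev.filter_mono nhdsWithin_le_nhds, self_mem_nhdsWithin] with y hy hy0
  have huy : 0 < u y := hy0
  set t₁ := 4 * u y / c with ht₁
  have ht₁0 : 0 < t₁ := by positivity
  have hseg : ∀ s ∈ Icc 0 t₁, y - s • e ∈ Metric.ball x δ := by
    intro s hs
    rw [Metric.mem_ball, dist_eq_norm]
    calc ‖y - s • e - x‖ = ‖(y - x) - s • e‖ := by congr 1; abel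
      _ ≤ ‖y - x‖ + ‖s • e‖ := norm_sub_le _ _
      _ = ‖y - x‖ + s * ‖e‖ := by rw [norm_smul, Real.norm_eq_abs, abs_of_nonneg hs.1]
      _ ≤ ‖y - x‖ + t₁ * ‖e‖ := by gcongr; exact hs.2
      _ < δ := hy
  have hyb : y ∈ Metric.ball x δ := by
    have := hseg 0 ⟨le_rfl, ht₁0.le⟩
    simpa using this
  have key1 : ∀ s ∈ Icc 0 t₁, |u y - u (y - s • e) - s * c| ≤ ε * (s * ‖e‖) := by
    intro s hs
    have h1 := hs1 y (hb1 hyb) (y - s • e) (hb1 (hseg s hs))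
    rw [sub_sub_cancel, map_smul, norm_smul, smul_eq_mul, Real.norm_eq_abs,
      abs_of_nonneg hs.1] at h1
    exact h1
  have key2 : ∀ s ∈ Icc 0 t₁, |v y - v (y - s • e) - s * m| ≤ ε * (s * ‖e‖) := by
    intro s hs
    have h1 := hs2 y (hb2 hyb) (y - s • e) (hb2 (hseg s hs))
    rw [sub_sub_cancel, map_smul, norm_smul, smul_eq_mul, Real.norm_eq_abs,
      abs_of_nonneg hs.1] at h1
    exact h1
  have hend : u (y - t₁ • e) < 0 := by
    have h1 := (abs_le.1 (key1 t₁ ⟨ht₁0.le, le_rfl⟩)).1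
    have h2 : ε * (t₁ * ‖e‖) ≤ t₁ * (c / 2) := by
      calc ε * (t₁ * ‖e‖) = t₁ * (ε * ‖e‖) := by ring
        _ ≤ t₁ * (c / 2) := by gcongr
    have h3 : t₁ * c = 4 * u y := by
      rw [ht₁]; field_simp
    linarith
  have hcont : ContinuousOn (fun s : ℝ => u (y - s • e)) (Icc 0 t₁) := by
    intro s hs
    have h1 : ContinuousAt u (y - s • e) := (hs4 _ (hb4 (hseg s hs))).continuousAt
    exact (ContinuousAt.comp (f := fun s : ℝ => y - s • e) h1
      (by fun_prop)).continuousWithinAt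
  have h0mem : (0 : ℝ) ∈ Icc (u (y - t₁ • e)) (u (y - (0 : ℝ) • e)) := by
    refine ⟨hend.le, ?_⟩
    simpa using huy.le
  obtain ⟨t, ht, htu⟩ := intermediate_value_Icc' ht₁0.le hcont h0mem
  have htu' : u (y - t • e) = 0 := htu
  have ht0 : 0 < t := by
    rcases eq_or_lt_of_le ht.1 with h1 | h1
    · rw [← h1] at htu'
      simp only [zero_smul, sub_zero] at htu'
      linarith
    · exact h1
  have htv : v (y - t • e) = 0 := hs3 _ (hb3 (hseg t ht)) htu'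
  have k1 := key1 t ht
  have k2 := key2 t ht
  rw [htu', sub_zero] at k1
  rw [htv, sub_zero] at k2
  have hε3 : ε * (t * ‖e‖) ≤ t * (c / 2) := by
    calc ε * (t * ‖e‖) = t * (ε * ‖e‖) := by ring
      _ ≤ t * (c / 2) := by gcongr
  have hlow : t * (c / 2) ≤ u y := by
    have := (abs_le.1 k1).1
    linarith
  have hnum : |v y * c - u y * m| ≤ t * (η * c * c / 4) := by
    have h1 : v y * c - u y * m = (v y - t * m) * c - (u y - t * c) * m := by ring
    rw [h1]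
    calc |(v y - t * m) * c - (u y - t * c) * m|
        ≤ |(v y - t * m) * c| + |(u y - t * c) * m| := abs_sub _ _
      _ = |v y - t * m| * c + |u y - t * c| * |m| := by
          rw [abs_mul, abs_mul, abs_of_pos he]
      _ ≤ (ε * (t * ‖e‖)) * c + (ε * (t * ‖e‖)) * |m| := by gcongr
      _ = t * (ε * ‖e‖ * (c + |m|)) := by ring
      _ ≤ t * (η * c * c / 4) := by gcongr
  rw [Real.dist_eq, div_sub_div _ _ huy.ne' he.ne', abs_div, abs_of_pos (mul_pos huy he),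
    div_lt_iff₀ (mul_pos huy he)]
  calc |v y * c - u y * m| ≤ t * (η * c * c / 4) := hnum
    _ = η * (t * (c / 2)) * c / 2 := by ring
    _ ≤ η * (u y) * c / 2 := by gcongr
    _ < η * (u y * c) := by
        have : 0 < η * (u y * c) := by positivity
        linarith

theorem ratio_lemma {u v : ℝ × ℝ → ℝ} {x : ℝ × ℝ} (hu : ContDiffAt ℝ 1 u x)
    (hv : ContDiffAt ℝ 1 v x) (hu0 : u x = 0) (hv0 : v x = 0) (hu1 : fderiv ℝ u x ≠ 0)
    (hv1 : fderiv ℝ v x ≠ 0) (h : ∀ᶠ y in 𝓝 x, (0 < u y ↔ 0 < v y)) :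
    ∃ ρ : ℝ, 0 < ρ ∧ fderiv ℝ v x = ρ • fderiv ℝ u x ∧
      Tendsto (fun y => v y / u y) (𝓝[{y | 0 < u y}] x) (𝓝 ρ) := by
  obtain ⟨e, he⟩ : ∃ e, 0 < fderiv ℝ u x e := by
    obtain ⟨e, he⟩ : ∃ e, fderiv ℝ u x e ≠ 0 := by
      by_contra h1
      push Not at h1
      exact hu1 (ContinuousLinearMap.ext h1)
    rcases lt_or_gt_of_ne he with h1 | h1
    · exact ⟨-e, by rw [map_neg]; linarith⟩
    · exact ⟨e, h1⟩
  have hne : (𝓝[{y | 0 < u y}] x).NeBot := by
    rw [← mem_closure_iff_nhdsWithin_neBot, Metric.mem_closure_iff]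
    intro η hη
    have hen : 0 < ‖e‖ := by
      rw [norm_pos_iff]
      rintro rfl
      simp at he
    obtain ⟨δ, hδ, hs⟩ := lin_strict hu (ε := fderiv ℝ u x e / (2 * ‖e‖)) (by positivity)
    set s : ℝ := min δ η / (2 * ‖e‖) with hsdef
    have hs0 : 0 < s := by positivity
    have hsn : s * ‖e‖ = min δ η / 2 := by rw [hsdef]; field_simp
    have hb : x + s • e ∈ Metric.ball x δ := by
      rw [Metric.mem_ball, dist_eq_norm, add_sub_cancel_left, norm_smul, Real.norm_eq_abs,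
        abs_of_pos hs0, hsn]
      have := min_le_left δ η
      linarith
    refine ⟨x + s • e, ?_, ?_⟩
    · have h1 := hs _ hb x (Metric.mem_ball_self hδ)
      rw [hu0, add_sub_cancel_left, map_smul, norm_smul, smul_eq_mul, sub_zero, Real.norm_eq_abs,
        abs_of_pos hs0] at h1
      have h2 : fderiv ℝ u x e / (2 * ‖e‖) * (s * ‖e‖) = s * (fderiv ℝ u x e / 2) := by
        field_simp
      rw [h2, abs_le] at h1
      show 0 < u (x + s • e)
      nlinarith [h1.1]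
    · rw [dist_comm, dist_eq_norm, add_sub_cancel_left, norm_smul, Real.norm_eq_abs,
        abs_of_pos hs0, hsn]
      have := min_le_right δ η
      linarith
  have hT := lin_tendsto hu hv hu0 e he h
  set ρ := fderiv ℝ v x e / fderiv ℝ u x e with hρ
  have hall : ∀ f, 0 < fderiv ℝ u x f → fderiv ℝ v x f = ρ * fderiv ℝ u x f := by
    intro f hf
    have h1 := tendsto_nhds_unique hT (lin_tendsto hu hv hu0 f hf h)
    rw [hρ] at h1 ⊢
    rw [h1]
    field_simp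
  have heq : fderiv ℝ v x = ρ • fderiv ℝ u x := by
    refine ContinuousLinearMap.ext fun f => ?_
    show fderiv ℝ v x f = ρ * fderiv ℝ u x f
    rcases lt_trichotomy (fderiv ℝ u x f) 0 with h1 | h1 | h1
    · have h2 := hall (-f) (by rw [map_neg]; linarith)
      rw [map_neg, map_neg] at h2
      linarith
    · have h2 := hall (f + e) (by rw [map_add, h1]; linarith)
      have h3 := hall e he
      rw [map_add, map_add, h1, h3] at h2
      rw [h1]
      linarith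
    · exact hall f h1
  refine ⟨ρ, ?_, heq, hT⟩
  have hρ0 : 0 ≤ ρ := by
    refine ge_of_tendsto hT ?_
    filter_upwards [h.filter_mono nhdsWithin_le_nhds, self_mem_nhdsWithin] with y h1 h2
    exact (div_pos (h1.1 h2) h2).le
  rcases eq_or_lt_of_le hρ0 with h1 | h1
  · exfalso
    apply hv1
    rw [heq, ← h1, zero_smul]
  · exact h1

end Pool.Agent.H6.Fo
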