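import Pool.Agent.H6.Fo.Defs

/-!
JOB FO-11. Zeros of analytic functions on the plane of lines, seen in the coordinates (position on an arc, direction).

`lin γ (s, θ)` is the line through `γ s` with direction `(cos θ, sin θ)`. Let `Z` be the set of the statement; it is measurable (`D` is open, `f` is continuous on `D`, `γ` and `deriv γ` are continuous).
Suppose `Z` is not null. By Fubini (`MeasureTheory.Measure.measure_prod_null` for the swapped product) the set of `θ` with `{s | (s, θ) ∈ Z}` not null is not null, so uncountable.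
(1) Fix such a `θ`, `φ = θ - π/2`. The set `A = {s | (s, θ) ∈ Z}` is uncountable, so some `s₀ ∈ A` is an accumulation point of `A` (a subset of `ℝ` without such a point is discrete, hence countable).
The map `s ↦ (lin γ (s, θ)).2` has derivative `γ'₁ sin θ - γ'₂ cos θ ≠ 0` at `s₀`, so `p₀ = (lin γ (s₀, θ)).2` is an accumulation point of the zeros of `p ↦ f (φ, p)`, and `(φ, p₀) ∈ D`. By the identity theorem in one
variable (`AnalyticAt.eventually_eq_zero_or_eventually_ne_zero`, composition of `f` with `p ↦ (φ, p)`) `f (φ, p) = 0` for `p` near `p₀`: there are rationals `r₁ < r₂` with `{φ} × [r₁, r₂] ⊆ D` and `f = 0` on it.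
(2) There are countably many pairs of rationals, so one pair works for uncountably many `φ`; this set `Φ'` has an accumulation point `φ₀ ∈ Φ'`. By compactness of `[r₁, r₂]` there is `ε` with
`(φ₀-ε, φ₀+ε) × [r₁, r₂] ⊆ D`. For `p ∈ [r₁, r₂]` the function `φ ↦ f (φ, p)` is analytic on `(φ₀-ε, φ₀+ε)` and vanishes on a set accumulating at `φ₀`, so it vanishes on the whole interval
(`AnalyticOnNhd.eqOn_zero_of_preconnected_of_frequently_eq_zero`). So `f = 0` near `(φ₀, (r₁+r₂)/2)`, contradiction to `hno`.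
-/

set_option autoImplicit false

namespace Pool.Agent.H6.Fo

open Real Set Filter Topology MeasureTheory

/-- the line through `γ s` with direction `(cos θ, sin θ)`, `q = (s, θ)` -/
noncomputable def lin (γ : ℝ → ℝ × ℝ) (q : ℝ × ℝ) : ℝ × ℝ :=
  (q.2 - π / 2, (γ q.1).1 * sin q.2 - (γ q.1).2 * cos q.2)


theorem fo11_countable_of_isolated {s : Set ℝ} (h : ∀ x ∈ s, ∀ᶠ y in 𝓝[≠] x, y ∉ s) :
    s.Countable := by
  have hd : DiscreteTopology s := by
    rw [discreteTopology_subtype_iff]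
    intro x hx
    rw [Filter.inf_principal_eq_bot]
    exact h x hx
  have : Countable s := countable_of_Lindelof_of_discrete
  exact this.to_set

/-- the directions `φ` for which `f (φ, ·)` vanishes identically near some point -/
theorem fo11_bad_countable (D : Set (ℝ × ℝ)) (hD : IsOpen D)
    (f : ℝ × ℝ → ℝ × ℝ) (hf : ∀ x ∈ D, AnalyticAt ℝ f x)
    (hno : ∀ x ∈ D, ¬ ∀ᶠ y in 𝓝 x, f y = 0) :
    {φ : ℝ | ∃ p, (φ, p) ∈ D ∧ ∀ᶠ p' in 𝓝 p, f (φ, p') = 0}.Countable := by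
  set Φ : ℚ × ℚ → Set ℝ := fun r => {φ : ℝ | (r.1 : ℝ) < r.2 ∧
    ∀ p ∈ Icc (r.1 : ℝ) r.2, (φ, p) ∈ D ∧ f (φ, p) = 0} with hΦ
  have hsub : {φ : ℝ | ∃ p, (φ, p) ∈ D ∧ ∀ᶠ p' in 𝓝 p, f (φ, p') = 0} ⊆ ⋃ r, Φ r := by
    rintro φ ⟨p, hpD, hp⟩
    have h1 : ∀ᶠ p' in 𝓝 p, (φ, p') ∈ D :=
      (continuous_const.prodMk continuous_id).continuousAt.eventually_mem (hD.mem_nhds hpD)
    obtain ⟨ε, hε, hball⟩ := Metric.eventually_nhds_iff.mp (h1.and hp)
    obtain ⟨r1, hr1, hr1'⟩ := exists_rat_btwn (by linarith : p - ε < p)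
    obtain ⟨r2, hr2, hr2'⟩ := exists_rat_btwn (by linarith : p < p + ε)
    refine mem_iUnion.mpr ⟨(r1, r2), ?_⟩
    refine ⟨by simpa using (hr1'.trans hr2), fun p' hp' => ?_⟩
    refine hball ?_
    have h2 : (r1 : ℝ) ≤ p' := hp'.1
    have h3 : p' ≤ (r2 : ℝ) := hp'.2
    rw [Real.dist_eq, abs_lt]
    constructor <;> linarith
  refine Set.Countable.mono hsub (countable_iUnion (fun r => ?_))
  refine fo11_countable_of_isolated (fun φ₀ hφ₀ => ?_)
  by_contra hcon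
  have hfreq : ∃ᶠ φ in 𝓝[≠] φ₀, φ ∈ Φ r := hcon
  have hK : ({φ₀} : Set ℝ) ×ˢ Icc (r.1 : ℝ) r.2 ⊆ D := by
    rintro ⟨a, b⟩ ⟨ha, hb⟩
    rw [mem_singleton_iff] at ha
    simp only at ha
    rw [ha]
    exact (hφ₀.2 b hb).1
  obtain ⟨u, v, hu, _, hsu, htv, huv⟩ :=
    generalized_tube_lemma isCompact_singleton isCompact_Icc hD hK
  obtain ⟨ε, hε, hball⟩ := Metric.isOpen_iff.mp hu φ₀ (hsu rfl)
  have hzero : ∀ p ∈ Icc (r.1 : ℝ) r.2, ∀ φ ∈ Metric.ball φ₀ ε, f (φ, p) = 0 := by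
    intro p hp
    have han : AnalyticOnNhd ℝ (fun φ : ℝ => f (φ, p)) (Metric.ball φ₀ ε) := by
      intro φ hφ
      have h1 : AnalyticAt ℝ f (φ, p) := hf _ (huv ⟨hball hφ, htv hp⟩)
      exact AnalyticAt.fun_comp (f := fun φ : ℝ => (φ, p)) h1 (analyticAt_id.prod analyticAt_const)
    have hfr : ∃ᶠ φ in 𝓝[≠] φ₀, (fun φ : ℝ => f (φ, p)) φ = 0 :=
      hfreq.mono (fun φ hφ => (hφ.2 p hp).2)
    exact han.eqOn_zero_of_preconnected_of_frequently_eq_zero
      (Metric.isConnected_ball hε).isPreconnected (Metric.mem_ball_self hε) hfr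
  have hr : (r.1 : ℝ) < r.2 := hφ₀.1
  set m : ℝ := ((r.1 : ℝ) + r.2) / 2 with hm
  have hmm : m ∈ Ioo (r.1 : ℝ) r.2 := ⟨by rw [hm]; linarith, by rw [hm]; linarith⟩
  apply hno (φ₀, m) (hφ₀.2 m ⟨hmm.1.le, hmm.2.le⟩).1
  have h1 : ∀ᶠ y : ℝ × ℝ in 𝓝 (φ₀, m), y.1 ∈ Metric.ball φ₀ ε :=
    continuous_fst.continuousAt.eventually_mem (Metric.ball_mem_nhds _ hε)
  have h2 : ∀ᶠ y : ℝ × ℝ in 𝓝 (φ₀, m), y.2 ∈ Ioo (r.1 : ℝ) r.2 :=
    continuous_snd.continuousAt.eventually_mem (isOpen_Ioo.mem_nhds hmm)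
  filter_upwards [h1, h2] with y hy1 hy2
  exact hzero y.2 ⟨hy2.1.le, hy2.2.le⟩ y.1 hy1

theorem null_f (γ : ℝ → ℝ × ℝ) (hγ : ContDiff ℝ 1 γ) (D : Set (ℝ × ℝ)) (hD : IsOpen D)
    (f : ℝ × ℝ → ℝ × ℝ) (hf : ∀ x ∈ D, AnalyticAt ℝ f x)
    (hno : ∀ x ∈ D, ¬ ∀ᶠ y in 𝓝 x, f y = 0) :
    volume {q : ℝ × ℝ | q.1 ∈ Ioo (0 : ℝ) 1 ∧ lin γ q ∈ D ∧ f (lin γ q) = 0 ∧
      (deriv γ q.1).1 * sin q.2 - (deriv γ q.1).2 * cos q.2 ≠ 0} = 0 := by
  set Z : Set (ℝ × ℝ) := {q : ℝ × ℝ | q.1 ∈ Ioo (0 : ℝ) 1 ∧ lin γ q ∈ D ∧ f (lin γ q) = 0 ∧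
      (deriv γ q.1).1 * sin q.2 - (deriv γ q.1).2 * cos q.2 ≠ 0} with hZ
  have hγc : Continuous γ := hγ.continuous
  have hγd : Continuous (deriv γ) := hγ.continuous_deriv le_rfl
  have hlin : Continuous (lin γ) := by
    unfold lin
    fun_prop
  -- measurability
  have hmeas : MeasurableSet Z := by
    have h1 : MeasurableSet {q : ℝ × ℝ | q.1 ∈ Ioo (0 : ℝ) 1} :=
      measurableSet_Ioo.preimage measurable_fst
    have hcont : ContinuousOn f D := fun x hx => (hf x hx).continuousAt.continuousWithinAt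
    have h2 : IsOpen (D ∩ f ⁻¹' {0}ᶜ) := hcont.isOpen_inter_preimage hD isOpen_compl_singleton
    have h3 : MeasurableSet (D ∩ f ⁻¹' {0}) := by
      have : D ∩ f ⁻¹' {0} = D \ (D ∩ f ⁻¹' {0}ᶜ) := by
        ext x
        simp only [mem_inter_iff, mem_preimage, mem_singleton_iff, Set.mem_sdiff, mem_compl_iff]
        tauto
      rw [this]
      exact hD.measurableSet.diff h2.measurableSet
    have h4 : MeasurableSet (lin γ ⁻¹' (D ∩ f ⁻¹' {0})) := h3.preimage hlin.measurable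
    have h5 : MeasurableSet {q : ℝ × ℝ |
        (deriv γ q.1).1 * sin q.2 - (deriv γ q.1).2 * cos q.2 ≠ 0} := by
      have hc : Continuous (fun q : ℝ × ℝ =>
        (deriv γ q.1).1 * sin q.2 - (deriv γ q.1).2 * cos q.2) := by fun_prop
      exact (isOpen_ne_fun hc continuous_const).measurableSet
    have : Z = {q : ℝ × ℝ | q.1 ∈ Ioo (0 : ℝ) 1} ∩ (lin γ ⁻¹' (D ∩ f ⁻¹' {0})) ∩
        {q : ℝ × ℝ | (deriv γ q.1).1 * sin q.2 - (deriv γ q.1).2 * cos q.2 ≠ 0} := by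
      ext q
      constructor
      · rintro ⟨a, b, c, d⟩
        exact ⟨⟨a, b, c⟩, d⟩
      · rintro ⟨⟨a, b, c⟩, d⟩
        exact ⟨a, b, c, d⟩
    rw [this]
    exact (h1.inter h4).inter h5
  -- sections
  set B : Set ℝ := {φ : ℝ | ∃ p, (φ, p) ∈ D ∧ ∀ᶠ p' in 𝓝 p, f (φ, p') = 0} with hB
  have hBc : B.Countable := fo11_bad_countable D hD f hf hno
  have hsec : ∀ θ : ℝ, θ - π / 2 ∉ B → {s : ℝ | (s, θ) ∈ Z}.Countable := by
    intro θ hθ
    refine fo11_countable_of_isolated (fun s hs => ?_)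
    obtain ⟨_, hsD, _, hs3⟩ := hs
    set P : ℝ → ℝ := fun s' => (γ s').1 * sin θ - (γ s').2 * cos θ with hP
    have hPd : HasDerivAt P ((deriv γ s).1 * sin θ - (deriv γ s).2 * cos θ) s := by
      have h1 : HasDerivAt γ (deriv γ s) s :=
        (hγ.differentiable one_ne_zero).differentiableAt.hasDerivAt
      have h2 : HasDerivAt (fun s' => (γ s').1) (deriv γ s).1 s := h1.fst
      have h3 : HasDerivAt (fun s' => (γ s').2) (deriv γ s).2 s := h1.snd
      exact (h2.mul_const _).sub (h3.mul_const _)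
    have hlins : ∀ s', lin γ (s', θ) = (θ - π / 2, P s') := fun s' => rfl
    rw [hlins] at hsD
    have han : AnalyticAt ℝ (fun p : ℝ => f (θ - π / 2, p)) (P s) := by
      have h1 : AnalyticAt ℝ f (θ - π / 2, P s) := hf _ hsD
      exact AnalyticAt.fun_comp (f := fun p : ℝ => (θ - π / 2, p)) h1
        (analyticAt_const.prod analyticAt_id)
    rcases han.eventually_eq_zero_or_eventually_ne_zero with h | h
    · exact absurd ⟨P s, hsD, h⟩ hθ
    · have ht := hPd.tendsto_nhdsNE hs3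
      filter_upwards [ht.eventually h] with s' hs' hmem
      exact hs' (by have := hmem.2.2.1; rwa [hlins] at this)
  have hswap : volume (Prod.swap ⁻¹' Z : Set (ℝ × ℝ)) = volume Z :=
    (Measure.measurePreserving_swap (μ := (volume : Measure ℝ))
      (ν := (volume : Measure ℝ))).measure_preimage hmeas.nullMeasurableSet
  rw [← hswap]
  change (volume.prod volume : Measure (ℝ × ℝ)) (Prod.swap ⁻¹' Z) = 0
  rw [Measure.measure_prod_null (hmeas.preimage measurable_swap)]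
  have hae : ∀ᵐ θ : ℝ, θ ∉ {θ : ℝ | θ - π / 2 ∈ B} := by
    refine Set.Countable.ae_notMem ?_ volume
    have : {θ : ℝ | θ - π / 2 ∈ B} = (fun φ => φ + π / 2) '' B := by
      ext θ
      constructor
      · intro h
        exact ⟨θ - π / 2, h, by ring⟩
      · rintro ⟨φ, hφ, rfl⟩
        show φ + π / 2 - π / 2 ∈ B
        rwa [add_sub_cancel_right]
    rw [this]
    exact hBc.image _
  filter_upwards [hae] with θ hθ
  exact (hsec θ hθ).measure_zero volume

end Pool.Agent.H6.Fo
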