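import Pool.Agent.H6.Fo.ArcGood
import Pool.Agent.H6.Fo.CoreF
import Pool.Agent.H6.Fo.NullF
import Pool.Agent.H6.Fo.BounceF
import Pool.Agent.H6.Ivrii.Main

set_option autoImplicit false

namespace Pool.Agent.H6.Fo

open Real Set Filter Topology MeasureTheory

/-- letters: `inl (μ, m)` reflection in a line, `inr (k, K)` shift by `2πk` and reflection in `K` -/
noncomputable def letters : (ℝ × ℝ) ⊕ (ℤ × Supp) → List ((ℝ × ℝ → ℝ × ℝ) × Set (ℝ × ℝ))
  | Sum.inl μ => [(flatF μ.1 μ.2, univ)]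
  | Sum.inr K => [(fun x => x + (2 * π * K.1, 0), univ), (K.2.refl, K.2.dom)]

theorem letters_good (l : (ℝ × ℝ) ⊕ (ℤ × Supp)) :
    ∀ L ∈ letters l, GoodLetter L.1 L.2 := by
  intro L hL
  rcases l with μ | K
  · simp only [letters, List.mem_singleton] at hL
    rw [hL]
    exact flat_good _ _
  · simp only [letters, List.mem_cons, List.not_mem_nil, or_false] at hL
    rcases hL with rfl | rfl
    · exact shift_good _
    · exact arc_good _

theorem run_append (w w' : List ((ℝ × ℝ → ℝ × ℝ) × Set (ℝ × ℝ))) (x : ℝ × ℝ) :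
    run (w ++ w') x = run w' (run w x) := by
  induction w generalizing x with
  | nil => rfl
  | cons L w ih => exact ih (L.1 x)

theorem wdom_append (w w' : List ((ℝ × ℝ → ℝ × ℝ) × Set (ℝ × ℝ))) (x : ℝ × ℝ) :
    x ∈ wdom (w ++ w') ↔ x ∈ wdom w ∧ run w x ∈ wdom w' := by
  induction w generalizing x with
  | nil => simp [wdom, run]
  | cons L w ih =>
    simp only [List.cons_append, wdom, mem_setOf_eq, run, ih, and_assoc]

/-- the set of starting data of orbits that close up along a word -/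
theorem null_word (γ : ℝ → ℝ × ℝ) (hγ : ContDiff ℝ 1 γ)
    (w : List ((ℝ × ℝ → ℝ × ℝ) × Set (ℝ × ℝ))) (hw : ∀ L ∈ w, GoodLetter L.1 L.2)
    (hne : ∃ L ∈ w, L.2 ≠ univ) (a : ℝ × ℝ) :
    volume {q : ℝ × ℝ | q.1 ∈ Ioo (0 : ℝ) 1 ∧ lin γ q ∈ wdom w ∧ run w (lin γ q) = lin γ q + a ∧
      (deriv γ q.1).1 * sin q.2 - (deriv γ q.1).2 * cos q.2 ≠ 0} = 0 := by
  have h := null_f γ hγ (wdom w) (wdom_isOpen w hw) (fun x => run w x - (x + a))
    (fun x hx => (run_analyticAt w hw x hx).sub (analyticAt_id.add analyticAt_const))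
    (by
      intro x hx hev
      refine coreF w hw hne a x hx ?_
      filter_upwards [hev] with y hy
      exact sub_eq_zero.mp hy)
  convert h using 3
  ext q
  simp [sub_eq_zero]

/-- the arc is straight -/
def Straight (γ : ℝ → ℝ × ℝ) : Prop :=
  ∃ a b c : ℝ, (a, b) ≠ (0, 0) ∧ ∀ s ∈ Icc (0 : ℝ) 1, a * (γ s).1 + b * (γ s).2 = c

theorem reflV_normal (T V : ℝ × ℝ) (hT : T ≠ 0) :
    (reflV T V).1 * (-T.2) + (reflV T V).2 * T.1 = -(V.1 * (-T.2) + V.2 * T.1) := by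
  obtain ⟨a, b⟩ := T
  obtain ⟨x, y⟩ := V
  have h : a ^ 2 + b ^ 2 ≠ 0 := by
    intro h0
    apply hT
    have ha : a = 0 := by nlinarith [sq_nonneg a, sq_nonneg b]
    have hb : b = 0 := by nlinarith [sq_nonneg a, sq_nonneg b]
    rw [ha, hb]; rfl
  simp only [reflV, Prod.fst_sub, Prod.snd_sub, Prod.smul_fst, Prod.smul_snd, smul_eq_mul]
  field_simp
  ring

/-- the data of an arc -/
noncomputable def lett (d : (ℝ × ℝ) ⊕ Supp) (k : ℤ) :
    List ((ℝ × ℝ → ℝ × ℝ) × Set (ℝ × ℝ)) :=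
  match d with
  | Sum.inl μ => letters (Sum.inl μ)
  | Sum.inr K => letters (Sum.inr (k, K))

theorem lett_good (d : (ℝ × ℝ) ⊕ Supp) (k : ℤ) : ∀ L ∈ lett d k, GoodLetter L.1 L.2 := by
  rcases d with μ | K
  · exact letters_good (Sum.inl μ)
  · exact letters_good (Sum.inr (k, K))

/-- one bounce -/
def BounceOK (Y : Set (ℝ × ℝ)) (γ : ℝ → ℝ × ℝ) (d : (ℝ × ℝ) ⊕ Supp) : Prop :=
  ∀ s ∈ Ioo (0 : ℝ) 1, ∀ (P : ℝ × ℝ) (t φ : ℝ), 0 < t →
    γ s = P + t • (-sin φ, cos φ) → (∀ τ ∈ Ioo (0 : ℝ) t, P + τ • (-sin φ, cos φ) ∈ Y) →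
    (-sin φ) * (-(deriv γ s).2) + cos φ * (deriv γ s).1 ≠ 0 →
    ∃ k : ℤ, (φ, P.1 * cos φ + P.2 * sin φ) ∈ wdom (lett d k) ∧
      reflV (deriv γ s) (-sin φ, cos φ) =
        (-sin (run (lett d k) (φ, P.1 * cos φ + P.2 * sin φ)).1,
          cos (run (lett d k) (φ, P.1 * cos φ + P.2 * sin φ)).1) ∧
      (γ s).1 * cos (run (lett d k) (φ, P.1 * cos φ + P.2 * sin φ)).1 +
        (γ s).2 * sin (run (lett d k) (φ, P.1 * cos φ + P.2 * sin φ)).1 =
        (run (lett d k) (φ, P.1 * cos φ + P.2 * sin φ)).2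

theorem bounceOK_flat (Y : Set (ℝ × ℝ)) (γ : ℝ → ℝ × ℝ) (hd : Differentiable ℝ γ)
    (hreg : ∀ s ∈ Icc (0 : ℝ) 1, deriv γ s ≠ 0) (h : Straight γ) :
    ∃ μ : ℝ × ℝ, BounceOK Y γ (Sum.inl μ) := by
  obtain ⟨a, b, c, hab, hline⟩ := h
  obtain ⟨μ, m, h⟩ := bounce_flat γ hd hab hline
  refine ⟨(μ, m), ?_⟩
  intro s hs P t φ _ hP _ _
  obtain ⟨h1, h2⟩ := h s hs (hreg s (Ioo_subset_Icc_self hs)) P t φ hP
  exact ⟨0, ⟨trivial, trivial⟩, h1, h2⟩

theorem bounceOK_arc (Y : Set (ℝ × ℝ)) (γ : ℝ → ℝ × ℝ) (hd : Differentiable ℝ γ)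
    (hreg : ∀ s ∈ Icc (0 : ℝ) 1, deriv γ s ≠ 0) (hY : ∀ s ∈ Icc (0 : ℝ) 1, γ s ∈ Y)
    (K : Supp) (hK : FocArc Y γ K) : BounceOK Y γ (Sum.inr K) := by
  intro s hs P t φ ht hP hint hV
  obtain ⟨k, x, hx, hx1, hx2, hx3⟩ := bounce_arc Y γ hd hY K hK s hs
    (hreg s (Ioo_subset_Icc_self hs)) P t φ ht hP hint hV
  have hx' : (φ, P.1 * cos φ + P.2 * sin φ) + (2 * π * (k : ℝ), (0 : ℝ)) = x := by
    rw [hx]
    simp
  refine ⟨k, ⟨trivial, ?_, trivial⟩, ?_, ?_⟩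
  · show (φ, P.1 * cos φ + P.2 * sin φ) + (2 * π * (k : ℝ), (0 : ℝ)) ∈ K.dom
    rw [hx']
    exact hx1
  · show reflV (deriv γ s) (-sin φ, cos φ) =
      (-sin (K.refl ((φ, P.1 * cos φ + P.2 * sin φ) + (2 * π * (k : ℝ), (0 : ℝ)))).1,
        cos (K.refl ((φ, P.1 * cos φ + P.2 * sin φ) + (2 * π * (k : ℝ), (0 : ℝ)))).1)
    rw [hx']
    exact hx2
  · show (γ s).1 * cos (K.refl ((φ, P.1 * cos φ + P.2 * sin φ) + (2 * π * (k : ℝ), (0 : ℝ)))).1 +
        (γ s).2 * sin (K.refl ((φ, P.1 * cos φ + P.2 * sin φ) + (2 * π * (k : ℝ), (0 : ℝ)))).1 =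
        (K.refl ((φ, P.1 * cos φ + P.2 * sin φ) + (2 * π * (k : ℝ), (0 : ℝ)))).2
    rw [hx']
    exact hx3

/-- the word of a list of arcs with shifts -/
noncomputable def word {m : ℕ} (d : Fin m → (ℝ × ℝ) ⊕ Supp) :
    List (Fin m × ℤ) → List ((ℝ × ℝ → ℝ × ℝ) × Set (ℝ × ℝ))
  | [] => []
  | e :: v => lett (d e.1) e.2 ++ word d v

theorem word_append {m : ℕ} (d : Fin m → (ℝ × ℝ) ⊕ Supp) (v v' : List (Fin m × ℤ)) :
    word d (v ++ v') = word d v ++ word d v' := by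
  induction v with
  | nil => rfl
  | cons e v ih => simp [word, ih, List.append_assoc]

theorem word_good {m : ℕ} (d : Fin m → (ℝ × ℝ) ⊕ Supp) (v : List (Fin m × ℤ)) :
    ∀ L ∈ word d v, GoodLetter L.1 L.2 := by
  induction v with
  | nil => intro L hL; simp [word] at hL
  | cons e v ih =>
    intro L hL
    rcases List.mem_append.mp hL with h | h
    · exact lett_good _ _ L h
    · exact ih L h

theorem word_ne {m : ℕ} (d : Fin m → (ℝ × ℝ) ⊕ Supp) (v : List (Fin m × ℤ))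
    (h : ∃ e ∈ v, ∃ K, d e.1 = Sum.inr K) : ∃ L ∈ word d v, L.2 ≠ univ := by
  induction v with
  | nil => obtain ⟨e, he, -⟩ := h; simp at he
  | cons e' v ih =>
    obtain ⟨e, he, K, hK⟩ := h
    rcases List.mem_cons.mp he with rfl | he
    · refine ⟨(K.refl, K.dom), List.mem_append_left _ ?_, arc_dom_ne K⟩
      rw [hK]
      simp [lett, letters]
    · obtain ⟨L, hL, hL2⟩ := ih ⟨e, he, K, hK⟩
      exact ⟨L, List.mem_append_right _ hL, hL2⟩

theorem angle_eq {a b : ℝ} (h1 : sin a = sin b) (h2 : cos a = cos b) :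
    ∃ k : ℤ, a = b + 2 * π * k := by
  have h : (a : Real.Angle) = (b : Real.Angle) := Real.Angle.cos_sin_inj h2 h1
  rw [Real.Angle.angle_eq_iff_two_pi_dvd_sub] at h
  obtain ⟨k, hk⟩ := h
  exact ⟨k, by linarith⟩

theorem mainF (m : ℕ) (Y : Set (ℝ × ℝ)) (γ : Fin m → ℝ → ℝ × ℝ)
    (hγ : ∀ i, ContDiff ℝ ((⊤ : ℕ∞) : WithTop ℕ∞) (γ i))
    (hreg : ∀ i, ∀ s ∈ Set.Icc (0 : ℝ) 1, deriv (γ i) s ≠ 0)
    (hinj : ∀ i, Set.InjOn (γ i) (Set.Ioo (0 : ℝ) 1))
    (hdisj : ∀ i j, i ≠ j →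
      Disjoint (γ i '' Set.Ioo (0 : ℝ) 1) (γ j '' Set.Ioo (0 : ℝ) 1))
    (hY : ∀ i, ∀ s ∈ Set.Icc (0 : ℝ) 1, γ i s ∈ Y)
    (J : Set (Fin m)) (hJ : ∀ j ∈ J, Straight (γ j) ∨ ∃ K : Supp, FocArc Y (γ j) K) (i : Fin m) :
    volume {q : ℝ × ℝ | q.1 ∈ Set.Ioo (0 : ℝ) 1 ∧
        ∃ n : ℕ, 0 < n ∧ ∃ P V : ℕ → ℝ × ℝ,
          P 0 = γ i q.1 ∧ V 0 = (Real.cos q.2, Real.sin q.2) ∧
          P n = P 0 ∧ V n = V 0 ∧
          ∀ k < n,
            (∃ t : ℝ, 0 < t ∧ P (k + 1) = P k + t • V k ∧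
              ∀ τ ∈ Set.Ioo (0 : ℝ) t, P k + τ • V k ∈ interior Y) ∧
            (∃ j ∈ J, ∃ s ∈ Set.Ioo (0 : ℝ) 1, P (k + 1) = γ j s ∧
              (V k).1 * (-(deriv (γ j) s).2) + (V k).2 * (deriv (γ j) s).1 ≠ 0 ∧
              V (k + 1) = V k -
                (2 * ((V k).1 * (-(deriv (γ j) s).2) + (V k).2 * (deriv (γ j) s).1) /
                  ((deriv (γ j) s).1 ^ 2 + (deriv (γ j) s).2 ^ 2)) •
                  (-(deriv (γ j) s).2, (deriv (γ j) s).1)) ∧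
            (∃ ε : ℝ, 0 < ε ∧
              ∀ τ ∈ Set.Ioo (0 : ℝ) ε, P (k + 1) + τ • V (k + 1) ∈ interior Y)} = 0 := by
  classical
  have hdiff : ∀ j, Differentiable ℝ (γ j) := fun j => (hγ j).differentiable (by simp)
  -- data of the arcs
  have hd : ∀ j, ∃ d : (ℝ × ℝ) ⊕ Supp, j ∈ J → BounceOK Y (γ j) d ∧
      ((∃ μ, d = Sum.inl μ) → Straight (γ j)) := by
    intro j
    by_cases hj : j ∈ J
    · rcases hJ j hj with h | ⟨K, hK⟩
      · obtain ⟨μ, hμ⟩ := bounceOK_flat Y (γ j) (hdiff j) (hreg j) h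
        exact ⟨Sum.inl μ, fun _ => ⟨hμ, fun _ => h⟩⟩
      · exact ⟨Sum.inr K, fun _ => ⟨bounceOK_arc Y (γ j) (hdiff j) (hreg j) (hY j) K hK,
          by rintro ⟨μ, hμ⟩; simp at hμ⟩⟩
    · exact ⟨Sum.inl 0, fun h => absurd h hj⟩
  choose d hd using hd
  -- orbits that only meet straight arcs
  have hflat := Pool.Agent.H6.Ivrii.main m Y γ hγ hreg hinj hdisj {j | j ∈ J ∧ Straight (γ j)}
    (fun j hj => Or.inl hj.2) i
  -- orbits that meet a curved arc
  have hcurv : ∀ (v : List (Fin m × ℤ)) (k : ℤ), (∃ e ∈ v, ∃ K, d e.1 = Sum.inr K) →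
      volume {q : ℝ × ℝ | q.1 ∈ Ioo (0 : ℝ) 1 ∧ lin (γ i) q ∈ wdom (word d v) ∧
        run (word d v) (lin (γ i) q) = lin (γ i) q + (2 * π * (k : ℝ), 0) ∧
      (deriv (γ i) q.1).1 * sin q.2 - (deriv (γ i) q.1).2 * cos q.2 ≠ 0} = 0 := by
    intro v k hv
    exact null_word (γ i) ((hγ i).of_le (by simp)) _ (word_good d v) (word_ne d v hv) _
  have hcurv' : volume (⋃ (v : List (Fin m × ℤ)) (k : ℤ) (_ : ∃ e ∈ v, ∃ K, d e.1 = Sum.inr K),
      {q : ℝ × ℝ | q.1 ∈ Ioo (0 : ℝ) 1 ∧ lin (γ i) q ∈ wdom (word d v) ∧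
        run (word d v) (lin (γ i) q) = lin (γ i) q + (2 * π * (k : ℝ), 0) ∧
      (deriv (γ i) q.1).1 * sin q.2 - (deriv (γ i) q.1).2 * cos q.2 ≠ 0}) = 0 := by
    refine measure_iUnion_null fun v => measure_iUnion_null fun k => ?_
    by_cases hv : ∃ e ∈ v, ∃ K, d e.1 = Sum.inr K
    · simpa only [hv, iUnion_true] using hcurv v k hv
    · simp only [hv, iUnion_false, measure_empty]
  refine measure_mono_null ?_ (measure_union_null hflat hcurv')
  rintro q ⟨hq, n, hn, P, V, hP0, hV0, hPn, hVn, hall⟩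
  by_cases hstr : ∀ k < n, ∃ j ∈ J, Straight (γ j) ∧ ∃ s ∈ Set.Ioo (0 : ℝ) 1, P (k + 1) = γ j s ∧
              (V k).1 * (-(deriv (γ j) s).2) + (V k).2 * (deriv (γ j) s).1 ≠ 0 ∧
              V (k + 1) = V k -
                (2 * ((V k).1 * (-(deriv (γ j) s).2) + (V k).2 * (deriv (γ j) s).1) /
                  ((deriv (γ j) s).1 ^ 2 + (deriv (γ j) s).2 ^ 2)) •
                  (-(deriv (γ j) s).2, (deriv (γ j) s).1)
  · left
    refine ⟨hq, n, hn, P, V, hP0, hV0, hPn, hVn, fun k hk => ⟨(hall k hk).1, ?_, (hall k hk).2.2⟩⟩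
    obtain ⟨j, hj, hjs, s, hs⟩ := hstr k hk
    exact ⟨j, ⟨hj, hjs⟩, s, hs⟩
  · right
    push Not at hstr
    obtain ⟨k0, hk0, hk0s⟩ := hstr
    have hind : ∀ k ≤ n, ∃ v : List (Fin m × ℤ), (k0 < k → ∃ e ∈ v, ∃ K, d e.1 = Sum.inr K) ∧
        lin (γ i) q ∈ wdom (word d v) ∧
        V k = (-sin (run (word d v) (lin (γ i) q)).1, cos (run (word d v) (lin (γ i) q)).1) ∧
        (P k).1 * cos (run (word d v) (lin (γ i) q)).1 +
          (P k).2 * sin (run (word d v) (lin (γ i) q)).1 = (run (word d v) (lin (γ i) q)).2 := by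
      intro k
      induction k with
      | zero =>
        intro _
        refine ⟨[], fun h => absurd h (by omega), trivial, ?_, ?_⟩
        · rw [hV0]
          simp [word, run, lin, Real.sin_sub_pi_div_two, Real.cos_sub_pi_div_two]
        · rw [hP0]
          simp only [word, run, lin, Real.sin_sub_pi_div_two, Real.cos_sub_pi_div_two]
          ring
      | succ k ih =>
        intro hk
        obtain ⟨v, hv1, hv2, hv3, hv4⟩ := ih (by omega)
        obtain ⟨⟨t, ht, hPt, hint⟩, ⟨j, hj, s, hs, hPs, hVn', hVs⟩, -⟩ := hall k (by omega)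
        set x := run (word d v) (lin (γ i) q) with hx
        have hPt' : γ j s = P k + t • (-sin x.1, cos x.1) := by rw [← hPs, hPt, hv3]
        have hint' : ∀ τ ∈ Ioo (0 : ℝ) t, P k + τ • (-sin x.1, cos x.1) ∈ Y := by
          intro τ hτ
          rw [← hv3]
          exact interior_subset (hint τ hτ)
        have hVn'' : (-sin x.1) * (-(deriv (γ j) s).2) + cos x.1 * (deriv (γ j) s).1 ≠ 0 := by
          rw [hv3] at hVn'
          exact hVn'
        obtain ⟨l, h1, h2, h3⟩ := (hd j hj).1 s hs (P k) t x.1 ht hPt' hint' hVn''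
        rw [hv4] at h1 h2 h3
        refine ⟨v ++ [(j, l)], ?_, ?_, ?_, ?_⟩
        · intro hk'
          rcases Nat.lt_or_ge k0 k with h | h
          · obtain ⟨e, he, K, hK⟩ := hv1 h
            exact ⟨e, List.mem_append_left _ he, K, hK⟩
          · have hkk : k0 = k := by omega
            subst hkk
            refine ⟨(j, l), by simp, ?_⟩
            rcases hdj : d j with μ | K
            · exfalso
              exact hk0s j hj ((hd j hj).2 ⟨μ, hdj⟩) s hs hPs hVn' hVs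
            · exact ⟨K, rfl⟩
        · rw [word_append, wdom_append]
          refine ⟨hv2, ?_⟩
          simp only [word, List.append_nil]
          exact h1
        · rw [word_append, run_append]
          simp only [word, List.append_nil]
          rw [hVs, hv3]
          exact h2
        · rw [word_append, run_append]
          simp only [word, List.append_nil]
          rw [hPs]
          exact h3
    obtain ⟨v, hv1, hv2, hv3, hv4⟩ := hind n le_rfl
    set x := run (word d v) (lin (γ i) q) with hx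
    have hs0 : sin x.1 = sin (lin (γ i) q).1 ∧ cos x.1 = cos (lin (γ i) q).1 := by
      rw [hVn, hV0] at hv3
      have h1 := congrArg Prod.fst hv3
      have h2 := congrArg Prod.snd hv3
      simp only at h1 h2
      simp only [lin, Real.sin_sub_pi_div_two, Real.cos_sub_pi_div_two]
      exact ⟨by linarith, by linarith⟩
    obtain ⟨k, hk⟩ := angle_eq hs0.1 hs0.2
    simp only [mem_iUnion]
    refine ⟨v, k, hv1 hk0, hq, hv2, ?_, ?_⟩
    · apply Prod.ext
      · rw [hk]; simp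
      · rw [← hv4, hs0.1, hs0.2, hPn, hP0]
        simp only [lin, Real.sin_sub_pi_div_two, Real.cos_sub_pi_div_two, Prod.snd_add, add_zero]
        ring
    · -- the last reflection is at the starting point
      obtain ⟨-, ⟨j, hj, s, hs, hPs, hVn', hVs⟩, -⟩ := hall (n - 1) (by omega)
      rw [Nat.sub_add_cancel hn] at hPs hVs
      have hij : i = j := by
        by_contra hij
        exact Set.disjoint_left.mp (hdisj i j hij) ⟨q.1, hq, rfl⟩ ⟨s, hs, by rw [← hPs, hPn, hP0]⟩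
      subst hij
      have hsq : q.1 = s := hinj i hq hs (by rw [← hPs, hPn, hP0])
      have h1 := reflV_normal (deriv (γ i) s) (V (n - 1)) (hreg i s (Ioo_subset_Icc_self hs))
      have h2 : reflV (deriv (γ i) s) (V (n - 1)) = V n := hVs.symm
      rw [h2, hVn, hV0] at h1
      rw [hsq]
      intro h3
      apply hVn'
      simp only at h1
      linarith

end Pool.Agent.H6.Fo
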