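import Pool.Agent.H6.Fo.Lin

/-!
JOB FO-9. One-sided structure of a domain at a boundary point with locally constant pattern.

`one_side`: choose a neighbourhood `W` of `x` on which `h1`, `h2` hold and `B ⊆ W` from `conn`. `B ∩ {0 < u}` is preconnected, meets `V` (`x ∈ closure V`, `B ∈ 𝓝 x`, `h1`) and does not meet
`frontier V` (`h2`), so it is contained in `V` (`IsPreconnected.inter_frontier_nonempty` or `isPreconnected_iff...`).
`phase1`: induction on `w`, generalizing `V`, `x`. Let the word be `L :: w`, `e` the homeomorphism with `e = L.1`.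
 Case `x ∈ L.2`: `V' = e '' V`, `x' = e x`; `frontier (e '' V) = e '' frontier V` (`Homeomorph.image_frontier`), the pattern is locally constant on `frontier V'` at `x'`,
 `false ∈ pat w x'`. Get `u'` and put `u = u' ∘ L.1`: `ContDiffAt` (analytic), derivative `fderiv u' x' ∘ A ≠ 0` (`comp_ne_zero`, `A = fderiv L.1 x`, `det A = 1`).
 Case `x ∉ L.2`: `x ∈ closure V ⊆ closure L.2`, take `u` from the `Graze` structure and apply `one_side`: near `x` a point `y` of `frontier V` has the same pattern as `x`, so `y ∉ L.2`, so not `0 < u y`.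
-/

set_option autoImplicit false

namespace Pool.Agent.H6.Fo

open Real Set Filter Topology

theorem one_side {V : Set (ℝ × ℝ)} {x : ℝ × ℝ} (hx : x ∈ closure V) {u : ℝ × ℝ → ℝ}
    (conn : ∀ W ∈ 𝓝 x, ∃ B ∈ 𝓝 x, B ⊆ W ∧ IsPreconnected (B ∩ {y | 0 < u y}))
    (h1 : ∀ᶠ y in 𝓝 x, y ∈ V → 0 < u y) (h2 : ∀ᶠ y in 𝓝 x, y ∈ frontier V → ¬ 0 < u y) :
    ∀ᶠ y in 𝓝 x, (y ∈ V ↔ 0 < u y) := by
  obtain ⟨B, hB, hBW, hP⟩ := conn _ (h1.and h2)
  obtain ⟨y0, hy0B, hy0V⟩ := mem_closure_iff_nhds.1 hx B hB
  have hsub : B ∩ {y | 0 < u y} ⊆ V := by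
    intro z hz
    by_contra hzV
    have key : ∀ q ∈ B ∩ {y | 0 < u y}, q ∈ interior V ∨ q ∈ (closure V)ᶜ := by
      intro q hq
      by_contra hc
      push Not at hc
      exact (hBW hq.1).2 ⟨not_not.1 hc.2, hc.1⟩ hq.2
    have hy0 : y0 ∈ B ∩ {y | 0 < u y} := ⟨hy0B, (hBW hy0B).1 hy0V⟩
    obtain ⟨q, -, hq1, hq2⟩ := hP (interior V) (closure V)ᶜ isOpen_interior
      isClosed_closure.isOpen_compl (fun q hq => key q hq)
      ⟨y0, hy0, (key y0 hy0).resolve_right fun h => h (subset_closure hy0V)⟩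
      ⟨z, hz, (key z hz).resolve_left fun h => hzV (interior_subset h)⟩
    exact hq2 (subset_closure (interior_subset hq1))
  filter_upwards [hB] with y hy
  exact ⟨(hBW hy).1, fun h => hsub ⟨hy, h⟩⟩

theorem phase1 (w : List ((ℝ × ℝ → ℝ × ℝ) × Set (ℝ × ℝ)))
    (hw : ∀ L ∈ w, GoodLetter L.1 L.2) (V : Set (ℝ × ℝ)) (hV : V ⊆ wdom w) (x : ℝ × ℝ)
    (hx : x ∈ frontier V) (hpat : ∀ᶠ y in 𝓝 x, y ∈ frontier V → pat w y = pat w x)
    (hs : false ∈ pat w x) :
    ∃ u : ℝ × ℝ → ℝ, ContDiffAt ℝ 1 u x ∧ u x = 0 ∧ fderiv ℝ u x ≠ 0 ∧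
      ∀ᶠ y in 𝓝 x, (y ∈ V ↔ 0 < u y) := by
  induction w generalizing V x with
  | nil => simp [pat] at hs
  | cons L w ih =>
    have G := hw L (by simp)
    obtain ⟨e, he⟩ := G.homeo
    have hcL : ContinuousAt L.1 x := by
      have : L.1 = e := funext fun y => (he y).symm
      rw [this]; exact e.continuous.continuousAt
    by_cases hxL : x ∈ L.2
    · have hs' : false ∈ pat w (L.1 x) := by
        simpa [pat, hxL] using hs
      have hfr : ∀ y, y ∈ frontier V → L.1 y ∈ frontier (e '' V) := by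
        intro y hy
        rw [← e.image_frontier, ← he]
        exact ⟨y, hy, rfl⟩
      have hV' : e '' V ⊆ wdom w := by
        rintro _ ⟨y, hy, rfl⟩
        rw [he]
        exact (hV hy).2
      have hpat' : ∀ᶠ y in 𝓝 (L.1 x), y ∈ frontier (e '' V) → pat w y = pat w (L.1 x) := by
        have ht : Tendsto e.symm (𝓝 (L.1 x)) (𝓝 x) := by
          have := e.symm.continuous.tendsto (L.1 x)
          rwa [← he, e.symm_apply_apply, he] at this
        filter_upwards [ht.eventually hpat] with y hy hyf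
        rw [← e.image_frontier] at hyf
        obtain ⟨z, hz, rfl⟩ := hyf
        rw [e.symm_apply_apply] at hy
        have := hy hz
        simp only [pat, List.cons.injEq] at this
        rw [he]
        exact this.2
      obtain ⟨u', hu1, hu2, hu3, hu4⟩ := ih (fun L' hL' => hw L' (by simp [hL'])) (e '' V) hV'
        (L.1 x) (hfr x hx) hpat' hs'
      have han := G.an x hxL
      have hcd : ContDiffAt ℝ 1 L.1 x := han.contDiffAt
      refine ⟨u' ∘ L.1, hu1.comp x hcd, hu2, ?_, ?_⟩
      · rw [fderiv_comp x (hu1.differentiableAt (by simp)) (hcd.differentiableAt (by simp))]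
        exact comp_ne_zero _ (G.det x hxL) hu3
      · filter_upwards [hcL.eventually hu4] with y hy
        rw [← he, e.injective.mem_set_image, he] at hy
        exact hy
    · have hVL : V ⊆ L.2 := fun y hy => (hV hy).1
      have hxV : x ∈ closure V := frontier_subset_closure hx
      obtain ⟨u, u', c, hc, g⟩ := G.bd x (closure_mono hVL hxV) hxL
      refine ⟨u, g.contu.contDiffAt, g.zero, g.grad, one_side hxV g.conn ?_ ?_⟩
      · filter_upwards [g.loc] with y hy hyV
        exact hy.1 (hVL hyV)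
      · filter_upwards [g.loc, hpat] with y hy hyp hyf h0
        have h1 := hyp hyf
        simp only [pat, List.cons.injEq] at h1
        have h2 := hy.2 h0
        simp [h2, hxL] at h1

end Pool.Agent.H6.Fo
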