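import Pool.Agent.H6.Fo.Phase1

/-!
JOB FO-10. The displacement of order `√t` along a word (one_side, ratio_lemma, rot_comp of the imported files may be used although still `sorry`).

Induction on `w`, generalizing `V x u y b l`. `w = []`: `D = l • rot (du)`, `l > 0` because `false ∉ []`.
Word `L :: w`, `e` the homeomorphism with `e = L.1`, `V' = e '' V`, `x' = L.1 x`, `y' t = L.1 (y t)`; `frontier V' = e '' frontier V`, `V' ⊆ wdom w`, the pattern of `w` is locally constant on `frontier V'` at `x'`.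
Case `x ∈ L.2`. `A = fderiv L.1 x`, `det A = 1`; `u' = u ∘ e.symm` is `C¹` at `x'` (`OpenPartialHomeomorph.contDiffAt_symm` for `e.toOpenPartialHomeomorph`; the derivative `A` is invertible),
 `fderiv u x = (fderiv u' x').comp A`, so `A (rot (fderiv u x)) = rot (fderiv u' x')` by `rot_comp`. `u' (y' t) = u (y t)`. `(√t)⁻¹ (y' t - x') → A (l rot)` because `L.1` is
 differentiable at `x` and `(√t)⁻¹ (y t - x)` converges. Same `b`, `l`. (`false ∈ pat (L :: w) x` gives `false ∈ pat w x'`.)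
Case `x ∉ L.2`. Then `x ∈ closure L.2`; let `v, v', c` be the `Graze` data. By `one_side` near `x`: `z ∈ V ↔ 0 < v z`, so `0 < u z ↔ 0 < v z`; by `ratio_lemma`: `dv = ρ du`, `v / u → ρ > 0`.
 So `v (y t) / t → ρ b`, `(√t)⁻¹ (y t - x) → (l / ρ) rot (dv)`. Apply the letter: use `u := v'` at `x'`: near `x'` a point `z' = e z` is in `V'` iff `z ∈ V` iff `0 < v z` iff `0 < v' z'` (`loc'`).
 `v' (y' t) / t → ρ b` (`ratio`), `(√t)⁻¹ (y' t - x') = (√t)⁻¹ (y t - x) + √(v (y t) / t) • (√(v (y t)))⁻¹ • ((y' t - x') - (y t - x)) → (l / ρ + √(ρ b) c) rot (dv)`, `rot (dv) = rot (dv')` (`grad'`).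
 New `l` is `> 0`.
-/

set_option autoImplicit false

namespace Pool.Agent.H6.Fo

open Real Set Filter Topology

/-- the direction of approach is mapped by the derivative -/
theorem ph2_dir {F : ℝ × ℝ → ℝ × ℝ} {x : ℝ × ℝ} {A : (ℝ × ℝ) →L[ℝ] (ℝ × ℝ)}
    (hF : HasFDerivAt F A x) {y : ℝ → ℝ × ℝ} {d : ℝ × ℝ}
    (hy : Tendsto y (𝓝[>] 0) (𝓝 x))
    (hyl : Tendsto (fun t => (√t)⁻¹ • (y t - x)) (𝓝[>] 0) (𝓝 d)) :
    Tendsto (fun t => (√t)⁻¹ • (F (y t) - F x)) (𝓝[>] 0) (𝓝 (A d)) := by
  have h0 : Tendsto (fun t => y t - x) (𝓝[>] 0) (𝓝 0) := by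
    have := hy.sub_const x
    rwa [sub_self] at this
  have h1 := (hasFDerivWithinAt_univ.2 hF).lim h0 (Eventually.of_forall fun _ => mem_univ _) hyl
  refine h1.congr fun t => ?_
  rw [add_sub_cancel]

theorem ph2_frontier (e : (ℝ × ℝ) ≃ₜ (ℝ × ℝ)) {V : Set (ℝ × ℝ)} {x : ℝ × ℝ}
    {w : List ((ℝ × ℝ → ℝ × ℝ) × Set (ℝ × ℝ))} {F : ℝ × ℝ → ℝ × ℝ} {S : Set (ℝ × ℝ)}
    (he : ∀ x, e x = F x)
    (hpat : ∀ᶠ y in 𝓝 x, y ∈ frontier V → pat ((F, S) :: w) y = pat ((F, S) :: w) x) :
    ∀ᶠ y in 𝓝 (F x), y ∈ frontier (e '' V) → pat w y = pat w (F x) := by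
  have ht : Tendsto e.symm (𝓝 (F x)) (𝓝 x) := by
    have := e.symm.continuous.tendsto (F x)
    rwa [← he, e.symm_apply_apply, he] at this
  filter_upwards [ht.eventually hpat] with y hy hyf
  rw [← e.image_frontier] at hyf
  obtain ⟨z, hz, rfl⟩ := hyf
  rw [e.symm_apply_apply] at hy
  have := hy hz
  simp only [pat, List.cons.injEq] at this
  rw [he]
  exact this.2

/-- two defining functions: growth rates -/
theorem ph2_rate {u v : ℝ × ℝ → ℝ} {x : ℝ × ℝ} {ρ : ℝ}
    (hr : Tendsto (fun y => v y / u y) (𝓝[{y | 0 < u y}] x) (𝓝 ρ)) {y : ℝ → ℝ × ℝ} {b : ℝ}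
    (hb : 0 < b) (hy : Tendsto y (𝓝[>] 0) (𝓝 x))
    (hyb : Tendsto (fun t => u (y t) / t) (𝓝[>] 0) (𝓝 b)) :
    Tendsto y (𝓝[>] 0) (𝓝[{y | 0 < u y}] x) ∧
    Tendsto (fun t => v (y t) / t) (𝓝[>] 0) (𝓝 (ρ * b)) := by
  have h1 : ∀ᶠ t : ℝ in 𝓝[>] 0, 0 < u (y t) := by
    filter_upwards [hyb.eventually (lt_mem_nhds hb), self_mem_nhdsWithin] with t h1 h2
    have h2' : 0 < t := h2
    have := mul_pos h1 h2'
    rwa [div_mul_cancel₀ _ h2'.ne'] at this
  have h2 : Tendsto y (𝓝[>] 0) (𝓝[{y | 0 < u y}] x) :=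
    tendsto_nhdsWithin_iff.2 ⟨hy, h1⟩
  refine ⟨h2, ?_⟩
  have h3 := (hr.comp h2).mul hyb
  refine h3.congr' ?_
  filter_upwards [h1] with t h4
  simp only [Function.comp_apply]
  rw [div_mul_div_comm, mul_comm (u (y t)) t, mul_div_mul_right _ _ h4.ne']

theorem phase2 (w : List ((ℝ × ℝ → ℝ × ℝ) × Set (ℝ × ℝ)))
    (hw : ∀ L ∈ w, GoodLetter L.1 L.2) (V : Set (ℝ × ℝ)) (hV : V ⊆ wdom w) (x : ℝ × ℝ)
    (hx : x ∈ frontier V) (hpat : ∀ᶠ y in 𝓝 x, y ∈ frontier V → pat w y = pat w x)
    (u : ℝ × ℝ → ℝ) (hu : ContDiffAt ℝ 1 u x) (hu0 : u x = 0) (hu1 : fderiv ℝ u x ≠ 0)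
    (hloc : ∀ᶠ y in 𝓝 x, (y ∈ V ↔ 0 < u y)) (y : ℝ → ℝ × ℝ) (b l : ℝ) (hb : 0 < b) (hl : 0 ≤ l)
    (hy : Tendsto y (𝓝[>] 0) (𝓝 x)) (hyb : Tendsto (fun t => u (y t) / t) (𝓝[>] 0) (𝓝 b))
    (hyl : Tendsto (fun t => (√t)⁻¹ • (y t - x)) (𝓝[>] 0) (𝓝 (l • rot (fderiv ℝ u x))))
    (hs : 0 < l ∨ false ∈ pat w x) :
    ∃ D : ℝ × ℝ, D ≠ 0 ∧
      Tendsto (fun t => (√t)⁻¹ • (run w (y t) - run w x)) (𝓝[>] 0) (𝓝 D) := by
  induction w generalizing V x u y b l with
  | nil =>
    have hl0 : 0 < l := by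
      rcases hs with h | h
      · exact h
      · simp [pat] at h
    exact ⟨l • rot (fderiv ℝ u x), smul_ne_zero hl0.ne' (rot_ne_zero hu1), hyl⟩
  | cons L w ih =>
    obtain ⟨F, S⟩ := L
    have G : GoodLetter F S := hw (F, S) (by simp)
    obtain ⟨e, he⟩ := G.homeo
    have heF : (e : ℝ × ℝ → ℝ × ℝ) = F := funext he
    have hcF : Continuous F := by
      rw [← heF]
      exact e.continuous
    have hcL : ContinuousAt F x := hcF.continuousAt
    have ht : Tendsto e.symm (𝓝 (F x)) (𝓝 x) := by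
      have := e.symm.continuous.tendsto (F x)
      rwa [← he, e.symm_apply_apply, he] at this
    have hfr : F x ∈ frontier (e '' V) := by
      rw [← e.image_frontier, ← he]
      exact ⟨x, hx, rfl⟩
    have hV' : e '' V ⊆ wdom w := by
      rintro _ ⟨y, hy, rfl⟩
      rw [he]
      exact (hV hy).2
    have hpat' := ph2_frontier e he hpat
    have hy' : Tendsto (fun t => F (y t)) (𝓝[>] 0) (𝓝 (F x)) := hcL.tendsto.comp hy
    by_cases hxL : x ∈ S
    · have hs' : 0 < l ∨ false ∈ pat w (F x) := by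
        simpa [pat, hxL] using hs
      have hA := G.det x hxL
      set A := fderiv ℝ F x with hAdef
      have hFA : HasFDerivAt F A x := (G.an x hxL).differentiableAt.hasFDerivAt
      have hcd : ContDiffAt ℝ 1 F x := (G.an x hxL).contDiffAt
      have hsymm : e.symm (F x) = x := by rw [← he, e.symm_apply_apply]
      have hsd : ContDiffAt ℝ 1 e.symm (F x) := by
        have h1 := OpenPartialHomeomorph.contDiffAt_symm (n := 1) (𝕜 := ℝ)
          e.toOpenPartialHomeomorph (f₀' := A.toContinuousLinearEquivOfDetNeZero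
            (by rw [hA]; exact one_ne_zero)) (a := F x) (by simp) (by
              change HasFDerivAt e _ (e.symm (F x))
              rw [hsymm, heF, ContinuousLinearMap.coe_toContinuousLinearEquivOfDetNeZero]
              exact hFA) (by
              change ContDiffAt ℝ 1 e (e.symm (F x))
              rw [hsymm, heF]
              exact hcd)
        exact h1
      have hu' : ContDiffAt ℝ 1 (fun z => u (e.symm z)) (F x) := by
        refine ContDiffAt.comp (F x) ?_ hsd
        rw [hsymm]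
        exact hu
      have hcomp : fderiv ℝ u x = (fderiv ℝ (fun z => u (e.symm z)) (F x)).comp A := by
        have h1 : HasFDerivAt (fun z => u (e.symm z)) (fderiv ℝ (fun z => u (e.symm z)) (F x))
            (F x) := (hu'.differentiableAt (by simp)).hasFDerivAt
        have h2 := h1.comp x hFA
        have h3 : ((fun z => u (e.symm z)) ∘ F) = u := by
          funext z
          simp only [Function.comp_apply]
          rw [← he, e.symm_apply_apply]
        rw [h3] at h2
        exact h2.fderiv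
      refine ih (fun L' hL' => hw L' (by simp [hL'])) (e '' V) hV' (F x) hfr hpat'
        (fun z => u (e.symm z)) hu' (by simp only [hsymm]; exact hu0) ?_ ?_
        (fun t => F (y t)) b l hb hl hy' ?_ ?_ hs'
      · intro h0
        rw [h0] at hcomp
        apply hu1
        rw [hcomp]
        exact ContinuousLinearMap.zero_comp _
      · filter_upwards [ht.eventually hloc] with z hz
        rw [← hz]
        constructor
        · rintro ⟨z', hz', rfl⟩
          rwa [e.symm_apply_apply]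
        · intro h
          exact ⟨e.symm z, h, e.apply_symm_apply z⟩
      · refine hyb.congr fun t => ?_
        rw [← he, e.symm_apply_apply]
      · have h1 := ph2_dir hFA hy hyl
        rw [map_smul, hcomp, rot_comp A hA] at h1
        exact h1
    · have hVL : V ⊆ S := fun y hy => (hV hy).1
      have hxV : x ∈ closure V := frontier_subset_closure hx
      obtain ⟨v, v', c, hc, g⟩ := G.bd x (closure_mono hVL hxV) hxL
      have hlocv : ∀ᶠ y in 𝓝 x, (y ∈ V ↔ 0 < v y) := by
        refine one_side hxV g.conn ?_ ?_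
        · filter_upwards [g.loc] with y hy hyV
          exact hy.1 (hVL hyV)
        · filter_upwards [g.loc, hpat] with y hy hyp hyf h0
          have h1 := hyp hyf
          simp only [pat, List.cons.injEq] at h1
          have h2 := hy.2 h0
          simp [h2, hxL] at h1
      have huv : ∀ᶠ y in 𝓝 x, (0 < u y ↔ 0 < v y) := by
        filter_upwards [hloc, hlocv] with y h1 h2
        rw [← h1, ← h2]
      obtain ⟨ρ, hρ, hdv, hrat⟩ := ratio_lemma hu g.contu.contDiffAt hu0 g.zero hu1 g.grad huv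
      obtain ⟨hyu, hyv⟩ := ph2_rate hrat hb hy hyb
      obtain ⟨hyvv, hyv'⟩ := ph2_rate (u := v) (v := fun z => v' (F z)) g.ratio
        (mul_pos hρ hb) hy hyv
      rw [one_mul] at hyv'
      have hrot : rot (fderiv ℝ u x) = ρ⁻¹ • rot (fderiv ℝ v x) := by
        rw [hdv, rot_smul, smul_smul, inv_mul_cancel₀ hρ.ne', one_smul]
      have hnew : 0 < l * ρ⁻¹ + √(ρ * b) * c := by
        have h1 : 0 ≤ l * ρ⁻¹ := by positivity
        have h2 : 0 < √(ρ * b) * c := by positivity
        linarith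
      refine ih (fun L' hL' => hw L' (by simp [hL'])) (e '' V) hV' (F x) hfr hpat'
        v' g.contu'.contDiffAt g.zero' (by rw [g.grad']; exact g.grad) ?_
        (fun t => F (y t)) (ρ * b) (l * ρ⁻¹ + √(ρ * b) * c) (mul_pos hρ hb) hnew.le hy' hyv' ?_
        (Or.inl hnew)
      · filter_upwards [ht.eventually (hlocv.and g.loc')] with z hz
        have h3 : F (e.symm z) = z := by rw [← he, e.apply_symm_apply]
        rw [h3] at hz
        rw [← hz.2, ← hz.1]
        constructor
        · rintro ⟨z', hz', rfl⟩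
          rwa [e.symm_apply_apply]
        · intro h
          exact ⟨e.symm z, h, e.apply_symm_apply z⟩
      · rw [g.grad', add_smul]
        have h1 : Tendsto (fun t => (√t)⁻¹ • (y t - x)) (𝓝[>] 0)
            (𝓝 ((l * ρ⁻¹) • rot (fderiv ℝ v x))) := by
          rw [hrot, smul_smul] at hyl
          exact hyl
        have h2 : Tendsto (fun t => √(v (y t) / t) •
            ((√(v (y t)))⁻¹ • ((F (y t) - F x) - (y t - x)))) (𝓝[>] 0)
            (𝓝 (√(ρ * b) • (c • rot (fderiv ℝ v x)))) :=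
          ((Real.continuous_sqrt.tendsto _).comp hyv).smul (g.disp.comp hyvv)
        rw [smul_smul] at h2
        refine (h1.add h2).congr' ?_
        have h3 : ∀ᶠ t : ℝ in 𝓝[>] 0, 0 < v (y t) := by
          exact (tendsto_nhdsWithin_iff.1 hyvv).2
        filter_upwards [h3, self_mem_nhdsWithin] with t h4 h5
        have h5' : 0 < t := h5
        have h6 : √(v (y t)) ≠ 0 := (Real.sqrt_pos.2 h4).ne'
        rw [smul_smul, Real.sqrt_div h4.le, div_mul_eq_mul_div, mul_inv_cancel₀ h6, one_div,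
          ← smul_add]
        congr 1
        abel


end Pool.Agent.H6.Fo
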