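import Pool.Agent.H6.Fo.Ang

/-!
JOB FO-4. Second order expansion at a grazing line.

`E(ψ, α) = h(ψ - α) - h(ψ) cos α + h'(ψ) sin α`. `E(ψ, 0) = 0`, `∂E/∂α = 0` at `α = 0`, `∂²E/∂α² = h''(ψ - α) + h(ψ) cos α - h'(ψ) sin α`.
Taylor with Lagrange remainder (or two applications of the mean value theorem, or the Cauchy mean value theorem for `E` and `α²` twice):
`E(ψ, α) = α² / 2 · (h''(ψ - ξ) + h(ψ) cos ξ - h'(ψ) sin ξ)`, `ξ` between `0` and `α`; the bracket tends to `(h + h'')(ψ₀)` as `(ψ, α) → (ψ₀, 0)`.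
-/

set_option autoImplicit false

namespace Pool.Agent.H6.Fo

open Real Set Filter Topology

namespace TaylorAux

theorem pos_case (G G' G2 : ℝ → ℝ) (h1 : ∀ x, HasDerivAt G (G' x) x)
    (h2 : ∀ x, HasDerivAt G' (G2 x) x) (g0 : G 0 = 0) (g1 : G' 0 = 0) (a : ℝ) (ha : 0 < a) :
    ∃ ξ : ℝ, |ξ| ≤ |a| ∧ G a = a ^ 2 / 2 * G2 ξ := by
  obtain ⟨c, hc, hc'⟩ := exists_ratio_hasDerivAt_eq_ratio_slope G G' ha
    (fun x _ => (h1 x).continuousAt.continuousWithinAt) (fun x _ => h1 x)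
    (fun x => x ^ 2) (fun x => 2 * x) (by fun_prop) (fun x _ => by
      simpa using hasDerivAt_pow 2 x)
  obtain ⟨d, hd, hd'⟩ := exists_hasDerivAt_eq_slope G' G2 hc.1
    (fun x _ => (h2 x).continuousAt.continuousWithinAt) (fun x _ => h2 x)
  rw [g1, sub_zero, sub_zero] at hd'
  rw [g0, sub_zero] at hc'
  have hc0 : c ≠ 0 := hc.1.ne'
  refine ⟨d, ?_, ?_⟩
  · rw [abs_of_pos hd.1, abs_of_pos ha]
    exact (hd.2.trans hc.2).le
  · rw [hd']
    field_simp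
    nlinarith [hc']

theorem general (G G' G2 : ℝ → ℝ) (h1 : ∀ x, HasDerivAt G (G' x) x)
    (h2 : ∀ x, HasDerivAt G' (G2 x) x) (g0 : G 0 = 0) (g1 : G' 0 = 0) (a : ℝ) :
    ∃ ξ : ℝ, |ξ| ≤ |a| ∧ G a = a ^ 2 / 2 * G2 ξ := by
  rcases lt_trichotomy a 0 with ha | ha | ha
  · obtain ⟨ξ, hξ, h⟩ := pos_case (fun x => G (-x)) (fun x => -G' (-x)) (fun x => G2 (-x))
      (fun x => ((h1 (-x)).comp x (hasDerivAt_neg x)).congr_deriv (by ring))
      (fun x => ((h2 (-x)).comp x (hasDerivAt_neg x)).neg.congr_deriv (by ring))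
      (by simpa using g0) (by simpa using g1) (-a) (by linarith)
    refine ⟨-ξ, ?_, ?_⟩
    · rw [abs_neg]
      rwa [abs_neg] at hξ
    · simpa using h
  · subst ha
    exact ⟨0, le_refl _, by rw [g0]; ring⟩
  · exact pos_case G G' G2 h1 h2 g0 g1 a ha

end TaylorAux

namespace Supp

variable (K : Supp)

/-- distance of the point `ψ` of the curve from the support line with normal `ψ - α` (divided by 1) -/
noncomputable def E (ψ α : ℝ) : ℝ := K.h (ψ - α) - K.h ψ * cos α + deriv K.h ψ * sin α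

theorem TaylorAux_h1 (x : ℝ) : HasDerivAt K.h (deriv K.h x) x :=
  (K.an x).differentiableAt.hasDerivAt

theorem TaylorAux_h2 (x : ℝ) : HasDerivAt (deriv K.h) (deriv (deriv K.h) x) x :=
  (K.an x).deriv.differentiableAt.hasDerivAt

theorem TaylorAux_h3 : Continuous (deriv (deriv K.h)) := by
  rw [continuous_iff_continuousAt]
  intro x
  exact (K.an x).deriv.deriv.continuousAt

theorem E_mean (ψ α : ℝ) : ∃ ξ : ℝ, |ξ| ≤ |α| ∧
    K.E ψ α = α ^ 2 / 2 * (deriv (deriv K.h) (ψ - ξ) + K.h ψ * cos ξ - deriv K.h ψ * sin ξ) := by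
  refine TaylorAux.general (fun α => K.E ψ α)
    (fun α => -deriv K.h (ψ - α) + K.h ψ * sin α + deriv K.h ψ * cos α)
    (fun ξ => deriv (deriv K.h) (ψ - ξ) + K.h ψ * cos ξ - deriv K.h ψ * sin ξ) ?_ ?_ ?_ ?_ α
  · intro x
    have hs : HasDerivAt (fun α : ℝ => ψ - α) (-1) x := by
      simpa using (hasDerivAt_id x).const_sub ψ
    have a1 := (K.TaylorAux_h1 (ψ - x)).comp x hs
    have a2 := (hasDerivAt_cos x).const_mul (K.h ψ)
    have a3 := (hasDerivAt_sin x).const_mul (deriv K.h ψ)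
    have a4 := (a1.sub a2).add a3
    refine a4.congr_deriv ?_
    ring
  · intro x
    have hs : HasDerivAt (fun α : ℝ => ψ - α) (-1) x := by
      simpa using (hasDerivAt_id x).const_sub ψ
    have a1 := ((K.TaylorAux_h2 (ψ - x)).comp x hs).neg
    have a2 := (hasDerivAt_sin x).const_mul (K.h ψ)
    have a3 := (hasDerivAt_cos x).const_mul (deriv K.h ψ)
    have a4 := (a1.add a2).add a3
    refine a4.congr_deriv ?_
    ring
  · simp [E]
  · simp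

theorem E_tendsto (ψ₀ : ℝ) :
    Tendsto (fun z : ℝ × ℝ => K.E z.1 z.2 / z.2 ^ 2) (𝓝[{z | z.2 ≠ 0}] (ψ₀, 0))
      (𝓝 ((K.h ψ₀ + deriv (deriv K.h) ψ₀) / 2)) := by
  choose ξ hξ hE using fun z : ℝ × ℝ => K.E_mean z.1 z.2
  have hz : Tendsto (fun z : ℝ × ℝ => z) (𝓝[{z | z.2 ≠ 0}] (ψ₀, 0)) (𝓝 (ψ₀, 0)) :=
    tendsto_id.mono_left nhdsWithin_le_nhds
  have h1 : Tendsto (fun z : ℝ × ℝ => z.1) (𝓝[{z | z.2 ≠ 0}] (ψ₀, 0)) (𝓝 ψ₀) :=
    (continuous_fst.tendsto (ψ₀, (0 : ℝ))).comp hz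
  have h2 : Tendsto (fun z : ℝ × ℝ => |z.2|) (𝓝[{z | z.2 ≠ 0}] (ψ₀, 0)) (𝓝 0) := by
    have : Tendsto (fun z : ℝ × ℝ => |z.2|) (𝓝 (ψ₀, (0 : ℝ))) (𝓝 |(0 : ℝ)|) :=
      (continuous_snd.abs).tendsto (ψ₀, (0 : ℝ))
    rw [abs_zero] at this
    exact this.comp hz
  have h3 : Tendsto ξ (𝓝[{z | z.2 ≠ 0}] (ψ₀, 0)) (𝓝 0) :=
    squeeze_zero_norm (fun z => hξ z) h2
  have hB : Continuous fun w : ℝ × ℝ =>
      (deriv (deriv K.h) (w.1 - w.2) + K.h w.1 * cos w.2 - deriv K.h w.1 * sin w.2) / 2 := by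
    have c1 : Continuous K.h := continuous_iff_continuousAt.2 fun x => (K.an x).continuousAt
    have c2 : Continuous (deriv K.h) :=
      continuous_iff_continuousAt.2 fun x => (K.an x).deriv.continuousAt
    have c3 := K.TaylorAux_h3
    fun_prop
  have h4 := (hB.tendsto (ψ₀, 0)).comp (h1.prodMk_nhds h3)
  have e : (deriv (deriv K.h) (ψ₀ - 0) + K.h ψ₀ * cos 0 - deriv K.h ψ₀ * sin 0) / 2 =
      (K.h ψ₀ + deriv (deriv K.h) ψ₀) / 2 := by
    simp [add_comm]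
  simp only [e] at h4
  refine h4.congr' ?_
  filter_upwards [self_mem_nhdsWithin] with z hz
  have hz0 : z.2 ≠ 0 := hz
  rw [hE z]
  simp only [Function.comp]
  field_simp

end Supp

end Pool.Agent.H6.Fo
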